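import Pool.Agent.GH.Base
import Pool.Agent.GH.DefsU

/-!
# Ghost conjecture `(13,1)`: definitions used in the proof

`phi13 = E(q)^26/E(q^13)^2` (weight twelve; it plays the role of `φ²`), `dlog13 = θf/f`,
`N4 = (φ² (1+5f+13f²))^{1/3}`, `N6 = (φ² (1+6f+13f²))^{1/2}` (weights four and six).
`h = f(q)`, `g = f(q^13) = h^13/S(h)` with `S(f) = φ(q^13)²/φ(q)²`, `U = n4(h)/e4(g)`,
`V = n6(h)/e6(g)`; the matrices `Mat13 c x` of `U_13` in the bases `φ^{2x} D_c f^j`,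
`D_c = 1, θf/f, N4, N6, N4², N4 N6` (`c = 0, …, 5`) of the forms of weight `12x + 2c` on the
component `c`, and the parametrisation `w = (27^12)^x - 1` of the weights `z^{12x}`.
-/

open PowerSeries Filter Topology

noncomputable section

namespace GH

namespace D13

instance fact_prime_thirteen : Fact (Nat.Prime 13) := ⟨by norm_num⟩

theorem thirteen_ne : (13 : ℕ) ≠ 0 := by norm_num

/-! ### Polynomials: `j = A(f)/f`, `A = P_3 e4³`, `A - 1728 f = P_2 e6²` -/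

section poly

variable {A : Type*} [CommRing A]

/-- `1 + 5x + 13x²`. -/
def p3x (x : A) : A := 1 + 5 * x + 13 * x ^ 2

/-- `1 + 6x + 13x²`. -/
def p2x (x : A) : A := 1 + 6 * x + 13 * x ^ 2

/-- `1 + 247x + 3380x² + 15379x³ + 28561x⁴`. -/
def e4x (x : A) : A := 1 + 247 * x + 3380 * x ^ 2 + 15379 * x ^ 3 + 28561 * x ^ 4

/-- `1 + 7x + 20x² + 19x³ + x⁴`. -/
def n4x (x : A) : A := 1 + 7 * x + 20 * x ^ 2 + 19 * x ^ 3 + x ^ 4

/-- `1 - 494x - 20618x² - 237276x³ - 1313806x⁴ - 3712930x⁵ - 4826809x⁶`. -/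
def e6x (x : A) : A := 1 - 494 * x - 20618 * x ^ 2 - 237276 * x ^ 3 - 1313806 * x ^ 4 -
  3712930 * x ^ 5 - 4826809 * x ^ 6

/-- `1 + 10x + 46x² + 108x³ + 122x⁴ + 38x⁵ - x⁶`. -/
def n6x (x : A) : A := 1 + 10 * x + 46 * x ^ 2 + 108 * x ^ 3 + 122 * x ^ 4 + 38 * x ^ 5 - x ^ 6

variable {B : Type*} [CommRing B]

theorem map_p3x (φ : A →+* B) (x : A) : φ (p3x x) = p3x (φ x) := by
  simp only [p3x, map_add, map_sub, map_mul, map_pow, map_one, map_ofNat]

theorem map_p2x (φ : A →+* B) (x : A) : φ (p2x x) = p2x (φ x) := by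
  simp only [p2x, map_add, map_sub, map_mul, map_pow, map_one, map_ofNat]

theorem map_e4x (φ : A →+* B) (x : A) : φ (e4x x) = e4x (φ x) := by
  simp only [e4x, map_add, map_sub, map_mul, map_pow, map_one, map_ofNat]

theorem map_n4x (φ : A →+* B) (x : A) : φ (n4x x) = n4x (φ x) := by
  simp only [n4x, map_add, map_sub, map_mul, map_pow, map_one, map_ofNat]

theorem map_e6x (φ : A →+* B) (x : A) : φ (e6x x) = e6x (φ x) := by
  simp only [e6x, map_sub, map_mul, map_pow, map_one, map_ofNat]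

theorem map_n6x (φ : A →+* B) (x : A) : φ (n6x x) = n6x (φ x) := by
  simp only [n6x, map_add, map_sub, map_mul, map_pow, map_one, map_ofNat]

/-- `A - B = 1728 x`. -/
theorem p3x_mul_sub (x : A) : p3x x * e4x x ^ 3 - p2x x * e6x x ^ 2 = 1728 * x := by
  unfold p3x p2x e4x e6x
  ring

theorem p3x_mul_sub' (x : A) : p3x x * n4x x ^ 3 - p2x x * n6x x ^ 2 = 1728 * x ^ 13 := by
  unfold p3x p2x n4x n6x
  ring

end poly

/-- `φ² = ∏ (1-q^n)^26/(1-q^{13n})^2`. -/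
def phi13 (R : Type*) [CommRing R] : PowerSeries R :=
  euler R 1 ^ 26 * invOfUnit (euler R 13) 1 ^ 2

/-- `θF = q dF/dq`. -/
def thq13 {R : Type*} [CommRing R] (F : PowerSeries R) : PowerSeries R :=
  PowerSeries.mk fun n ↦ (n : R) * PowerSeries.coeff n F

/-- `θf/f` for the series `f = q ∏ ((1-q^{13n})/(1-q^n))^2`, computed as `θ(u)/u + 1` for
`f = q u`. -/
def dlog13 (R : Type*) [CommRing R] : PowerSeries R :=
  1 + thq13 ((euler R 13 * invOfUnit (euler R 1) 1) ^ 2) *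
    invOfUnit ((euler R 13 * invOfUnit (euler R 1) 1) ^ 2) 1

/-- The series `S` in one variable `h` with `S(f(q)) = φ(q^13)²/φ(q)²`. -/
def S13 (R : Type*) [CommRing R] : PowerSeries R :=
  PowerSeries.mk fun n ↦
    fcoeff 13 ((phi13 R).expand 13 thirteen_ne * invOfUnit (phi13 R) 1) n

/-- `g = h^13/S(h)`: `f(q^13)` in terms of `h = f(q)`. -/
def gs13 (R : Type*) [CommRing R] : PowerSeries R := X ^ 13 * invOfUnit (S13 R) 1

/-- `U = n4(h)/e4(g)`. -/
def U13 (R : Type*) [CommRing R] : PowerSeries R :=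
  n4x (X : PowerSeries R) * invOfUnit (e4x (gs13 R)) 1

/-- `V = n6(h)/e6(g)`. -/
def V13 (R : Type*) [CommRing R] : PowerSeries R :=
  n6x (X : PowerSeries R) * invOfUnit (e6x (gs13 R)) 1

/-- The exponent of `U`. -/
def eu13 : ℕ → ℕ
  | 0 => 2
  | 1 => 0
  | 2 => 1
  | 3 => 2
  | 4 => 0
  | 5 => 1
  | _ => 0

/-- The exponent of `V`. -/
def ev13 : ℕ → ℕ
  | 0 => 1
  | 1 => 0
  | 2 => 1
  | 3 => 0
  | 4 => 1
  | 5 => 0
  | _ => 0

/-- The shift in the exponent of `S`. -/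
def sh13 (c : ℕ) : ℕ := if c = 1 then 0 else 1

/-- The matrix of `U_13` in the basis `φ^{2x} D_c f^j`, `c = 0, …, 5`:
`[h^{13i-j}] S^{i - x - s_c} U^{a_c} V^{b_c}`. -/
def Mat13 {K : Type*} [Field K] (c : ℕ) (x : K) (i j : ℕ) : K :=
  if j ≤ 13 * i then
    PowerSeries.coeff (13 * i - j)
      (ppow (S13 K) ((i : K) - x - sh13 c) * U13 K ^ eu13 c * V13 K ^ ev13 c)
  else 0

/-- `φ^{2x}`, a form of weight `12x`. -/
def phiPow13 {K : Type*} [Field K] (x : K) : PowerSeries K := ppow (phi13 K) x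

/-- `N4 = (φ² (1+5f+13f²))^{1/3}`, a form of weight four. -/
def N4 (K : Type*) [Field K] : PowerSeries K :=
  ppow (phi13 K * p3x (hauptmodul 13 K)) (1 / 3)

/-- `N6 = (φ² (1+6f+13f²))^{1/2}`, a form of weight six. -/
def N6 (K : Type*) [Field K] : PowerSeries K :=
  ppow (phi13 K * p2x (hauptmodul 13 K)) (1 / 2)

/-- `D_c = 1, θf/f, N4, N6, N4², N4 N6`. -/
def dser13 (K : Type*) [Field K] : ℕ → PowerSeries K
  | 0 => 1
  | 1 => dlog13 K
  | 2 => N4 K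
  | 3 => N6 K
  | 4 => N4 K ^ 2
  | 5 => N4 K * N6 K
  | _ => 1

/-- The field `ℂ_13`. -/
abbrev C13 : Type := PadicComplex 13

/-- `w(x) = (27^12)^x - 1 = ∑_{n ≥ 1} binom(x, n) (27^12-1)^n`. -/
def wx13 (x : C13) : C13 :=
  ∑' n : ℕ, PowerSeries.coeff (n + 1) (binS x) * (27 ^ 12 - 1) ^ (n + 1)

/-- The theorem on the central disc. -/
def CentralTheorem13 : Prop :=
  ∀ c : ℕ, c ≤ 5 → ∀ x : C13, ‖x‖ ≤ 1 →
    newtonPolygon 13 (fred (Mat13 c x)) =
      newtonPolygon 13 (ghostG 13 c (729 ^ c * (1 + wx13 x) - 1))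

end D13

end GH
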