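import Pool.Agent.GH.D13.Ser13
import Pool.Agent.GH.ClEk
import Pool.Agent.GH.DP.BaseP

/-! Eisenstein series of weight divisible by twelve in terms of `φ²` and `f`. -/

open PowerSeries Filter Topology

noncomputable section

namespace GH

namespace D13

open GP DP
open scoped MatrixGroups
open ModularForm UpperHalfPlane

/-- cusp forms of level one are divisible by the discriminant -/
theorem d13j_div {k : ℤ} (f : ModularForm 𝒮ℒ k) (F : PowerSeries ℚ)
    (hF : qExpansion 1 f = c2m F) (h0 : PowerSeries.coeff 0 F = 0) :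
    ∃ (g : ModularForm 𝒮ℒ (k - 12)) (G : PowerSeries ℚ), qExpansion 1 g = c2m G ∧
      F = X * euler ℚ 1 ^ 24 * G := by
  have hcusp : (qExpansion 1 f).coeff 0 = 0 := by
    rw [hF, PowerSeries.coeff_map, h0, map_zero]
  have hfac := qExpansion_eq_qExpansion_discriminant_mul f hcusp
  obtain ⟨g, hg⟩ : ∃ g : ModularForm 𝒮ℒ (k - 12),
    g = CuspForm.discriminantEquiv (toCuspForm f hcusp) := ⟨_, rfl⟩
  rw [← hg, hF, c2_disc'] at hfac
  obtain ⟨G', hG', hFG⟩ := c2_rat (F := F) (u := euler ℚ 1 ^ 24)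
    (G := qExpansion 1 g) (by rw [map_pow, c2_euler_zero, one_pow]) hfac
  exact ⟨g, G', hG', hFG⟩

theorem d13j_zero {k : ℤ} (hk : k < 12) (f : ModularForm 𝒮ℒ k) (F : PowerSeries ℚ)
    (hF : qExpansion 1 f = c2m F) (h0 : PowerSeries.coeff 0 F = 0) : F = 0 := by
  obtain ⟨g, G, hG, hFG⟩ := d13j_div f F hF h0
  have hg0 : (g : ℍ → ℂ) = 0 :=
    ModularFormClass.levelOne_neg_weight_eq_zero (k := k - 12) (by omega) g
  rw [hg0, qExpansion_zero] at hG
  have h1 : G = 0 := c2m_inj (hG.symm.trans (map_zero c2m).symm)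
  rw [hFG, h1, mul_zero]

theorem d13j_sub {k : ℤ} (f e : ModularForm 𝒮ℒ k) (F W : PowerSeries ℚ)
    (hF : qExpansion 1 f = c2m F) (hW : qExpansion 1 e = c2m W) (r : ℚ) :
    qExpansion 1 (f - (r : ℂ) • e : ModularForm 𝒮ℒ k) = c2m (F - C r * W) := by
  rw [show ((f - (r : ℂ) • e : ModularForm 𝒮ℒ k) : ℍ → ℂ) = ⇑f - ⇑((r : ℂ) • e) from rfl,
    ModularForm.qExpansion_sub one_pos one_mem_strictPeriods_SL f ((r : ℂ) • e),
    show (((r : ℂ) • e : ModularForm 𝒮ℒ k) : ℍ → ℂ) = (r : ℂ) • ⇑e from rfl,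
    ModularForm.qExpansion_smul one_pos one_mem_strictPeriods_SL (r : ℂ) e, hF, hW, map_sub,
    map_mul, PowerSeries.map_C, PowerSeries.smul_eq_C_mul]
  rfl

theorem d13j_const (k : ℕ) : PowerSeries.constantCoeff (eisQ k) = 1 := by
  unfold eisQ
  rw [map_add, map_one, ← PowerSeries.coeff_zero_eq_constantCoeff_apply, PowerSeries.coeff_mk]
  simp

theorem d13j_e4 : qExpansion 1 E₄ = c2m (eisQ 4) := c2_eis _ ⟨2, rfl⟩

theorem d13j_e6 : qExpansion 1 E₆ = c2m (eisQ 6) := c2_eis _ ⟨3, rfl⟩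

/-- level one forms of weight `12m` with rational q-expansion -/
theorem d13j_main (m : ℕ) : ∀ (k : ℤ), k = 12 * m → ∀ (f : ModularForm 𝒮ℒ k)
    (F : PowerSeries ℚ), qExpansion 1 f = c2m F → ∃ c : ℕ → ℚ,
      F = ∑ j ∈ Finset.range (m + 1),
        C (c j) * (eisQ 4 ^ 3) ^ (m - j) * (X * euler ℚ 1 ^ 24) ^ j := by
  induction m with
  | zero =>
    intro k hk f F hF
    have hk0 : k = 0 := by rw [hk]; norm_num
    obtain ⟨e, he⟩ : ∃ e : ModularForm 𝒮ℒ k, e = ModularForm.mcast (by rw [hk]; norm_num)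
      (E₄.pow 0) := ⟨_, rfl⟩
    have hqe : qExpansion 1 e = c2m 1 := by
      rw [he, ModularForm.qExpansion_mcast,
        ModularForm.qExpansion_pow one_pos one_mem_strictPeriods_SL, pow_zero, map_one]
    obtain ⟨r, hr⟩ : ∃ r : ℚ, r = PowerSeries.coeff 0 F := ⟨_, rfl⟩
    have h1 := d13j_zero (by omega) _ _ (d13j_sub f e F 1 hF hqe r) (by
      rw [map_sub, mul_one, PowerSeries.coeff_zero_C, ← hr, sub_self])
    refine ⟨fun _ => r, ?_⟩
    rw [zero_add, Finset.sum_range_one, pow_zero, pow_zero, mul_one]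
    exact sub_eq_zero.1 h1
  | succ m ih =>
    intro k hk f F hF
    obtain ⟨e, he⟩ : ∃ e : ModularForm 𝒮ℒ k, e = ModularForm.mcast (by rw [hk]; push_cast; ring)
      (E₄.pow (3 * (m + 1))) := ⟨_, rfl⟩
    have hqe : qExpansion 1 e = c2m (eisQ 4 ^ (3 * (m + 1))) := by
      rw [he, ModularForm.qExpansion_mcast,
        ModularForm.qExpansion_pow one_pos one_mem_strictPeriods_SL, d13j_e4, map_pow]
    obtain ⟨r, hr⟩ : ∃ r : ℚ, r = PowerSeries.coeff 0 F := ⟨_, rfl⟩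
    obtain ⟨g, G, hG, hFG⟩ := d13j_div _ _ (d13j_sub f e F _ hF hqe r) (by
      rw [map_sub]
      have h1 : PowerSeries.coeff 0 (C r * eisQ 4 ^ (3 * (m + 1))) = r := by
        rw [PowerSeries.coeff_zero_eq_constantCoeff_apply, map_mul, map_pow, d13j_const, one_pow,
          mul_one]
        exact PowerSeries.constantCoeff_C r
      rw [h1, ← hr, sub_self])
    obtain ⟨c', hc'⟩ := ih (k - 12) (by rw [hk]; push_cast; ring) g G hG
    refine ⟨fun b => if b = 0 then r else c' (b - 1), ?_⟩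
    rw [Finset.sum_range_succ']
    have h3 : F = (X * euler ℚ 1 ^ 24) * G + C r * eisQ 4 ^ (3 * (m + 1)) := by
      rw [← hFG]; ring
    rw [h3, hc', Finset.mul_sum]
    beta_reduce
    rw [if_pos rfl, Nat.sub_zero, pow_zero, mul_one, ← pow_mul]
    congr 1
    refine Finset.sum_congr rfl fun b _ => ?_
    rw [if_neg (Nat.succ_ne_zero b), Nat.add_sub_cancel,
      show m + 1 - (b + 1) = m - b by omega, pow_succ (X * euler ℚ 1 ^ 24) b]
    ring

/-- Level one forms of weight `12m`: polynomials in `E_4³` and `Δ`. -/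
theorem eisQ_eq_sum13 (m : ℕ) (hm : 1 ≤ m) : ∃ c : ℕ → ℚ,
    eisQ (12 * m) = ∑ j ∈ Finset.range (m + 1),
      C (c j) * (eisQ 4 ^ 3) ^ (m - j) * (X * euler ℚ 1 ^ 24) ^ j := by
  have hk : 3 ≤ 12 * m := by omega
  have hk2 : Even (12 * m) := ⟨6 * m, by ring⟩
  exact d13j_main m _ (by push_cast; ring) (ModularForm.E hk) (eisQ (12 * m)) (c2_eis hk hk2)

/-- `E_{12m} = φ^{2m} P(f)`. -/
theorem eisQ_eq_phi13 (hK : K13) (m : ℕ) (hm : 1 ≤ m) :
    ∃ P : Polynomial ℚ, eisQ (12 * m) = phi13 ℚ ^ m *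
      ∑ i ∈ Finset.range (P.natDegree + 1), C (P.coeff i) * hauptmodul 13 ℚ ^ i := by
  obtain ⟨c, hc⟩ := eisQ_eq_sum13 m hm
  have hd := hauptmodul13_mul_phi ℚ
  obtain ⟨P, hP⟩ : ∃ P : Polynomial ℚ, P = ∑ b ∈ Finset.range (m + 1),
      Polynomial.C (c b) * (p3x (Polynomial.X : Polynomial ℚ) *
        e4x (Polynomial.X : Polynomial ℚ) ^ 3) ^ (m - b) * Polynomial.X ^ b := ⟨_, rfl⟩
  refine ⟨P, ?_⟩
  have h1 : ∑ i ∈ Finset.range (P.natDegree + 1), C (P.coeff i) * hauptmodul 13 ℚ ^ i =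
      Polynomial.aeval (hauptmodul 13 ℚ) P := by
    rw [Polynomial.aeval_eq_sum_range]
    refine Finset.sum_congr rfl fun i _ => ?_
    rw [PowerSeries.smul_eq_C_mul]
  have ha : ∀ Q : Polynomial ℚ, Polynomial.aeval (hauptmodul 13 ℚ) Q =
      ((Polynomial.aeval (hauptmodul 13 ℚ) : Polynomial ℚ →ₐ[ℚ] PowerSeries ℚ) :
        Polynomial ℚ →+* PowerSeries ℚ) Q := fun _ => rfl
  rw [h1, hP, map_sum, hc, Finset.mul_sum]
  refine Finset.sum_congr rfl fun b hb => ?_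
  rw [Finset.mem_range] at hb
  rw [map_mul, map_mul, map_pow, map_pow, map_mul, map_pow, ha (p3x _), ha (e4x _), map_p3x,
    map_e4x, ← ha, Polynomial.aeval_X, Polynomial.aeval_C, ← hd, hK.k1]
  have h3 : (algebraMap ℚ (PowerSeries ℚ)) (c b) = C (c b) := rfl
  rw [h3]
  have h4 : phi13 ℚ ^ m = phi13 ℚ ^ (m - b) * phi13 ℚ ^ b := by
    rw [← pow_add]
    congr 1
    omega
  rw [h4, mul_pow (phi13 ℚ), mul_pow (hauptmodul 13 ℚ) (phi13 ℚ)]
  ring

/-- `E_8 = E_4²`. -/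
theorem eisQ_eight : eisQ 8 = eisQ 4 ^ 2 := by
  obtain ⟨f, hf⟩ : ∃ f : ModularForm 𝒮ℒ 8, f = ModularForm.mcast (by norm_num)
    (ModularForm.E (k := 8) (by norm_num)) := ⟨_, rfl⟩
  obtain ⟨e, he⟩ : ∃ e : ModularForm 𝒮ℒ 8, e = ModularForm.mcast (by norm_num)
    (E₄.pow 2) := ⟨_, rfl⟩
  have hqf : qExpansion 1 f = c2m (eisQ 8) := by
    rw [hf, ModularForm.qExpansion_mcast]
    exact c2_eis _ ⟨4, rfl⟩
  have hqe : qExpansion 1 e = c2m (eisQ 4 ^ 2) := by
    rw [he, ModularForm.qExpansion_mcast,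
      ModularForm.qExpansion_pow one_pos one_mem_strictPeriods_SL, d13j_e4, map_pow]
  have h1 := d13j_zero (by norm_num) _ _ (d13j_sub f e _ _ hqf hqe 1) (by
    rw [map_one, one_mul, map_sub, PowerSeries.coeff_zero_eq_constantCoeff_apply, d13j_const,
      PowerSeries.coeff_zero_eq_constantCoeff_apply, map_pow, d13j_const, one_pow, sub_self])
  rw [map_one, one_mul] at h1
  exact sub_eq_zero.1 h1

/-- `E_10 = E_4 E_6`. -/
theorem eisQ_ten : eisQ 10 = eisQ 4 * eisQ 6 := by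
  obtain ⟨f, hf⟩ : ∃ f : ModularForm 𝒮ℒ 10, f = ModularForm.mcast (by norm_num)
    (ModularForm.E (k := 10) (by norm_num)) := ⟨_, rfl⟩
  obtain ⟨e, he⟩ : ∃ e : ModularForm 𝒮ℒ 10, e = ModularForm.mcast (by norm_num)
    (E₄.mul E₆) := ⟨_, rfl⟩
  have hqf : qExpansion 1 f = c2m (eisQ 10) := by
    rw [hf, ModularForm.qExpansion_mcast]
    exact c2_eis _ ⟨5, rfl⟩
  have hqe : qExpansion 1 e = c2m (eisQ 4 * eisQ 6) := by
    rw [he, ModularForm.qExpansion_mcast,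
      ModularForm.qExpansion_mul one_pos one_mem_strictPeriods_SL, d13j_e4, d13j_e6, map_mul]
  have h1 := d13j_zero (by norm_num) _ _ (d13j_sub f e _ _ hqf hqe 1) (by
    rw [map_one, one_mul, map_sub, PowerSeries.coeff_zero_eq_constantCoeff_apply, d13j_const,
      PowerSeries.coeff_zero_eq_constantCoeff_apply, map_mul, d13j_const, d13j_const, one_mul,
      sub_self])
  rw [map_one, one_mul] at h1
  exact sub_eq_zero.1 h1

/-- `E_4³ - E_6² = 1728 Δ`. -/
theorem eisQ_disc : eisQ 4 ^ 3 - eisQ 6 ^ 2 = 1728 * (X * euler ℚ 1 ^ 24) := by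
  obtain ⟨F, hF⟩ : ∃ F : ModularForm 𝒮ℒ 12, F = ModularForm.mcast (by decide) (E₄.pow 3) -
    ModularForm.mcast (by decide) (E₆.pow 2) := ⟨_, rfl⟩
  have h1 : qExpansion 1 F = qExpansion 1 E₄ ^ 3 - qExpansion 1 E₆ ^ 2 := by
    rw [hF]
    simp only [FunLike.coe_sub, coe_mcast,
      ModularForm.qExpansion_sub one_pos one_mem_strictPeriods_SL,
      ModularForm.qExpansion_pow one_pos one_mem_strictPeriods_SL]
  have h2 : (F : ℍ → ℂ) = (((1728 : ℂ) • CuspForm.discriminant : CuspForm 𝒮ℒ 12) : ℍ → ℂ) := by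
    funext z
    rw [hF]
    show E₄ z ^ 3 - E₆ z ^ 2 = (1728 : ℂ) * discriminant z
    rw [discriminant_eq_E₄_cube_sub_E₆_sq z]
    ring
  have h3 : qExpansion 1 F = (1728 : ℂ) • qExpansion 1 discriminant := by
    rw [h2]
    exact ModularForm.qExpansion_smul one_pos one_mem_strictPeriods_SL (1728 : ℂ)
      CuspForm.discriminant
  rw [h1, d13j_e4, d13j_e6, c2_disc', PowerSeries.smul_eq_C_mul] at h3
  apply c2m_inj
  have h8 : (1728 : PowerSeries ℚ) = C (1728 : ℚ) := by rw [map_ofNat]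
  rw [h8, map_sub, map_pow, map_pow, map_mul, ← c2D, PowerSeries.map_C]
  have h7 : algebraMap ℚ ℂ 1728 = 1728 := by simp
  rw [h7]
  linear_combination h3

end D13

end GH
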