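import Pool.Agent.GH.D13.Base13
import Pool.Agent.GH.D3.ClG12b

/-! The functions `f = (η(13z)/η(z))²` and `φ² = η(z)^26/η(13z)^2` on the upper half plane and
their transformations under `Γ_0(13)`. -/

open PowerSeries Filter Topology

noncomputable section

namespace GH

namespace D13

open ModularForm
open Complex (I exp)

/-- `f = (η(13z)/η(z))²`. -/
def f13z (z : ℂ) : ℂ := (eta (13 * z) / eta z) ^ 2

/-- `φ² = η(z)^26/η(13z)^2`. -/
def p13z (z : ℂ) : ℂ := eta z ^ 26 / eta (13 * z) ^ 2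

/-- Invariance of weight `k` under `T = (1 1; 0 1)`, `V = (1 0; 13 1)` and the elliptic elements
`(-4 -1; 13 3)`, `(4 -1; 13 -3)`, `(-5 -1; 26 5)`, `(5 -1; 26 -5)` of `Γ_0(13)`. -/
structure Inv13 (k : ℕ) (F : ℂ → ℂ) : Prop where
  T : ∀ z : ℂ, F (z + 1) = F z
  V : ∀ z : ℂ, 0 < z.im → F (z / (13 * z + 1)) = (13 * z + 1) ^ k * F z
  a1 : ∀ z : ℂ, 0 < z.im → F ((-4 * z - 1) / (13 * z + 3)) = (13 * z + 3) ^ k * F z
  a2 : ∀ z : ℂ, 0 < z.im → F ((4 * z - 1) / (13 * z - 3)) = (13 * z - 3) ^ k * F z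
  b1 : ∀ z : ℂ, 0 < z.im → F ((-5 * z - 1) / (26 * z + 5)) = (26 * z + 5) ^ k * F z
  b2 : ∀ z : ℂ, 0 < z.im → F ((5 * z - 1) / (26 * z - 5)) = (26 * z - 5) ^ k * F z

/-! ### Auxiliary facts -/

theorem d13a_im {z : ℂ} (hz : 0 < z.im) : 0 < (13 * z).im := by
  have := GH.D3.im_nat_mul hz (n := 13) (by norm_num)
  simpa using this

theorem d13a_ne {z : ℂ} (hz : 0 < z.im) : z ≠ 0 := by
  rintro rfl
  simp at hz

theorem d13a_sqrt_two {z : ℂ} (hz : z ≠ 0) : Complex.sqrt z ^ 2 = z := by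
  rw [_root_.sqrt_eq_exp hz, ← Complex.exp_nat_mul]
  have : ((2 : ℕ) : ℂ) * (Complex.log z / 2) = Complex.log z := by
    push_cast
    ring
  rw [this, Complex.exp_log hz]

theorem d13a_S {z : ℂ} (hz : 0 < z.im) : eta (-1 / z) ^ 2 = -I * z * eta z ^ 2 := by
  have hz0 := d13a_ne hz
  have h := eta_comp_eq_csqrt_I_inv hz
  have h1 : eta (-1 / z) = (Complex.sqrt I)⁻¹ * (Complex.sqrt z * eta z) := h
  rw [h1, mul_pow, inv_pow, mul_pow, d13a_sqrt_two hz0, d13a_sqrt_two Complex.I_ne_zero,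
    Complex.inv_I]
  ring

theorem d13a_f_eq (z : ℂ) : f13z z = eta (13 * z) ^ 2 / eta z ^ 2 := by
  rw [f13z, ← div_pow]

theorem d13a_p_eq (z : ℂ) : p13z z = (eta z ^ 2) ^ 13 / eta (13 * z) ^ 2 := by
  rw [p13z, ← pow_mul]

/-- the twenty-fourth root of unity -/
def d13a_zt : ℂ := exp (Real.pi * I / 12)

theorem d13a_zt_pow : d13a_zt ^ 24 = 1 := by
  rw [d13a_zt, ← Complex.exp_nat_mul]
  have : ((24 : ℕ) : ℂ) * (Real.pi * I / 12) = 2 * Real.pi * I := by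
    push_cast
    ring
  rw [this, Complex.exp_two_pi_mul_I]

theorem d13a_zt_ne : d13a_zt ≠ 0 := Complex.exp_ne_zero _

theorem d13a_T (z : ℂ) : eta (z + 1) = d13a_zt * eta z := by
  rw [eta, eta, ← mul_assoc]
  congr 1
  · rw [Function.Periodic.qParam, Function.Periodic.qParam, d13a_zt, ← Complex.exp_add]
    congr 1
    push_cast
    ring
  · congr 1
    funext n
    rw [eta_q_eq_pow, eta_q_eq_pow, mul_add, Complex.exp_add, mul_one,
      Complex.exp_two_pi_mul_I, mul_one]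

theorem d13a_T13 (z : ℂ) : eta (13 * (z + 1)) = d13a_zt ^ 13 * eta (13 * z) := by
  have h : 13 * (z + 1) = 13 * z + 1 + 1 + 1 + 1 + 1 + 1 + 1 + 1 + 1 + 1 + 1 + 1 + 1 := by ring
  rw [h, d13a_T, d13a_T, d13a_T, d13a_T, d13a_T, d13a_T, d13a_T, d13a_T, d13a_T, d13a_T,
    d13a_T, d13a_T, d13a_T]
  ring

theorem f13z_ne {z : ℂ} (hz : 0 < z.im) : f13z z ≠ 0 :=
  pow_ne_zero _ (div_ne_zero (eta_ne_zero (d13a_im hz)) (eta_ne_zero hz))

theorem p13z_ne {z : ℂ} (hz : 0 < z.im) : p13z z ≠ 0 :=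
  div_ne_zero (pow_ne_zero _ (eta_ne_zero hz)) (pow_ne_zero _ (eta_ne_zero (d13a_im hz)))

theorem d13a_thirteen {z : ℂ} (hz : 0 < z.im) : 13 * (-1 / (13 * z)) = -1 / z := by
  have hz0 := d13a_ne hz
  field_simp

theorem f13z_W {z : ℂ} (hz : 0 < z.im) : f13z (-1 / (13 * z)) = (13 * f13z z)⁻¹ := by
  have hz0 := d13a_ne hz
  have hA : eta z ^ 2 ≠ 0 := pow_ne_zero _ (eta_ne_zero hz)
  have hA7 : eta (13 * z) ^ 2 ≠ 0 := pow_ne_zero _ (eta_ne_zero (d13a_im hz))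
  have hI : I ≠ 0 := Complex.I_ne_zero
  rw [d13a_f_eq, d13a_f_eq, d13a_thirteen hz, d13a_S hz, d13a_S (d13a_im hz)]
  generalize eta z ^ 2 = A at *
  generalize eta (13 * z) ^ 2 = B at *
  field_simp

theorem p13z_W {z : ℂ} (hz : 0 < z.im) :
    p13z (-1 / (13 * z)) = 13 ^ 13 * z ^ 12 * p13z z * f13z z ^ 14 := by
  have hz0 := d13a_ne hz
  have hA : eta z ^ 2 ≠ 0 := pow_ne_zero _ (eta_ne_zero hz)
  have hA7 : eta (13 * z) ^ 2 ≠ 0 := pow_ne_zero _ (eta_ne_zero (d13a_im hz))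
  have hI : I ≠ 0 := Complex.I_ne_zero
  have hI12 : I ^ 12 = 1 := by
    have : I ^ 12 = (I ^ 2) ^ 6 := by ring
    rw [this, Complex.I_sq]
    norm_num
  rw [d13a_p_eq, d13a_p_eq, d13a_f_eq, d13a_thirteen hz, d13a_S hz, d13a_S (d13a_im hz)]
  generalize eta z ^ 2 = A at *
  generalize eta (13 * z) ^ 2 = B at *
  have h1 : (-I * (13 * z) * B) ^ 13 / (-I * z * A) =
      I ^ 12 * (13 ^ 13 * z ^ 12 * (B ^ 13 / A)) := by
    field_simp
  rw [h1, hI12, one_mul]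
  field_simp

theorem f13z_diff {z : ℂ} (hz : 0 < z.im) : DifferentiableAt ℂ f13z z := by
  have h1 : DifferentiableAt ℂ (fun t : ℂ ↦ eta (13 * t)) z :=
    DifferentiableAt.comp (g := eta) (f := fun t : ℂ ↦ 13 * t) z
      (differentiableAt_eta_of_mem_upperHalfPlaneSet (d13a_im hz)) (by fun_prop)
  exact (h1.div (differentiableAt_eta_of_mem_upperHalfPlaneSet hz) (eta_ne_zero hz)).pow 2

theorem p13z_diff {z : ℂ} (hz : 0 < z.im) : DifferentiableAt ℂ p13z z := by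
  have h1 : DifferentiableAt ℂ (fun t : ℂ ↦ eta (13 * t)) z :=
    DifferentiableAt.comp (g := eta) (f := fun t : ℂ ↦ 13 * t) z
      (differentiableAt_eta_of_mem_upperHalfPlaneSet (d13a_im hz)) (by fun_prop)
  exact ((differentiableAt_eta_of_mem_upperHalfPlaneSet hz).pow 26).div (h1.pow 2)
    (pow_ne_zero _ (eta_ne_zero (d13a_im hz)))

theorem d13a_f_T (z : ℂ) : f13z (z + 1) = f13z z := by
  have h1 : d13a_zt ^ 13 * eta (13 * z) / (d13a_zt * eta z) =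
      d13a_zt ^ 12 * (eta (13 * z) / eta z) := by
    have h2 : d13a_zt ^ 13 * eta (13 * z) = d13a_zt * (d13a_zt ^ 12 * eta (13 * z)) := by ring
    rw [h2, mul_div_mul_left _ _ d13a_zt_ne, mul_div_assoc]
  rw [f13z, f13z, d13a_T13, d13a_T, h1, mul_pow, ← pow_mul, d13a_zt_pow, one_mul]

theorem d13a_p_T (z : ℂ) : p13z (z + 1) = p13z z := by
  rw [p13z, p13z, d13a_T13, d13a_T, mul_pow, mul_pow, ← pow_mul,
    mul_div_mul_left _ _ (pow_ne_zero _ d13a_zt_ne)]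

/-! ### The element `V` -/

theorem d13a_v {u : ℂ} (hu : 0 < u.im) : ∃ v : ℂ, 0 < v.im ∧ u / (13 * u + 1) = -1 / (13 * v) ∧
    v + 1 = -1 / (13 * u) ∧ 13 * (v * u) = -(13 * u + 1) := by
  have hu0 := d13a_ne hu
  have h31 : 13 * u + 1 ≠ 0 := by
    intro h
    have h1 := congrArg Complex.im h
    have h2 := d13a_im hu
    rw [Complex.add_im, Complex.one_im, Complex.zero_im, add_zero] at h1
    linarith
  have hw : 0 < (-1 / (13 * u)).im := GH.D3.im_S (d13a_im hu)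
  refine ⟨-1 / (13 * u) - 1, ?_, ?_, by ring, ?_⟩
  · rw [Complex.sub_im, Complex.one_im, sub_zero]
    exact hw
  · have h3 : (13 : ℂ) * (-1 / (13 * u) - 1) = -((13 * u + 1) / u) := by
      field_simp
      ring
    rw [h3]
    field_simp
  · field_simp
    ring

theorem d13a_f_V {u : ℂ} (hu : 0 < u.im) : f13z (u / (13 * u + 1)) = f13z u := by
  obtain ⟨v, hv, h1, h2, -⟩ := d13a_v hu
  rw [h1, f13z_W hv, ← d13a_f_T v, h2, f13z_W hu]
  have := f13z_ne hu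
  field_simp

theorem d13a_p_V {u : ℂ} (hu : 0 < u.im) :
    p13z (u / (13 * u + 1)) = (13 * u + 1) ^ 12 * p13z u := by
  obtain ⟨v, hv, h1, h2, h3⟩ := d13a_v hu
  have hf := f13z_ne hu
  have h4 : (13 * u + 1) ^ 12 = 13 ^ 12 * v ^ 12 * u ^ 12 := by
    have h5 : 13 * u + 1 = -(13 * (v * u)) := by rw [h3, neg_neg]
    rw [h5]
    ring
  rw [h1, p13z_W hv, ← d13a_f_T v, ← d13a_p_T v, h2, f13z_W hu, p13z_W hu, h4]
  field_simp

/-! ### Elliptic elements -/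

open scoped MatrixGroups
open UpperHalfPlane in
theorem d13a_SL (a b c d : ℤ) (h : a * d - b * c = 1) {z : ℂ} (hz : 0 < z.im) :
    0 < ((a * z + b) / (c * z + d)).im ∧ c * z + d ≠ 0 ∧
    eta ((a * z + b) / (c * z + d)) ^ 24 = (c * z + d) ^ 12 * eta z ^ 24 := by
  obtain ⟨A, hA⟩ : ∃ A : SL(2, ℤ), A = ⟨!![a, b; c, d], by
    rw [Matrix.det_fin_two_of, h]⟩ := ⟨_, rfl⟩
  obtain ⟨τ, hτ⟩ : ∃ τ : ℍ, (τ : ℂ) = z := ⟨⟨z, hz⟩, rfl⟩
  have h1 : ((A • τ : ℍ) : ℂ) = (a * z + b) / (c * z + d) := by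
    rw [coe_specialLinearGroup_apply, hA, hτ]
    simp
  have hd : denom A τ = c * z + d := by
    rw [denom, hA, hτ]
    simp
  have hd0 : (c : ℂ) * z + d ≠ 0 := by
    rw [← hd]
    exact denom_ne_zero _ _
  have h2 := congrFun (SlashInvariantForm.slash_action_generators_SL2Z discriminant_S_invariant
    discriminant_T_invariant A) τ
  rw [SL_slash_apply, hd] at h2
  refine ⟨?_, hd0, ?_⟩
  · rw [← h1]
    exact (A • τ).im_pos
  · have h3 : eta ((a * z + b) / (c * z + d)) ^ 24 * (c * z + d) ^ (-12 : ℤ) = eta z ^ 24 := by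
      rw [← h1, ← hτ]
      rw [← hτ] at h2
      exact h2
    rw [zpow_neg] at h3
    have h4 : ((c : ℂ) * z + d) ^ (12 : ℤ) = (c * z + d) ^ 12 := by norm_cast
    rw [h4] at h3
    rw [← h3, mul_left_comm, mul_inv_cancel₀ (pow_ne_zero _ hd0), mul_one]

theorem d13a_const {F : ℂ → ℂ} (hF : ∀ z : ℂ, 0 < z.im → ContinuousAt F z) {n : ℕ} (hn : 0 < n)
    (h : ∀ z : ℂ, 0 < z.im → F z ^ n = 1) {z₀ : ℂ} (hz₀ : 0 < z₀.im) (h0 : F z₀ = 1) {z : ℂ}
    (hz : 0 < z.im) : F z = 1 := by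
  have hfin : {x : ℂ | x ^ n = 1}.Finite := by
    refine ((Polynomial.nthRoots n (1 : ℂ)).toFinset.finite_toSet).subset fun x hx ↦ ?_
    rw [Finset.mem_coe, Multiset.mem_toFinset, Polynomial.mem_nthRoots hn]
    exact hx
  have hc : IsPreconnected {z : ℂ | 0 < z.im} := (convex_halfSpace_im_gt 0).isPreconnected
  have h1 : ContinuousOn F {z : ℂ | 0 < z.im} := fun z hz ↦ (hF z hz).continuousWithinAt
  have h2 : Set.MapsTo F {z : ℂ | 0 < z.im} {x : ℂ | x ^ n = 1} := fun z hz ↦ h z hz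
  rw [← h0]
  exact hc.constant_of_mapsTo hfin.isDiscrete h1 h2 hz hz₀

theorem d13a_ell (a b c c' d : ℤ) (hc : c = 13 * c') (h : a * d - b * c = 1) {z₀ : ℂ}
    (hz₀ : 0 < z₀.im) (hfix : a * z₀ + b = z₀ * (c * z₀ + d)) :
    (∀ z : ℂ, 0 < z.im → f13z ((a * z + b) / (c * z + d)) = f13z z) ∧
    ∀ z : ℂ, 0 < z.im → p13z ((a * z + b) / (c * z + d)) = (c * z + d) ^ 12 * p13z z := by
  have hA : ∀ z : ℂ, 0 < z.im → 0 < ((a * z + b) / (c * z + d)).im ∧ c * z + d ≠ 0 ∧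
      eta ((a * z + b) / (c * z + d)) ^ 24 = (c * z + d) ^ 12 * eta z ^ 24 :=
    fun z hz ↦ d13a_SL a b c d h hz
  have hB : ∀ z : ℂ, 0 < z.im → eta (13 * ((a * z + b) / (c * z + d))) ^ 24 =
      (c * z + d) ^ 12 * eta (13 * z) ^ 24 := by
    intro z hz
    have := (d13a_SL a (13 * b) c' d (by rw [hc] at h; linarith) (d13a_im hz)).2.2
    have hc2 : (c' : ℂ) * (13 * z) = c * z := by
      rw [hc]
      push_cast
      ring
    rw [hc2] at this
    rw [← this]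
    congr 2
    rw [← mul_div_assoc]
    congr 1
    push_cast
    ring
  have hd₀ : c * z₀ + d ≠ 0 := (hA z₀ hz₀).2.1
  have hfix' : (a * z₀ + b) / (c * z₀ + d) = z₀ := by
    rw [hfix, mul_div_cancel_right₀ _ hd₀]
  have hmob : ∀ z : ℂ, 0 < z.im →
      ContinuousAt (fun z : ℂ ↦ (a * z + b) / (c * z + d)) z := by
    intro z hz
    exact ContinuousAt.div (by fun_prop) (by fun_prop) (hA z hz).2.1
  have hf : ∀ z : ℂ, 0 < z.im → f13z ((a * z + b) / (c * z + d)) = f13z z := by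
    have h1 : ∀ z : ℂ, 0 < z.im → f13z ((a * z + b) / (c * z + d)) / f13z z = 1 := by
      intro z hz
      refine d13a_const (F := fun z ↦ f13z ((a * z + b) / (c * z + d)) / f13z z) (n := 12)
        ?_ (by norm_num) ?_ hz₀ ?_ hz
      · intro z hz
        refine ContinuousAt.div ?_ (f13z_diff hz).continuousAt (f13z_ne hz)
        exact ContinuousAt.comp (g := f13z) (f := fun z : ℂ ↦ (a * z + b) / (c * z + d))
          (f13z_diff (hA z hz).1).continuousAt (hmob z hz)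
      · intro z hz
        obtain ⟨h2, h3, h4⟩ := hA z hz
        have h5 := hB z hz
        have e1 : ∀ w : ℂ, f13z w ^ 12 = eta (13 * w) ^ 24 / eta w ^ 24 := by
          intro w
          rw [f13z, ← pow_mul, div_pow]
        show (f13z ((a * z + b) / (c * z + d)) / f13z z) ^ 12 = 1
        rw [div_pow, e1, e1, h4, h5, mul_div_mul_left _ _ (pow_ne_zero _ h3)]
        exact div_self (div_ne_zero (pow_ne_zero _ (eta_ne_zero (d13a_im hz)))
          (pow_ne_zero _ (eta_ne_zero hz)))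
      · show f13z ((a * z₀ + b) / (c * z₀ + d)) / f13z z₀ = 1
        rw [hfix', div_self (f13z_ne hz₀)]
    intro z hz
    exact (div_eq_one_iff_eq (f13z_ne hz)).1 (h1 z hz)
  refine ⟨hf, ?_⟩
  intro z hz
  obtain ⟨h2, h3, h4⟩ := hA z hz
  have e1 : ∀ w : ℂ, 0 < w.im → p13z w = eta w ^ 24 / f13z w := by
    intro w hw
    have e2 := eta_ne_zero hw
    have e3 := eta_ne_zero (d13a_im hw)
    rw [p13z, f13z]
    field_simp
  rw [e1 _ h2, e1 _ hz, hf z hz, h4, mul_div_assoc]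

theorem d13a_sq3 : ((Real.sqrt 3 : ℝ) : ℂ) ^ 2 * I ^ 2 = -3 := by
  rw [← Complex.ofReal_pow, Real.sq_sqrt (by norm_num), Complex.I_sq]
  norm_num

theorem d13a_a1 : (∀ z : ℂ, 0 < z.im → f13z ((-4 * z - 1) / (13 * z + 3)) = f13z z) ∧
    ∀ z : ℂ, 0 < z.im → p13z ((-4 * z - 1) / (13 * z + 3)) = (13 * z + 3) ^ 12 * p13z z := by
  have h := d13a_ell (-4) (-1) 13 1 3 (by norm_num) (by norm_num)
    (z₀ := (-7 + Real.sqrt 3 * I) / 26) ?_ ?_
  · push_cast at h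
    simp only [← sub_eq_add_neg] at h
    exact h
  · have e1 : ((-7 + Real.sqrt 3 * I) / 26 : ℂ) = ((-7 / 26 : ℝ) : ℂ) +
        ((Real.sqrt 3 / 26 : ℝ) : ℂ) * I := by
      push_cast
      ring
    rw [e1, Complex.add_im, Complex.ofReal_im, Complex.im_ofReal_mul, Complex.I_im]
    have := Real.sqrt_pos.2 (show (0 : ℝ) < 3 by norm_num)
    positivity
  · push_cast
    linear_combination -d13a_sq3 / 52

theorem d13a_a2 : (∀ z : ℂ, 0 < z.im → f13z ((4 * z - 1) / (13 * z - 3)) = f13z z) ∧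
    ∀ z : ℂ, 0 < z.im → p13z ((4 * z - 1) / (13 * z - 3)) = (13 * z - 3) ^ 12 * p13z z := by
  have h := d13a_ell 4 (-1) 13 1 (-3) (by norm_num) (by norm_num)
    (z₀ := (7 + Real.sqrt 3 * I) / 26) ?_ ?_
  · push_cast at h
    simp only [← sub_eq_add_neg] at h
    exact h
  · have e1 : ((7 + Real.sqrt 3 * I) / 26 : ℂ) = ((7 / 26 : ℝ) : ℂ) +
        ((Real.sqrt 3 / 26 : ℝ) : ℂ) * I := by
      push_cast
      ring
    rw [e1, Complex.add_im, Complex.ofReal_im, Complex.im_ofReal_mul, Complex.I_im]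
    have := Real.sqrt_pos.2 (show (0 : ℝ) < 3 by norm_num)
    positivity
  · push_cast
    linear_combination -d13a_sq3 / 52

theorem d13a_b1 : (∀ z : ℂ, 0 < z.im → f13z ((-5 * z - 1) / (26 * z + 5)) = f13z z) ∧
    ∀ z : ℂ, 0 < z.im → p13z ((-5 * z - 1) / (26 * z + 5)) = (26 * z + 5) ^ 12 * p13z z := by
  have h := d13a_ell (-5) (-1) 26 2 5 (by norm_num) (by norm_num)
    (z₀ := (-5 + I) / 26) ?_ ?_
  · push_cast at h
    simp only [← sub_eq_add_neg] at h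
    exact h
  · have e1 : ((-5 + I) / 26 : ℂ) = ((-5 / 26 : ℝ) : ℂ) + ((1 / 26 : ℝ) : ℂ) * I := by
      push_cast
      ring
    rw [e1, Complex.add_im, Complex.ofReal_im, Complex.im_ofReal_mul, Complex.I_im]
    norm_num
  · push_cast
    linear_combination -Complex.I_sq / 26

theorem d13a_b2 : (∀ z : ℂ, 0 < z.im → f13z ((5 * z - 1) / (26 * z - 5)) = f13z z) ∧
    ∀ z : ℂ, 0 < z.im → p13z ((5 * z - 1) / (26 * z - 5)) = (26 * z - 5) ^ 12 * p13z z := by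
  have h := d13a_ell 5 (-1) 26 2 (-5) (by norm_num) (by norm_num)
    (z₀ := (5 + I) / 26) ?_ ?_
  · push_cast at h
    simp only [← sub_eq_add_neg] at h
    exact h
  · have e1 : ((5 + I) / 26 : ℂ) = ((5 / 26 : ℝ) : ℂ) + ((1 / 26 : ℝ) : ℂ) * I := by
      push_cast
      ring
    rw [e1, Complex.add_im, Complex.ofReal_im, Complex.im_ofReal_mul, Complex.I_im]
    norm_num
  · push_cast
    linear_combination -Complex.I_sq / 26

theorem inv13_f : Inv13 0 f13z where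
  T := d13a_f_T
  V z hz := by rw [pow_zero, one_mul, d13a_f_V hz]
  a1 z hz := by rw [pow_zero, one_mul, d13a_a1.1 z hz]
  a2 z hz := by rw [pow_zero, one_mul, d13a_a2.1 z hz]
  b1 z hz := by rw [pow_zero, one_mul, d13a_b1.1 z hz]
  b2 z hz := by rw [pow_zero, one_mul, d13a_b2.1 z hz]

theorem inv13_p : Inv13 12 p13z where
  T := d13a_p_T
  V _ hz := d13a_p_V hz
  a1 z hz := d13a_a1.2 z hz
  a2 z hz := d13a_a2.2 z hz
  b1 z hz := d13a_b1.2 z hz
  b2 z hz := d13a_b2.2 z hz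

end D13

end GH
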