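import Pool.Agent.GH.D13.Ser13

/-! The equation of `S` and the growth of `S`, `U`, `V`. -/

open PowerSeries Filter Topology

noncomputable section

namespace GH

namespace D13

/-! ### the equation -/

lemma d13e_subst_inj {R : Type*} [CommRing R] {F G : PowerSeries R}
    (h : F.subst (hauptmodul 13 R) = G.subst (hauptmodul 13 R)) : F = G := by
  have h1 := congrArg (fcoeff 13) h
  rw [fcoeff_subst, fcoeff_subst] at h1
  ext n
  exact congrFun h1 n

lemma d13e_ne_zero {F : PowerSeries ℚ} (h : PowerSeries.constantCoeff F = 1) : F ≠ 0 := by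
  rintro rfl
  simp at h

/-- `S A(g) = n(h)` over `ℚ`. -/
lemma d13e_Q (hK : K13) : S13 ℚ * (p3x (gs13 ℚ) * e4x (gs13 ℚ) ^ 3) =
    p3x (X : PowerSeries ℚ) * n4x (X : PowerSeries ℚ) ^ 3 := by
  have hs : HasSubst (hauptmodul 13 ℚ) := fx_hasSubst 13
  apply d13e_subst_inj
  have hco : ∀ F : PowerSeries ℚ, F.subst (hauptmodul 13 ℚ) =
      ((substAlgHom hs : PowerSeries ℚ →ₐ[ℚ] PowerSeries ℚ) :
        PowerSeries ℚ →+* PowerSeries ℚ) F := by
    intro F
    exact (congrFun (coe_substAlgHom hs) F).symm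
  have h1 := hK.k2
  have h2 := congrArg (PowerSeries.expand 13 thirteen_ne) hK.k1
  rw [map_pow, h1, map_mul, map_mul, map_pow, ← S13_subst] at h2
  have e3 : PowerSeries.expand 13 thirteen_ne (p3x (hauptmodul 13 ℚ)) =
      p3x ((gs13 ℚ).subst (hauptmodul 13 ℚ)) := by
    rw [gs13_subst]
    exact map_p3x (PowerSeries.expand 13 thirteen_ne : PowerSeries ℚ →ₐ[ℚ] PowerSeries ℚ).toRingHom
      (hauptmodul 13 ℚ)
  have e4 : PowerSeries.expand 13 thirteen_ne (e4x (hauptmodul 13 ℚ)) =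
      e4x ((gs13 ℚ).subst (hauptmodul 13 ℚ)) := by
    rw [gs13_subst]
    exact map_e4x (PowerSeries.expand 13 thirteen_ne : PowerSeries ℚ →ₐ[ℚ] PowerSeries ℚ).toRingHom
      (hauptmodul 13 ℚ)
  rw [e3, e4, mul_assoc] at h2
  have h4 : phi13 ℚ ≠ 0 := d13e_ne_zero (constantCoeff_phi13 ℚ)
  have h5 := mul_left_cancel₀ h4 h2
  rw [hco, hco] at h5
  have hX : (X : PowerSeries ℚ).subst (hauptmodul 13 ℚ) = hauptmodul 13 ℚ := subst_X hs
  rw [hco] at hX
  rw [hco, hco, map_mul, map_mul, map_pow, map_mul, map_pow, map_p3x, map_e4x, map_p3x, map_n4x,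
    hX]
  exact h5.symm

/-- `S A(g) = n(h)` over `ℤ`. -/
lemma d13e_Z (hK : K13) : S13 ℤ * (p3x (gs13 ℤ) * e4x (gs13 ℤ) ^ 3) =
    p3x (X : PowerSeries ℤ) * n4x (X : PowerSeries ℤ) ^ 3 := by
  have hinj : Function.Injective (PowerSeries.map (Int.castRingHom ℚ)) := by
    intro F G h
    ext n
    have h1 := congrArg (PowerSeries.coeff n) h
    rw [PowerSeries.coeff_map, PowerSeries.coeff_map] at h1
    exact Int.cast_injective h1
  apply hinj
  have h := d13e_Q hK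
  simp only [map_mul, map_pow, map_p3x, map_e4x, map_n4x, PowerSeries.map_X, map_S13, map_gs13]
  exact h

/-- The equation `S A(g) = n(h)`. -/
theorem S13_fix (hK : K13) (R : Type*) [CommRing R] :
    S13 R * (p3x (gs13 R) * e4x (gs13 R) ^ 3) =
      p3x (X : PowerSeries R) * n4x (X : PowerSeries R) ^ 3 := by
  have h := congrArg (PowerSeries.map (Int.castRingHom R)) (d13e_Z hK)
  simp only [map_mul, map_pow, map_p3x, map_e4x, map_n4x, PowerSeries.map_X, map_S13,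
    map_gs13] at h
  exact h

/-- The equation `S B(g) = n(h) - 1728 h^13`. -/
theorem S13_fix' (hK : K13) (R : Type*) [CommRing R] :
    S13 R * (p2x (gs13 R) * e6x (gs13 R) ^ 2) =
      p2x (X : PowerSeries R) * n6x (X : PowerSeries R) ^ 2 := by
  have h1 := S13_fix hK R
  have h2 := p3x_mul_sub (gs13 R)
  have h3 := p3x_mul_sub' (X : PowerSeries R)
  have h4 := gs13_mul R
  linear_combination h1 - S13 R * h2 + h3 - 1728 * h4

/-! ### growth -/

/-- `13^⌈n/14⌉` divides the coefficient of `T^n` for `n < N`. -/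
def d13e_P (N : ℕ) (F : PowerSeries ℤ) : Prop :=
  ∀ n < N, (13 : ℤ) ^ ((n + 13) / 14) ∣ PowerSeries.coeff n F

lemma d13e_one (N : ℕ) : d13e_P N 1 := by
  intro n _
  rw [PowerSeries.coeff_one]
  split_ifs with h
  · subst h; simp
  · exact dvd_zero _

lemma d13e_add {N : ℕ} {F G : PowerSeries ℤ} (hF : d13e_P N F) (hG : d13e_P N G) :
    d13e_P N (F + G) := by
  intro n hn
  rw [map_add]
  exact dvd_add (hF n hn) (hG n hn)

lemma d13e_mul {N : ℕ} {F G : PowerSeries ℤ} (hF : d13e_P N F) (hG : d13e_P N G) :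
    d13e_P N (F * G) := by
  intro n hn
  rw [PowerSeries.coeff_mul]
  refine Finset.dvd_sum fun p hp ↦ ?_
  have hp' := Finset.HasAntidiagonal.mem_antidiagonal.mp hp
  have h1 : (13 : ℤ) ^ ((n + 13) / 14) ∣ 13 ^ ((p.1 + 13) / 14) * 13 ^ ((p.2 + 13) / 14) := by
    rw [← pow_add]
    exact pow_dvd_pow _ (by omega)
  exact h1.trans (mul_dvd_mul (hF _ (by omega)) (hG _ (by omega)))

lemma d13e_pow {N : ℕ} {F : PowerSeries ℤ} (hF : d13e_P N F) (k : ℕ) : d13e_P N (F ^ k) := by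
  induction k with
  | zero => simpa using d13e_one N
  | succ k ih => rw [pow_succ]; exact d13e_mul ih hF

lemma d13e_inv {N : ℕ} {F G : PowerSeries ℤ} (hF : d13e_P N F)
    (h0 : PowerSeries.constantCoeff F = 1) (h : F * G = 1) : d13e_P N G := by
  intro n
  induction n using Nat.strong_induction_on with
  | _ n ih =>
    intro hn
    have e : G = 1 + (1 - F) * G := by linear_combination h
    have e2 := congrArg (PowerSeries.coeff n) e
    rw [map_add, PowerSeries.coeff_mul] at e2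
    rw [e2]
    refine dvd_add (d13e_one N n hn) (Finset.dvd_sum fun p hp ↦ ?_)
    have hp' := Finset.HasAntidiagonal.mem_antidiagonal.mp hp
    by_cases h1 : p.1 = 0
    · have h2 : PowerSeries.coeff p.1 (1 - F) = 0 := by rw [h1]; simp [h0]
      rw [h2, zero_mul]
      exact dvd_zero _
    · have h2 : PowerSeries.coeff p.1 (1 - F) = -PowerSeries.coeff p.1 F := by
        simp [PowerSeries.coeff_one, h1]
      rw [h2]
      have h3 : (13 : ℤ) ^ ((n + 13) / 14) ∣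
          13 ^ ((p.1 + 13) / 14) * 13 ^ ((p.2 + 13) / 14) := by
        rw [← pow_add]
        exact pow_dvd_pow _ (by omega)
      exact h3.trans (mul_dvd_mul ((hF _ (by omega)).neg_right) (ih p.2 (by omega) (by omega)))

/-- Multiplication by `c X^k`, `13^a ∣ c`, `k ≤ 14 a`. -/
lemma d13e_X {N M : ℕ} {F : PowerSeries ℤ} (hF : d13e_P N F) (c : ℤ) (a k : ℕ)
    (hc : 13 ^ a ∣ c) (hk : k ≤ 14 * a) (hM : M ≤ N + k) : d13e_P M (C c * (X ^ k * F)) := by
  intro n hn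
  rw [PowerSeries.coeff_C_mul, PowerSeries.coeff_X_pow_mul']
  split_ifs with h
  · have h1 : (13 : ℤ) ^ ((n + 13) / 14) ∣ 13 ^ a * 13 ^ ((n - k + 13) / 14) := by
      rw [← pow_add]
      exact pow_dvd_pow _ (by omega)
    exact h1.trans (mul_dvd_mul hc (hF _ (by omega)))
  · rw [mul_zero]
    exact dvd_zero _

/-- `1/S`. -/
def d13e_V : PowerSeries ℤ := invOfUnit (S13 ℤ) 1

lemma d13e_V_mul : S13 ℤ * d13e_V = 1 :=
  PowerSeries.mul_invOfUnit _ _ (by rw [constantCoeff_S13]; simp)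

lemma d13e_PV {N : ℕ} (h : d13e_P N (S13 ℤ)) : d13e_P N d13e_V :=
  d13e_inv h (constantCoeff_S13 ℤ) d13e_V_mul

lemma d13e_gs : gs13 ℤ = X ^ 13 * d13e_V := rfl

/-- `A` expanded. -/
lemma d13e_A {R : Type*} [CommRing R] (x : R) : p3x x * e4x x ^ 3 = 1 + 746 * x ^ 1 + 196885 * x ^ 2 +
      21099988 * x ^ 3 + 778915592 * x ^ 4 + 15274994020 * x ^ 5 +
      189124030238 * x ^ 6 + 1610126946220 * x ^ 7 + 9858921494006 * x ^ 8 +
      44326807379140 * x ^ 9 + 146681435327336 * x ^ 10 + 351263437231252 * x ^ 11 +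
      582452128062025 * x ^ 12 + 605750213184506 * x ^ 13 + 302875106592253 * x ^ 14 := by
  unfold p3x e4x
  ring

/-- `n` expanded. -/
lemma d13e_n {R : Type*} [CommRing R] (x : R) : p3x x * n4x x ^ 3 = 1 + 26 * x ^ 1 + 325 * x ^ 2 + 2548 * x ^ 3 +
      13832 * x ^ 4 + 54340 * x ^ 5 + 157118 * x ^ 6 + 333580 * x ^ 7 +
      509366 * x ^ 8 + 534820 * x ^ 9 + 354536 * x ^ 10 + 124852 * x ^ 11 +
      15145 * x ^ 12 + 746 * x ^ 13 + 13 * x ^ 14 := by
  unfold p3x n4x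
  ring

/-- the polynomial part -/
def d13e_L : PowerSeries ℤ := 1 + C (26 : ℤ) * (X ^ 1 * 1) + C (325 : ℤ) * (X ^ 2 * 1) +
  C (2548 : ℤ) * (X ^ 3 * 1) + C (13832 : ℤ) * (X ^ 4 * 1) + C (54340 : ℤ) * (X ^ 5 * 1) +
  C (157118 : ℤ) * (X ^ 6 * 1) + C (333580 : ℤ) * (X ^ 7 * 1) + C (509366 : ℤ) * (X ^ 8 * 1) +
  C (534820 : ℤ) * (X ^ 9 * 1) + C (354536 : ℤ) * (X ^ 10 * 1) + C (124852 : ℤ) * (X ^ 11 * 1) +
  C (15145 : ℤ) * (X ^ 12 * 1) + C (13 : ℤ) * (X ^ 14 * 1)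

/-- the remainder -/
def d13e_T (V : PowerSeries ℤ) : PowerSeries ℤ := C (-196885 : ℤ) * (X ^ 26 * V ^ 1) + C (-21099988 : ℤ) * (X ^ 39 * V ^ 2) +
  C (-778915592 : ℤ) * (X ^ 52 * V ^ 3) + C (-15274994020 : ℤ) * (X ^ 65 * V ^ 4) +
  C (-189124030238 : ℤ) * (X ^ 78 * V ^ 5) + C (-1610126946220 : ℤ) * (X ^ 91 * V ^ 6) +
  C (-9858921494006 : ℤ) * (X ^ 104 * V ^ 7) + C (-44326807379140 : ℤ) * (X ^ 117 * V ^ 8) +
  C (-146681435327336 : ℤ) * (X ^ 130 * V ^ 9) + C (-351263437231252 : ℤ) * (X ^ 143 * V ^ 10) +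
  C (-582452128062025 : ℤ) * (X ^ 156 * V ^ 11) + C (-605750213184506 : ℤ) * (X ^ 169 * V ^ 12) +
  C (-302875106592253 : ℤ) * (X ^ 182 * V ^ 13)

lemma d13e_eq (hK : K13) : S13 ℤ = d13e_L + d13e_T d13e_V := by
  have h := d13e_Z hK
  rw [d13e_gs, d13e_A, d13e_n] at h
  have hV := d13e_V_mul
  unfold d13e_L d13e_T
  simp only [map_neg, map_ofNat]
  linear_combination h - (746 * X ^ 13 + 196885 * X ^ 26 * d13e_V ^ 1 + 21099988 * X ^ 39 * d13e_V ^ 2 +
    778915592 * X ^ 52 * d13e_V ^ 3 + 15274994020 * X ^ 65 * d13e_V ^ 4 +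
    189124030238 * X ^ 78 * d13e_V ^ 5 + 1610126946220 * X ^ 91 * d13e_V ^ 6 +
    9858921494006 * X ^ 104 * d13e_V ^ 7 + 44326807379140 * X ^ 117 * d13e_V ^ 8 +
    146681435327336 * X ^ 130 * d13e_V ^ 9 + 351263437231252 * X ^ 143 * d13e_V ^ 10 +
    582452128062025 * X ^ 156 * d13e_V ^ 11 + 605750213184506 * X ^ 169 * d13e_V ^ 12 +
    302875106592253 * X ^ 182 * d13e_V ^ 13) * hV

lemma d13e_PL (N : ℕ) : d13e_P N d13e_L := by
  unfold d13e_L
  exact d13e_add (d13e_add (d13e_add (d13e_add (d13e_add (d13e_add (d13e_add (d13e_add (d13e_add (d13e_add (d13e_add (d13e_add (d13e_add (d13e_one _)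
    (d13e_X (d13e_one N) 26 1 1 (by norm_num) (by norm_num) (by omega)))
    (d13e_X (d13e_one N) 325 1 2 (by norm_num) (by norm_num) (by omega)))
    (d13e_X (d13e_one N) 2548 1 3 (by norm_num) (by norm_num) (by omega)))
    (d13e_X (d13e_one N) 13832 1 4 (by norm_num) (by norm_num) (by omega)))
    (d13e_X (d13e_one N) 54340 1 5 (by norm_num) (by norm_num) (by omega)))
    (d13e_X (d13e_one N) 157118 1 6 (by norm_num) (by norm_num) (by omega)))
    (d13e_X (d13e_one N) 333580 1 7 (by norm_num) (by norm_num) (by omega)))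
    (d13e_X (d13e_one N) 509366 1 8 (by norm_num) (by norm_num) (by omega)))
    (d13e_X (d13e_one N) 534820 1 9 (by norm_num) (by norm_num) (by omega)))
    (d13e_X (d13e_one N) 354536 1 10 (by norm_num) (by norm_num) (by omega)))
    (d13e_X (d13e_one N) 124852 1 11 (by norm_num) (by norm_num) (by omega)))
    (d13e_X (d13e_one N) 15145 1 12 (by norm_num) (by norm_num) (by omega)))
    (d13e_X (d13e_one N) 13 1 14 (by norm_num) (by norm_num) (by omega))

lemma d13e_PT {N : ℕ} {V : PowerSeries ℤ} (hV : d13e_P N V) : d13e_P (N + 1) (d13e_T V) := by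
  unfold d13e_T
  exact d13e_add (d13e_add (d13e_add (d13e_add (d13e_add (d13e_add (d13e_add (d13e_add (d13e_add (d13e_add (d13e_add (d13e_add (d13e_X (d13e_pow hV 1) (-196885) 2 26 (by norm_num) (by norm_num) (by omega))
    (d13e_X (d13e_pow hV 2) (-21099988) 3 39 (by norm_num) (by norm_num) (by omega)))
    (d13e_X (d13e_pow hV 3) (-778915592) 4 52 (by norm_num) (by norm_num) (by omega)))
    (d13e_X (d13e_pow hV 4) (-15274994020) 5 65 (by norm_num) (by norm_num) (by omega)))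
    (d13e_X (d13e_pow hV 5) (-189124030238) 6 78 (by norm_num) (by norm_num) (by omega)))
    (d13e_X (d13e_pow hV 6) (-1610126946220) 7 91 (by norm_num) (by norm_num) (by omega)))
    (d13e_X (d13e_pow hV 7) (-9858921494006) 8 104 (by norm_num) (by norm_num) (by omega)))
    (d13e_X (d13e_pow hV 8) (-44326807379140) 9 117 (by norm_num) (by norm_num) (by omega)))
    (d13e_X (d13e_pow hV 9) (-146681435327336) 10 130 (by norm_num) (by norm_num) (by omega)))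
    (d13e_X (d13e_pow hV 10) (-351263437231252) 11 143 (by norm_num) (by norm_num) (by omega)))
    (d13e_X (d13e_pow hV 11) (-582452128062025) 12 156 (by norm_num) (by norm_num) (by omega)))
    (d13e_X (d13e_pow hV 12) (-605750213184506) 13 169 (by norm_num) (by norm_num) (by omega)))
    (d13e_X (d13e_pow hV 13) (-302875106592253) 13 182 (by norm_num) (by norm_num) (by omega))

lemma d13e_PS (hK : K13) (N : ℕ) : d13e_P N (S13 ℤ) := by
  induction N with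
  | zero => intro n hn; omega
  | succ N ih =>
    rw [d13e_eq hK]
    exact d13e_add (d13e_PL _) (d13e_PT (d13e_PV ih))

/-- Growth of `S`: `v(S_n) ≥ n/14` (and `≥ 1` for `n ≥ 1`). -/
theorem S13_dvd (hK : K13) (n : ℕ) :
    (13 : ℤ) ^ ((n + 13) / 14) ∣ PowerSeries.coeff n (S13 ℤ) :=
  d13e_PS hK (n + 1) n (Nat.lt_succ_self n)

/-! ### the series `U` and `V` -/

/-- `1/e4(g)`. -/
def d13e_I4 : PowerSeries ℤ := invOfUnit (e4x (gs13 ℤ)) 1

/-- `1/e6(g)`. -/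
def d13e_I6 : PowerSeries ℤ := invOfUnit (e6x (gs13 ℤ)) 1

lemma d13e_c4 : PowerSeries.constantCoeff (e4x (gs13 ℤ)) = 1 := by
  rw [map_e4x, d13e_gs]
  simp [e4x]

lemma d13e_c6 : PowerSeries.constantCoeff (e6x (gs13 ℤ)) = 1 := by
  rw [map_e6x, d13e_gs]
  simp [e6x]

lemma d13e_I4_mul : e4x (gs13 ℤ) * d13e_I4 = 1 :=
  PowerSeries.mul_invOfUnit _ _ (by rw [d13e_c4]; simp)

lemma d13e_I6_mul : e6x (gs13 ℤ) * d13e_I6 = 1 :=
  PowerSeries.mul_invOfUnit _ _ (by rw [d13e_c6]; simp)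

lemma d13e_P4 (hK : K13) (N : ℕ) : d13e_P N d13e_I4 := by
  have hV : d13e_P N d13e_V := d13e_PV (d13e_PS hK _)
  refine d13e_inv ?_ d13e_c4 d13e_I4_mul
  have h1 : e4x (gs13 ℤ) = 1 + C (247 : ℤ) * (X ^ 13 * d13e_V ^ 1) +
      C (3380 : ℤ) * (X ^ 26 * d13e_V ^ 2) + C (15379 : ℤ) * (X ^ 39 * d13e_V ^ 3) +
      C (28561 : ℤ) * (X ^ 52 * d13e_V ^ 4) := by
    rw [d13e_gs]
    unfold e4x
    simp only [map_ofNat]
    ring
  rw [h1]
  exact d13e_add (d13e_add (d13e_add (d13e_add (d13e_one _)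
    (d13e_X (d13e_pow hV 1) 247 1 13 (by norm_num) (by norm_num) (by omega)))
    (d13e_X (d13e_pow hV 2) 3380 2 26 (by norm_num) (by norm_num) (by omega)))
    (d13e_X (d13e_pow hV 3) 15379 3 39 (by norm_num) (by norm_num) (by omega)))
    (d13e_X (d13e_pow hV 4) 28561 4 52 (by norm_num) (by norm_num) (by omega))

lemma d13e_P6 (hK : K13) (N : ℕ) : d13e_P N d13e_I6 := by
  have hV : d13e_P N d13e_V := d13e_PV (d13e_PS hK _)
  refine d13e_inv ?_ d13e_c6 d13e_I6_mul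
  have h1 : e6x (gs13 ℤ) = 1 + C (-494 : ℤ) * (X ^ 13 * d13e_V ^ 1) +
      C (-20618 : ℤ) * (X ^ 26 * d13e_V ^ 2) + C (-237276 : ℤ) * (X ^ 39 * d13e_V ^ 3) +
      C (-1313806 : ℤ) * (X ^ 52 * d13e_V ^ 4) + C (-3712930 : ℤ) * (X ^ 65 * d13e_V ^ 5) +
      C (-4826809 : ℤ) * (X ^ 78 * d13e_V ^ 6) := by
    rw [d13e_gs]
    unfold e6x
    simp only [map_neg, map_ofNat]
    ring
  rw [h1]
  exact d13e_add (d13e_add (d13e_add (d13e_add (d13e_add (d13e_add (d13e_one _)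
    (d13e_X (d13e_pow hV 1) (-494) 1 13 (by norm_num) (by norm_num) (by omega)))
    (d13e_X (d13e_pow hV 2) (-20618) 2 26 (by norm_num) (by norm_num) (by omega)))
    (d13e_X (d13e_pow hV 3) (-237276) 3 39 (by norm_num) (by norm_num) (by omega)))
    (d13e_X (d13e_pow hV 4) (-1313806) 4 52 (by norm_num) (by norm_num) (by omega)))
    (d13e_X (d13e_pow hV 5) (-3712930) 5 65 (by norm_num) (by norm_num) (by omega)))
    (d13e_X (d13e_pow hV 6) (-4826809) 6 78 (by norm_num) (by norm_num) (by omega))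

/-- multiplication by `c X^i`, `i ≤ b`, lowers the exponent by `b` -/
lemma d13e_low {F : PowerSeries ℤ} (hF : ∀ N, d13e_P N F) (c : ℤ) (i b n : ℕ) (hb : b ≤ 13)
    (hi : i ≤ b) :
    (13 : ℤ) ^ ((n + (13 - b)) / 14) ∣ PowerSeries.coeff n (C c * (X ^ i * F)) := by
  rw [PowerSeries.coeff_C_mul, PowerSeries.coeff_X_pow_mul']
  split_ifs with h
  · exact ((pow_dvd_pow _ (by omega)).trans (hF (n + 1) (n - i) (by omega))).mul_left c
  · rw [mul_zero]
    exact dvd_zero _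

/-- Growth of `U`: `v(U_n) ≥ (n-4)/14`. -/
theorem U13_dvd (hK : K13) (n : ℕ) :
    (13 : ℤ) ^ ((n + 9) / 14) ∣ PowerSeries.coeff n (U13 ℤ) := by
  have hI := d13e_P4 hK
  have hU : U13 ℤ = C (1 : ℤ) * (X ^ 0 * d13e_I4) + C (7 : ℤ) * (X ^ 1 * d13e_I4) +
      C (20 : ℤ) * (X ^ 2 * d13e_I4) + C (19 : ℤ) * (X ^ 3 * d13e_I4) +
      C (1 : ℤ) * (X ^ 4 * d13e_I4) := by
    have h1 : U13 ℤ = n4x (X : PowerSeries ℤ) * d13e_I4 := rfl
    rw [h1]
    unfold n4x
    simp only [map_one, map_ofNat]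
    ring
  have hl := fun (c : ℤ) (i : ℕ) (hi : i ≤ 4) => d13e_low hI c i 4 n (by norm_num) hi
  rw [hU]
  simp only [map_add]
  exact dvd_add (dvd_add (dvd_add (dvd_add (hl 1 0 (by norm_num)) (hl 7 1 (by norm_num)))
    (hl 20 2 (by norm_num))) (hl 19 3 (by norm_num))) (hl 1 4 (by norm_num))

/-- Growth of `V`: `v(V_n) ≥ (n-6)/14`. -/
theorem V13_dvd (hK : K13) (n : ℕ) :
    (13 : ℤ) ^ ((n + 7) / 14) ∣ PowerSeries.coeff n (V13 ℤ) := by
  have hI := d13e_P6 hK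
  have hU : V13 ℤ = C (1 : ℤ) * (X ^ 0 * d13e_I6) + C (10 : ℤ) * (X ^ 1 * d13e_I6) +
      C (46 : ℤ) * (X ^ 2 * d13e_I6) + C (108 : ℤ) * (X ^ 3 * d13e_I6) +
      C (122 : ℤ) * (X ^ 4 * d13e_I6) + C (38 : ℤ) * (X ^ 5 * d13e_I6) +
      C (-1 : ℤ) * (X ^ 6 * d13e_I6) := by
    have h1 : V13 ℤ = n6x (X : PowerSeries ℤ) * d13e_I6 := rfl
    rw [h1]
    unfold n6x
    simp only [map_neg, map_one, map_ofNat]
    ring
  have hl := fun (c : ℤ) (i : ℕ) (hi : i ≤ 6) => d13e_low hI c i 6 n (by norm_num) hi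
  rw [hU]
  simp only [map_add]
  exact dvd_add (dvd_add (dvd_add (dvd_add (dvd_add (dvd_add (hl 1 0 (by norm_num))
    (hl 10 1 (by norm_num))) (hl 46 2 (by norm_num))) (hl 108 3 (by norm_num)))
    (hl 122 4 (by norm_num))) (hl 38 5 (by norm_num))) (hl (-1) 6 (by norm_num))

/-- `U = n4(h)` modulo `13`. -/
theorem U13_sub_dvd (hK : K13) (n : ℕ) :
    (13 : ℤ) ∣ PowerSeries.coeff n (U13 ℤ - n4x (X : PowerSeries ℤ)) := by
  have _ := hK
  have h1 : U13 ℤ = n4x (X : PowerSeries ℤ) * d13e_I4 := rfl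
  have h2 := d13e_I4_mul
  have h3 : U13 ℤ - n4x (X : PowerSeries ℤ) = C (13 : ℤ) * (-(n4x (X : PowerSeries ℤ) *
      d13e_I4 * (19 * gs13 ℤ + 260 * gs13 ℤ ^ 2 + 1183 * gs13 ℤ ^ 3 + 2197 * gs13 ℤ ^ 4))) := by
    rw [h1]
    unfold e4x at h2
    simp only [map_ofNat]
    linear_combination (n4x (X : PowerSeries ℤ)) * h2
  rw [h3, PowerSeries.coeff_C_mul]
  exact dvd_mul_right _ _

/-- `V = n6(h)` modulo `13`. -/
theorem V13_sub_dvd (hK : K13) (n : ℕ) :
    (13 : ℤ) ∣ PowerSeries.coeff n (V13 ℤ - n6x (X : PowerSeries ℤ)) := by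
  have _ := hK
  have h1 : V13 ℤ = n6x (X : PowerSeries ℤ) * d13e_I6 := rfl
  have h2 := d13e_I6_mul
  have h3 : V13 ℤ - n6x (X : PowerSeries ℤ) = C (13 : ℤ) * (n6x (X : PowerSeries ℤ) *
      d13e_I6 * (38 * gs13 ℤ + 1586 * gs13 ℤ ^ 2 + 18252 * gs13 ℤ ^ 3 + 101062 * gs13 ℤ ^ 4 +
        285610 * gs13 ℤ ^ 5 + 371293 * gs13 ℤ ^ 6)) := by
    rw [h1]
    unfold e6x at h2
    simp only [map_ofNat]
    linear_combination (n6x (X : PowerSeries ℤ)) * h2
  rw [h3, PowerSeries.coeff_C_mul]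
  exact dvd_mul_right _ _

end D13

end GH
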