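import Pool.Agent.GH.D13.Fix13
import Pool.Agent.GH.FamA

/-! Norm bounds for the matrices of `U_13`. -/

open PowerSeries Filter Topology

noncomputable section

namespace GH

namespace D13

theorem norm_thirteen_C13 : ‖(13 : C13)‖ = 13⁻¹ := by
  have h1 : (13 : C13) = algebraMap ℚ_[13] C13 ((13 : ℕ) : ℚ_[13]) := by
    rw [map_natCast]
    norm_num
  rw [h1, norm_algebraMap', Padic.norm_p]
  norm_num

theorem d13i_natCast (n : ℕ) : ‖(n : C13)‖ = ‖(n : ℚ_[13])‖ := by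
  rw [← map_natCast (algebraMap ℚ_[13] C13) n, norm_algebraMap']

theorem d13i_fac_val (n : ℕ) :
    ‖((n.factorial : ℕ) : C13)‖⁻¹ = 13 ^ (padicValNat 13 n.factorial) := by
  have h0 : ((n.factorial : ℕ) : ℚ_[13]) ≠ 0 := by
    exact_mod_cast Nat.factorial_ne_zero n
  rw [d13i_natCast, Padic.norm_eq_zpow_neg_valuation h0, Padic.valuation_natCast]
  rw [← zpow_neg, neg_neg, zpow_natCast]
  norm_num

theorem d13i_fac_le {n m : ℕ} (h2 : 12 * padicValNat 13 n.factorial ≤ m) :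
    ‖((n.factorial : ℕ) : C13)‖⁻¹ ≤ (5 / 4 : ℝ) ^ m := by
  rw [d13i_fac_val]
  calc (13 : ℝ) ^ (padicValNat 13 n.factorial)
      ≤ ((5 / 4 : ℝ) ^ 12) ^ (padicValNat 13 n.factorial) :=
        pow_le_pow_left₀ (by norm_num) (by norm_num) _
    _ = (5 / 4 : ℝ) ^ (12 * padicValNat 13 n.factorial) := by rw [pow_mul]
    _ ≤ (5 / 4 : ℝ) ^ m := pow_le_pow_right₀ (by norm_num) h2

theorem d13i_fac (n : ℕ) : ‖((n.factorial : ℕ) : C13)‖⁻¹ ≤ (5 / 4 : ℝ) ^ n := by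
  have h1 := sub_one_mul_padicValNat_factorial (p := 13) n
  exact d13i_fac_le (by omega)

theorem d13i_fac' {n : ℕ} (hn : n ≠ 0) :
    ‖((n.factorial : ℕ) : C13)‖⁻¹ ≤ (5 / 4 : ℝ) ^ (n - 1) := by
  have h1 := sub_one_mul_padicValNat_factorial_lt_of_ne_zero 13 hn
  exact d13i_fac_le (by omega)

theorem d13i_int (m : ℤ) : ‖(m : C13)‖ ≤ 1 := IsUltrametricDist.norm_intCast_le_one C13 m

theorem d13i_nat (m : ℕ) : ‖(m : C13)‖ ≤ 1 := by
  have h := d13i_int (m : ℤ)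
  rwa [Int.cast_natCast] at h

/-- The norm of a multiple of `13^k`. -/
theorem d13i_dvd {k : ℕ} {m : ℤ} (h : (13 : ℤ) ^ k ∣ m) : ‖(m : C13)‖ ≤ (13 : ℝ)⁻¹ ^ k := by
  obtain ⟨a, rfl⟩ := h
  push_cast
  rw [norm_mul, norm_pow, norm_thirteen_C13]
  exact mul_le_of_le_one_right (by positivity) (d13i_int a)

theorem d13i_prod {s : C13} (n : ℕ) (h : ∀ l : ℕ, ‖s - l‖ ≤ 1) :
    ‖∏ i ∈ Finset.range n, (s - i)‖ ≤ 1 := by
  rw [norm_prod]
  calc ∏ i ∈ Finset.range n, ‖s - i‖ ≤ ∏ _i ∈ Finset.range n, (1 : ℝ) :=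
        Finset.prod_le_prod (fun i _ => norm_nonneg _) (fun i _ => h i)
    _ = 1 := by rw [Finset.prod_const_one]

/-- The Gauss norm of radius `r` is at most `c`. -/
def d13i_Bd (r c : ℝ) (F : PowerSeries C13) : Prop :=
  ∀ m, ‖PowerSeries.coeff m F‖ * r ^ m ≤ c

theorem d13i_Bd_iff {r c : ℝ} (hr : 0 < r) {F : PowerSeries C13} :
    d13i_Bd r c F ↔ ∀ m, ‖PowerSeries.coeff m F‖ ≤ c / r ^ m := by
  unfold d13i_Bd
  refine forall_congr' fun m => ?_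
  rw [le_div_iff₀ (by positivity)]

theorem d13i_Bd_nonneg {r c : ℝ} {F : PowerSeries C13} (h : d13i_Bd r c F) : 0 ≤ c := by
  have h1 := h 0
  rw [pow_zero, mul_one] at h1
  exact (norm_nonneg _).trans h1

theorem d13i_Bd_mul {r c c' : ℝ} (hr : 0 < r) {F G : PowerSeries C13} (hF : d13i_Bd r c F)
    (hG : d13i_Bd r c' G) : d13i_Bd r (c * c') (F * G) := by
  have hc := d13i_Bd_nonneg hF
  have hc' := d13i_Bd_nonneg hG
  rw [d13i_Bd_iff hr]
  intro n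
  rw [PowerSeries.coeff_mul]
  refine IsUltrametricDist.norm_sum_le_of_forall_le_of_nonneg (by positivity) fun ij hij => ?_
  rw [Finset.HasAntidiagonal.mem_antidiagonal] at hij
  rw [norm_mul, ← hij, le_div_iff₀ (by positivity), pow_add]
  calc ‖PowerSeries.coeff ij.1 F‖ * ‖PowerSeries.coeff ij.2 G‖ * (r ^ ij.1 * r ^ ij.2)
      = (‖PowerSeries.coeff ij.1 F‖ * r ^ ij.1) * (‖PowerSeries.coeff ij.2 G‖ * r ^ ij.2) := by
        ring
    _ ≤ c * c' := mul_le_mul (hF _) (hG _) (by positivity) hc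

theorem d13i_Bd_one {r c : ℝ} (hc : 1 ≤ c) : d13i_Bd r c 1 := by
  intro n
  rw [PowerSeries.coeff_one]
  split_ifs with h
  · rw [h, norm_one, pow_zero, mul_one]
    exact hc
  · rw [norm_zero, zero_mul]
    linarith

theorem d13i_Bd_pow {r c : ℝ} (hr : 0 < r) {F : PowerSeries C13} (hF : d13i_Bd r c F) (m : ℕ) :
    d13i_Bd r (c ^ m) (F ^ m) := by
  induction m with
  | zero =>
    rw [pow_zero, pow_zero]
    exact d13i_Bd_one le_rfl
  | succ m ih =>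
    rw [pow_succ, pow_succ]
    exact d13i_Bd_mul hr ih hF

/-- The coefficients of `S`, `U` and `V`. -/
theorem d13i_coeff_S (n : ℕ) :
    PowerSeries.coeff n (S13 C13) = ((PowerSeries.coeff n (S13 ℤ) : ℤ) : C13) := by
  rw [← map_S13 ℤ (Int.castRingHom C13), PowerSeries.coeff_map]
  rfl

theorem d13i_coeff_U (n : ℕ) :
    PowerSeries.coeff n (U13 C13) = ((PowerSeries.coeff n (U13 ℤ) : ℤ) : C13) := by
  rw [← map_U13 ℤ (Int.castRingHom C13), PowerSeries.coeff_map]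
  rfl

theorem d13i_coeff_V (n : ℕ) :
    PowerSeries.coeff n (V13 C13) = ((PowerSeries.coeff n (V13 ℤ) : ℤ) : C13) := by
  rw [← map_V13 ℤ (Int.castRingHom C13), PowerSeries.coeff_map]
  rfl

/-- `13^(-q) r^n ≤ r^d (r^14/13)^q` for `n ≤ 14 q + d`. -/
theorem d13i_pow {n q d : ℕ} (h : n ≤ 14 * q + d) :
    (13 : ℝ)⁻¹ ^ q * (7 / 6 : ℝ) ^ n ≤ (7 / 6 : ℝ) ^ d * ((7 / 6 : ℝ) ^ 14 / 13) ^ q := by
  calc (13 : ℝ)⁻¹ ^ q * (7 / 6 : ℝ) ^ n ≤ (13 : ℝ)⁻¹ ^ q * (7 / 6 : ℝ) ^ (14 * q + d) :=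
        mul_le_mul_of_nonneg_left (pow_le_pow_right₀ (by norm_num) h) (by positivity)
    _ = (7 / 6 : ℝ) ^ d * ((7 / 6 : ℝ) ^ 14 / 13) ^ q := by
        rw [pow_add, pow_mul, div_pow ((7 / 6 : ℝ) ^ 14) 13 q, inv_pow]
        ring

/-- `|S - 1| ≤ r^14/13` on the disc of radius `r = 7/6`. -/
theorem norm_S13_le (hK : K13) {n : ℕ} (hn : 1 ≤ n) :
    ‖PowerSeries.coeff n (S13 C13)‖ * (7 / 6 : ℝ) ^ n ≤ (7 / 6 : ℝ) ^ 14 / 13 := by
  rw [d13i_coeff_S]
  have h1 := d13i_dvd (S13_dvd hK n)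
  have h2 : n ≤ 14 * ((n + 13) / 14) + 0 := by omega
  have h3 := d13i_pow h2
  rw [pow_zero, one_mul] at h3
  have h4 : ((7 / 6 : ℝ) ^ 14 / 13) ^ ((n + 13) / 14) ≤ (7 / 6 : ℝ) ^ 14 / 13 :=
    pow_le_of_le_one (by positivity) (by norm_num) (by omega)
  exact (mul_le_mul_of_nonneg_right h1 (by positivity)).trans (h3.trans h4)

/-- `|S_n| ≤ 1/13`. -/
theorem d13i_S_le (hK : K13) {n : ℕ} (hn : 1 ≤ n) :
    ‖PowerSeries.coeff n (S13 C13)‖ ≤ 13⁻¹ := by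
  rw [d13i_coeff_S]
  have h1 := d13i_dvd (S13_dvd hK n)
  refine h1.trans ?_
  exact pow_le_of_le_one (by norm_num) (by norm_num) (by omega)

theorem d13i_Bd_Sm_of {r c : ℝ} (hc : 0 ≤ c)
    (h : ∀ n, 1 ≤ n → ‖PowerSeries.coeff n (S13 C13)‖ * r ^ n ≤ c) :
    d13i_Bd r c (S13 C13 - 1) := by
  intro n
  rcases Nat.eq_zero_or_pos n with h0 | h0
  · rw [h0, map_sub, PowerSeries.coeff_zero_eq_constantCoeff_apply, constantCoeff_S13,
      PowerSeries.coeff_zero_eq_constantCoeff_apply, map_one, sub_self, norm_zero, zero_mul]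
    exact hc
  · rw [map_sub, PowerSeries.coeff_one, if_neg (by omega), sub_zero]
    exact h n h0

theorem d13i_Bd_Sm (hK : K13) : d13i_Bd (7 / 6) ((7 / 6 : ℝ) ^ 14 / 13) (S13 C13 - 1) :=
  d13i_Bd_Sm_of (by positivity) fun _ hn => norm_S13_le hK hn

theorem d13i_Bd_Sm1 (hK : K13) : d13i_Bd 1 13⁻¹ (S13 C13 - 1) :=
  d13i_Bd_Sm_of (by norm_num) fun n hn => by
    rw [one_pow, mul_one]
    exact d13i_S_le hK hn

theorem d13i_Bd_U (hK : K13) : d13i_Bd (7 / 6) ((7 / 6 : ℝ) ^ 4) (U13 C13) := by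
  intro n
  rw [d13i_coeff_U]
  have h1 := d13i_dvd (U13_dvd hK n)
  have h2 : n ≤ 14 * ((n + 9) / 14) + 4 := by omega
  have h4 : ((7 / 6 : ℝ) ^ 14 / 13) ^ ((n + 9) / 14) ≤ 1 :=
    pow_le_one₀ (by positivity) (by norm_num)
  refine (mul_le_mul_of_nonneg_right h1 (by positivity)).trans ((d13i_pow h2).trans ?_)
  exact mul_le_of_le_one_right (by positivity) h4

theorem d13i_Bd_V (hK : K13) : d13i_Bd (7 / 6) ((7 / 6 : ℝ) ^ 6) (V13 C13) := by
  intro n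
  rw [d13i_coeff_V]
  have h1 := d13i_dvd (V13_dvd hK n)
  have h2 : n ≤ 14 * ((n + 7) / 14) + 6 := by omega
  have h4 : ((7 / 6 : ℝ) ^ 14 / 13) ^ ((n + 7) / 14) ≤ 1 :=
    pow_le_one₀ (by positivity) (by norm_num)
  refine (mul_le_mul_of_nonneg_right h1 (by positivity)).trans ((d13i_pow h2).trans ?_)
  exact mul_le_of_le_one_right (by positivity) h4

theorem d13i_Bd_U1 : d13i_Bd 1 1 (U13 C13) := by
  intro n
  rw [d13i_coeff_U, one_pow, mul_one]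
  exact d13i_int _

theorem d13i_Bd_V1 : d13i_Bd 1 1 (V13 C13) := by
  intro n
  rw [d13i_coeff_V, one_pow, mul_one]
  exact d13i_int _

theorem d13i_constS : PowerSeries.constantCoeff (S13 C13 - 1) = 0 := by
  rw [map_sub, constantCoeff_S13, map_one, sub_self]

/-- The powers `S^s`. -/
theorem d13i_Bd_S {r c : ℝ} (hr : 0 < r) (hQ : d13i_Bd r c (S13 C13 - 1)) (hc : 5 / 4 * c ≤ 1)
    {s : C13} (h : ∀ l : ℕ, ‖s - l‖ ≤ 1) : d13i_Bd r 1 (ppow (S13 C13) s) := by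
  have hc0 := d13i_Bd_nonneg hQ
  rw [d13i_Bd_iff hr]
  intro m
  unfold ppow
  rw [fa_coeff_subst d13i_constS]
  refine IsUltrametricDist.norm_sum_le_of_forall_le_of_nonneg (by positivity) fun n _ => ?_
  rw [le_div_iff₀ (by positivity), norm_mul, binS, coeff_mk, norm_div, div_eq_mul_inv]
  have h1 := d13i_Bd_pow hr hQ n m
  calc ‖∏ i ∈ Finset.range n, (s - i)‖ * ‖((n.factorial : ℕ) : C13)‖⁻¹ *
        ‖PowerSeries.coeff m ((S13 C13 - 1) ^ n)‖ * r ^ m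
      = (‖∏ i ∈ Finset.range n, (s - i)‖ * ‖((n.factorial : ℕ) : C13)‖⁻¹) *
        (‖PowerSeries.coeff m ((S13 C13 - 1) ^ n)‖ * r ^ m) := by ring
    _ ≤ (1 * (5 / 4 : ℝ) ^ n) * c ^ n := by
        refine mul_le_mul ?_ h1 (by positivity) (by positivity)
        exact mul_le_mul (d13i_prod n h) (d13i_fac n) (by positivity) (by norm_num)
    _ = (5 / 4 * c) ^ n := by rw [one_mul, mul_pow]
    _ ≤ 1 := pow_le_one₀ (by positivity) hc

theorem d13i_Bd_S76 (hK : K13) {s : C13} (h : ∀ l : ℕ, ‖s - l‖ ≤ 1) :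
    d13i_Bd (7 / 6) 1 (ppow (S13 C13) s) :=
  d13i_Bd_S (by norm_num) (d13i_Bd_Sm hK) (by norm_num) h

theorem d13i_Bd_S1 (hK : K13) {s : C13} (h : ∀ l : ℕ, ‖s - l‖ ≤ 1) :
    d13i_Bd 1 1 (ppow (S13 C13) s) :=
  d13i_Bd_S (by norm_num) (d13i_Bd_Sm1 hK) (by norm_num) h

theorem d13i_sub {x : C13} (hx : ‖x‖ ≤ 1) (l : ℕ) : ‖x - l‖ ≤ 1 := by
  rw [sub_eq_add_neg]
  refine (IsUltrametricDist.norm_add_le_max _ _).trans (max_le hx ?_)
  rw [norm_neg]
  exact d13i_nat l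

/-- `|S^x| ≤ 1` on the disc of radius `7/6`. -/
theorem norm_ppow_S13_le (hK : K13) {x : C13} (hx : ‖x‖ ≤ 1) (n : ℕ) :
    ‖PowerSeries.coeff n (ppow (S13 C13) x)‖ * (7 / 6 : ℝ) ^ n ≤ 1 :=
  d13i_Bd_S76 hK (d13i_sub hx) n

theorem d13i_exp {x : C13} (hx : ‖x‖ ≤ 1) (i c : ℕ) : ‖(i : C13) - x - sh13 c‖ ≤ 1 := by
  have h1 : (i : C13) - x - sh13 c = (((i : ℤ) - sh13 c : ℤ) : C13) + (-x) := by
    push_cast
    ring
  rw [h1]
  refine (IsUltrametricDist.norm_add_le_max _ _).trans (max_le (d13i_int _) ?_)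
  rw [norm_neg]
  exact hx

theorem d13i_uv {c : ℕ} (hc : c ≤ 5) : 4 * eu13 c + 6 * ev13 c ≤ 14 := by
  interval_cases c <;> decide

theorem norm_Mat13_le (hK : K13) {c : ℕ} (hc : c ≤ 5) {x : C13} (hx : ‖x‖ ≤ 1) {i j : ℕ}
    (h : j ≤ 13 * i) : ‖Mat13 c x i j‖ * (7 / 6 : ℝ) ^ (13 * i - j) ≤ (7 / 6 : ℝ) ^ 14 := by
  unfold Mat13
  rw [if_pos h]
  have h1 := d13i_Bd_mul (by norm_num) (d13i_Bd_mul (by norm_num)
    (d13i_Bd_S76 hK (d13i_sub (d13i_exp hx i c)))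
    (d13i_Bd_pow (by norm_num) (d13i_Bd_U hK) (eu13 c)))
    (d13i_Bd_pow (by norm_num) (d13i_Bd_V hK) (ev13 c)) (13 * i - j)
  refine h1.trans ?_
  rw [one_mul, ← pow_mul, ← pow_mul, ← pow_add]
  exact pow_le_pow_right₀ (by norm_num) (d13i_uv hc)

theorem norm_Mat13_le_one (hK : K13) {c : ℕ} (hc : c ≤ 5) {x : C13} (hx : ‖x‖ ≤ 1)
    (i j : ℕ) : ‖Mat13 c x i j‖ ≤ 1 := by
  have _ := hc
  unfold Mat13
  split_ifs with h
  · have h1 := d13i_Bd_mul (by norm_num) (d13i_Bd_mul (by norm_num)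
      (d13i_Bd_S1 hK (d13i_sub (d13i_exp hx i c)))
      (d13i_Bd_pow (by norm_num) d13i_Bd_U1 (eu13 c)))
      (d13i_Bd_pow (by norm_num) d13i_Bd_V1 (ev13 c)) (13 * i - j)
    simpa using h1
  · rw [norm_zero]
    norm_num

/-! ### The first row modulo `13` -/

/-- `S^s = 1` modulo `13`. -/
theorem d13i_S_cong (hK : K13) {s : C13} (h : ∀ l : ℕ, ‖s - l‖ ≤ 1) :
    d13i_Bd 1 13⁻¹ (ppow (S13 C13) s - 1) := by
  intro m
  rw [one_pow, mul_one]
  have e0 : ppow (S13 C13) s - 1 = (binS s - 1).subst (S13 C13 - 1) := by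
    unfold ppow
    have hs : HasSubst (S13 C13 - 1) := HasSubst.of_constantCoeff_zero' d13i_constS
    rw [← coe_substAlgHom hs, map_sub, map_one]
  rw [e0, fa_coeff_subst d13i_constS]
  refine IsUltrametricDist.norm_sum_le_of_forall_le_of_nonneg (by norm_num) fun n _ => ?_
  rcases Nat.eq_zero_or_pos n with hn | hn
  · have h1 : PowerSeries.coeff n (binS s - 1 : PowerSeries C13) = 0 := by
      rw [hn, map_sub, binS, coeff_mk]
      simp
    rw [h1, zero_mul, norm_zero]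
    norm_num
  · have h1 : PowerSeries.coeff n (binS s - 1 : PowerSeries C13) =
        (∏ i ∈ Finset.range n, (s - i)) / ((n.factorial : ℕ) : C13) := by
      rw [map_sub, binS, coeff_mk, PowerSeries.coeff_one, if_neg (by omega), sub_zero]
    rw [h1, norm_mul, norm_div, div_eq_mul_inv]
    have h2 := d13i_Bd_pow (by norm_num) (d13i_Bd_Sm1 hK) n m
    rw [one_pow, mul_one] at h2
    obtain ⟨l, rfl⟩ : ∃ l, n = l + 1 := ⟨n - 1, by omega⟩
    have h3 := d13i_fac' (n := l + 1) (by omega)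
    rw [Nat.add_sub_cancel] at h3
    calc ‖∏ i ∈ Finset.range (l + 1), (s - i)‖ * ‖(((l + 1).factorial : ℕ) : C13)‖⁻¹ *
          ‖PowerSeries.coeff m ((S13 C13 - 1) ^ (l + 1))‖
        ≤ (1 * (5 / 4 : ℝ) ^ l) * 13⁻¹ ^ (l + 1) := by
          refine mul_le_mul ?_ h2 (by positivity) (by positivity)
          exact mul_le_mul (d13i_prod _ h) h3 (by positivity) (by norm_num)
      _ = (5 / 4 * 13⁻¹) ^ l * 13⁻¹ := by
          rw [one_mul, mul_pow, pow_succ]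
          ring
      _ ≤ 1 * 13⁻¹ := mul_le_mul_of_nonneg_right (pow_le_one₀ (by norm_num) (by norm_num))
          (by norm_num)
      _ = 13⁻¹ := one_mul _

theorem d13i_U_cong (hK : K13) : d13i_Bd 1 13⁻¹ (U13 C13 - n4x (X : PowerSeries C13)) := by
  intro m
  have e0 : U13 C13 - n4x (X : PowerSeries C13) =
      PowerSeries.map (Int.castRingHom C13) (U13 ℤ - n4x (X : PowerSeries ℤ)) := by
    rw [map_sub, map_U13, map_n4x, PowerSeries.map_X]
  rw [e0, PowerSeries.coeff_map, one_pow, mul_one]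
  have h0 : (13 : ℤ) ^ 1 ∣
      PowerSeries.coeff m (U13 ℤ - n4x (X : PowerSeries ℤ)) := by
    rw [pow_one]
    exact U13_sub_dvd hK m
  have h1 := d13i_dvd h0
  rw [pow_one] at h1
  exact h1

theorem d13i_V_cong (hK : K13) : d13i_Bd 1 13⁻¹ (V13 C13 - n6x (X : PowerSeries C13)) := by
  intro m
  have e0 : V13 C13 - n6x (X : PowerSeries C13) =
      PowerSeries.map (Int.castRingHom C13) (V13 ℤ - n6x (X : PowerSeries ℤ)) := by
    rw [map_sub, map_V13, map_n6x, PowerSeries.map_X]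
  rw [e0, PowerSeries.coeff_map, one_pow, mul_one]
  have h0 : (13 : ℤ) ^ 1 ∣
      PowerSeries.coeff m (V13 ℤ - n6x (X : PowerSeries ℤ)) := by
    rw [pow_one]
    exact V13_sub_dvd hK m
  have h1 := d13i_dvd h0
  rw [pow_one] at h1
  exact h1

theorem d13i_Bd_add {r c : ℝ} (hr : 0 < r) {F G : PowerSeries C13} (hF : d13i_Bd r c F)
    (hG : d13i_Bd r c G) : d13i_Bd r c (F + G) := by
  rw [d13i_Bd_iff hr] at *
  intro m
  rw [map_add]
  exact (IsUltrametricDist.norm_add_le_max _ _).trans (max_le (hF m) (hG m))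

/-- Congruences are preserved by products. -/
theorem d13i_mul_cong {F F' G G' : PowerSeries C13} (h1 : d13i_Bd 1 13⁻¹ (F - F'))
    (h2 : d13i_Bd 1 13⁻¹ (G - G')) (hG : d13i_Bd 1 1 G) (hF' : d13i_Bd 1 1 F') :
    d13i_Bd 1 13⁻¹ (F * G - F' * G') := by
  have e0 : F * G - F' * G' = (F - F') * G + F' * (G - G') := by ring
  have h3 := d13i_Bd_mul (by norm_num) h1 hG
  have h4 := d13i_Bd_mul (by norm_num) hF' h2
  rw [mul_one] at h3
  rw [one_mul] at h4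
  rw [e0]
  exact d13i_Bd_add (by norm_num) h3 h4

theorem d13i_Bd_n4 : d13i_Bd 1 1 (n4x (X : PowerSeries C13)) := by
  intro m
  have e0 : n4x (X : PowerSeries C13) =
      PowerSeries.map (Int.castRingHom C13) (n4x (X : PowerSeries ℤ)) := by
    rw [map_n4x, PowerSeries.map_X]
  rw [e0, PowerSeries.coeff_map, one_pow, mul_one]
  exact d13i_int _

/-- The matrix of the component `0` modulo `13`. -/
theorem d13i_M0 (hK : K13) {x : C13} (hx : ‖x‖ ≤ 1) (m : ℕ) :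
    ‖PowerSeries.coeff m (ppow (S13 C13) (((1 : ℕ) : C13) - x - sh13 0) * U13 C13 ^ eu13 0 *
      V13 C13 ^ ev13 0) -
      PowerSeries.coeff m (n4x (X : PowerSeries C13) ^ 2 * n6x (X : PowerSeries C13))‖ ≤
      13⁻¹ := by
  have e1 : eu13 0 = 2 := rfl
  have e2 : ev13 0 = 1 := rfl
  have hU := d13i_mul_cong (d13i_U_cong hK) (d13i_U_cong hK) d13i_Bd_U1 d13i_Bd_n4
  have hU1 := d13i_Bd_mul (by norm_num) d13i_Bd_U1 d13i_Bd_U1
  have hn1 := d13i_Bd_mul (by norm_num) d13i_Bd_n4 d13i_Bd_n4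
  rw [one_mul] at hU1 hn1
  have h1 := d13i_mul_cong (d13i_S_cong hK (d13i_sub (d13i_exp hx 1 0))) hU hU1
    (d13i_Bd_one le_rfl)
  rw [one_mul] at h1
  have h2 := d13i_mul_cong h1 (d13i_V_cong hK) d13i_Bd_V1 hn1 m
  rw [one_pow, mul_one] at h2
  rw [e1, e2, pow_one, pow_two, pow_two, ← map_sub]
  exact h2

/-- `n4² n6` as a polynomial. -/
theorem d13i_poly : n4x (X : PowerSeries C13) ^ 2 * n6x (X : PowerSeries C13) =
    1 + C (24 : C13) * X ^ 1 + C (275 : C13) * X ^ 2 + C (1960 : C13) * X ^ 3 +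
    C (9576 : C13) * X ^ 4 + C (33440 : C13) * X ^ 5 + C (84602 : C13) * X ^ 6 +
    C (153960 : C13) * X ^ 7 + C (195910 : C13) * X ^ 8 + C (164560 : C13) * X ^ 9 +
    C (81816 : C13) * X ^ 10 + C (19208 : C13) * X ^ 11 + C (1165 : C13) * X ^ 12 - X ^ 14 := by
  simp only [map_ofNat]
  unfold n4x n6x
  ring

theorem d13i_c12 : PowerSeries.coeff 12
    (n4x (X : PowerSeries C13) ^ 2 * n6x (X : PowerSeries C13)) = 1165 := by
  rw [d13i_poly]
  simp [PowerSeries.coeff_X_pow, PowerSeries.coeff_one]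

theorem d13i_c13 : PowerSeries.coeff 13
    (n4x (X : PowerSeries C13) ^ 2 * n6x (X : PowerSeries C13)) = 0 := by
  rw [d13i_poly]
  simp [PowerSeries.coeff_X_pow, PowerSeries.coeff_one]

/-- `M_11 = 8` modulo `13`: `Δ` is ordinary at `13`. -/
theorem norm_Mat13_one_one (hK : K13) {x : C13} (hx : ‖x‖ ≤ 1) :
    ‖Mat13 0 x 1 1 - 8‖ ≤ 13⁻¹ := by
  have h1 := d13i_M0 hK hx 12
  rw [d13i_c12] at h1
  have e0 : Mat13 0 x 1 1 = PowerSeries.coeff 12 (ppow (S13 C13) (((1 : ℕ) : C13) - x - sh13 0) *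
      U13 C13 ^ eu13 0 * V13 C13 ^ ev13 0) := by
    unfold Mat13
    rw [if_pos (by norm_num)]
  have h2 : ‖((1157 : ℤ) : C13)‖ ≤ (13 : ℝ)⁻¹ ^ 1 := d13i_dvd (by norm_num)
  rw [pow_one] at h2
  have e1 : Mat13 0 x 1 1 - 8 = (Mat13 0 x 1 1 - 1165) + ((1157 : ℤ) : C13) := by
    push_cast
    ring
  rw [e1]
  refine (IsUltrametricDist.norm_add_le_max _ _).trans (max_le ?_ h2)
  rw [e0]
  exact h1

theorem norm_Mat13_one_zero (hK : K13) {x : C13} (hx : ‖x‖ ≤ 1) :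
    ‖Mat13 0 x 1 0‖ ≤ 13⁻¹ := by
  have h1 := d13i_M0 hK hx 13
  rw [d13i_c13, sub_zero] at h1
  have e0 : Mat13 0 x 1 0 = PowerSeries.coeff 13 (ppow (S13 C13) (((1 : ℕ) : C13) - x - sh13 0) *
      U13 C13 ^ eu13 0 * V13 C13 ^ ev13 0) := by
    unfold Mat13
    rw [if_pos (by norm_num)]
  rw [e0]
  exact h1

/-- The matrix entries are polynomials in `x`. -/
theorem Mat13_isPoly (c i j : ℕ) :
    ∃ P : Polynomial C13, ∀ x : C13, Mat13 c x i j = P.eval x := by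
  by_cases h : j ≤ 13 * i
  · choose P hP using fun n => fa_ppow_poly (K := C13) (constantCoeff_S13 C13) n
    refine ⟨∑ kl ∈ Finset.HasAntidiagonal.antidiagonal (13 * i - j),
      (P kl.1).comp (Polynomial.C ((i : C13) - sh13 c) - Polynomial.X) *
      Polynomial.C (PowerSeries.coeff kl.2 (U13 C13 ^ eu13 c * V13 C13 ^ ev13 c)), fun x => ?_⟩
    unfold Mat13
    rw [if_pos h, mul_assoc, PowerSeries.coeff_mul, Polynomial.eval_finsetSum]
    refine Finset.sum_congr rfl fun kl _ => ?_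
    rw [Polynomial.eval_mul, Polynomial.eval_C, Polynomial.eval_comp, Polynomial.eval_sub,
      Polynomial.eval_C, Polynomial.eval_X, ← hP]
    congr 3
    ring
  · refine ⟨0, fun x => ?_⟩
    unfold Mat13
    rw [if_neg h, Polynomial.eval_zero]

end D13

end GH
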