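import Pool.Agent.GH.D13.Rel13
import Pool.Agent.GH.D13.ClE13
import Pool.Agent.GH.D13.UBound13
import Pool.Agent.GH.D7.Stab7
import Pool.Agent.GH.D5.EisW2
import Pool.Agent.GH.UMatB_a

/-! The Eisenstein series of weight `2, 4, 6, 8, 10` on `Γ_0(13)`. -/

open PowerSeries Filter Topology

noncomputable section

namespace GH

namespace D13

open GP DP

/-! ### weight two -/

lemma d13l_dlog (R : Type*) [CommRing R] :
    dlog13 R = 1 + 2 * (D5.d5S R 1 - D5.d5S R 13) := by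
  have h1 : D5.thq (euler R 13 * invOfUnit (euler R 1) 1) =
      (D5.d5S R 1 - D5.d5S R 13) * (euler R 13 * invOfUnit (euler R 1) 1) := by
    rw [D5.d5_thq_mul, D5.d5_euler 13 (by norm_num), D5.d5_inv]
    ring
  have h2 := D5.d5_pow _ _ h1 2
  have h3 : (euler R 13 * invOfUnit (euler R 1) 1) ^ 2 *
      invOfUnit ((euler R 13 * invOfUnit (euler R 1) 1) ^ 2) 1 = 1 := by
    refine PowerSeries.mul_invOfUnit _ _ ?_
    rw [map_pow, map_mul, fx_constantCoeff_euler, fx_constantCoeff_inv]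
    simp
  have h4 : thq13 ((euler R 13 * invOfUnit (euler R 1) 1) ^ 2) =
      D5.thq ((euler R 13 * invOfUnit (euler R 1) 1) ^ 2) := rfl
  unfold dlog13
  rw [h4, h2, mul_assoc, h3]
  push_cast
  ring

/-- `θf/f = 1 + 2 ∑ (∑_{d ∣ n, 13 ∤ d} d) q^n`. -/
theorem dlog13_eq : dlog13 ℚ = eisStabP 13 2 := by
  rw [d13l_dlog]
  unfold eisStabP
  congr 1
  ext n
  have h4 : (2 : PowerSeries ℚ) = C (2 : ℚ) := by rw [map_ofNat]
  rw [h4, PowerSeries.coeff_C_mul, map_sub, PowerSeries.coeff_mk]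
  unfold D5.d5S
  rw [PowerSeries.coeff_mk, PowerSeries.coeff_mk, ← Finset.sum_sub_distrib]
  have h5 : -(2 * ((2 : ℕ) : ℚ) / ((1 - ((13 : ℕ) : ℚ) ^ (2 - 1)) * bernoulli 2)) = 2 := by
    rw [bernoulli_two]
    norm_num
  rw [h5]
  congr 1
  refine Finset.sum_congr rfl fun d _ => ?_
  rw [if_pos (one_dvd d)]
  split_ifs <;> simp

/-! ### roots with constant term one -/

lemma d13l_cube {F G : PowerSeries ℚ} (hF : PowerSeries.constantCoeff F = 1)
    (hG : PowerSeries.constantCoeff G = 1) (h : F ^ 3 = G ^ 3) : F = G := by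
  have h1 : (F - G) * (F ^ 2 + F * G + G ^ 2) = 0 := by linear_combination h
  rcases mul_eq_zero.1 h1 with h2 | h2
  · exact sub_eq_zero.1 h2
  · exfalso
    have h3 := congrArg PowerSeries.constantCoeff h2
    rw [map_add, map_add, map_pow, map_mul, map_pow, hF, hG, map_zero] at h3
    norm_num at h3

lemma d13l_square {F G : PowerSeries ℚ} (hF : PowerSeries.constantCoeff F = 1)
    (hG : PowerSeries.constantCoeff G = 1) (h : F ^ 2 = G ^ 2) : F = G := by
  have h1 : (F - G) * (F + G) = 0 := by linear_combination h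
  rcases mul_eq_zero.1 h1 with h2 | h2
  · exact sub_eq_zero.1 h2
  · exfalso
    have h3 := congrArg PowerSeries.constantCoeff h2
    rw [map_add, hF, hG, map_zero] at h3
    norm_num at h3

lemma d13l_eisQ0 (k : ℕ) : PowerSeries.constantCoeff (eisQ k) = 1 := by
  unfold eisQ
  rw [map_add, map_one, ← PowerSeries.coeff_zero_eq_constantCoeff_apply, PowerSeries.coeff_mk]
  simp

lemma d13l_hc (K : Type*) [CommRing K] : PowerSeries.constantCoeff (hauptmodul 13 K) = 0 := by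
  rw [← PowerSeries.coeff_zero_eq_constantCoeff_apply, coeff_zero_hauptmodul]

section

variable {K : Type*} [CommRing K] {F : PowerSeries K} (hF : PowerSeries.constantCoeff F = 0)

include hF

lemma d13l_c3 : PowerSeries.constantCoeff (p3x F) = 1 := by
  rw [map_p3x, hF]
  simp [p3x]

lemma d13l_c2 : PowerSeries.constantCoeff (p2x F) = 1 := by
  rw [map_p2x, hF]
  simp [p2x]

lemma d13l_ce4 : PowerSeries.constantCoeff (e4x F) = 1 := by
  rw [map_e4x, hF]
  simp [e4x]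

lemma d13l_ce6 : PowerSeries.constantCoeff (e6x F) = 1 := by
  rw [map_e6x, hF]
  simp [e6x]

lemma d13l_cn4 : PowerSeries.constantCoeff (n4x F) = 1 := by
  rw [map_n4x, hF]
  simp [n4x]

lemma d13l_cn6 : PowerSeries.constantCoeff (n6x F) = 1 := by
  rw [map_n6x, hF]
  simp [n6x]

end

/-- `E_4 = N4 e4(f)`. -/
theorem eisQ_four (hK : K13) : eisQ 4 = N4 ℚ * e4x (hauptmodul 13 ℚ) := by
  apply d13l_cube (d13l_eisQ0 4)
  · rw [map_mul, constantCoeff_N4, d13l_ce4 (d13l_hc ℚ), one_mul]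
  · rw [hK.k1, mul_pow, N4_cube]
    ring

/-- `E_6 = N6 e6(f)`. -/
theorem eisQ_six (hK : K13) : eisQ 6 = N6 ℚ * e6x (hauptmodul 13 ℚ) := by
  apply d13l_square (d13l_eisQ0 6)
  · rw [map_mul, constantCoeff_N6, d13l_ce6 (d13l_hc ℚ), one_mul]
  · have h1 := eisQ_disc
    have h2 := hauptmodul13_mul_phi ℚ
    have h3 := p3x_mul_sub (hauptmodul 13 ℚ)
    have h4 := N6_sq ℚ
    have h5 := hK.k1
    linear_combination (-1 : PowerSeries ℚ) * h1 + h5 + 1728 * h2 + phi13 ℚ * h3 -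
      e6x (hauptmodul 13 ℚ) ^ 2 * h4

/-- The polynomials `w_c` with `E_{2c}^{(13)} = D_c w_c(f)`. -/
def wser13 (K : Type*) [Field K] : ℕ → PowerSeries K
  | 2 => C ((1 - 13 ^ 3 : K)⁻¹) * (e4x X - 13 ^ 3 * n4x X)
  | 3 => C ((1 - 13 ^ 5 : K)⁻¹) * (e6x X - 13 ^ 5 * n6x X)
  | 4 => C ((1 - 13 ^ 7 : K)⁻¹) * (e4x X ^ 2 - 13 ^ 7 * n4x X ^ 2)
  | 5 => C ((1 - 13 ^ 9 : K)⁻¹) * (e4x X * e6x X - 13 ^ 9 * (n4x X * n6x X))
  | _ => 1

lemma d13l_ne (K : Type*) [Field K] [CharZero K] {j : ℕ} (hj : 1 ≤ j) :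
    (1 - 13 ^ j : K) ≠ 0 := by
  intro h
  have h1 : ((13 ^ j : ℕ) : K) = ((1 : ℕ) : K) := by
    push_cast
    linear_combination -h
  have h2 : (13 : ℕ) ^ j = 1 := Nat.cast_injective h1
  have h3 := Nat.one_lt_pow (by omega : j ≠ 0) (by norm_num : 1 < 13)
  omega

lemma d13l_cw (K : Type*) [Field K] [CharZero K] {j : ℕ} (hj : 1 ≤ j) {F G : PowerSeries K}
    (hF : PowerSeries.constantCoeff F = 1) (hG : PowerSeries.constantCoeff G = 1) :
    PowerSeries.constantCoeff (C ((1 - 13 ^ j : K)⁻¹) * (F - 13 ^ j * G)) = 1 := by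
  rw [map_mul, PowerSeries.constantCoeff_C, map_sub, map_mul, map_pow, map_ofNat, hF, hG, mul_one,
    inv_mul_cancel₀ (d13l_ne K hj)]

theorem constantCoeff_wser13 (K : Type*) [Field K] [CharZero K] (c : ℕ) :
    PowerSeries.constantCoeff (wser13 K c) = 1 := by
  have hX : PowerSeries.constantCoeff (X : PowerSeries K) = 0 := PowerSeries.constantCoeff_X
  match c with
  | 0 => exact map_one _
  | 1 => exact map_one _
  | 2 => exact d13l_cw K (by norm_num) (d13l_ce4 hX) (d13l_cn4 hX)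
  | 3 => exact d13l_cw K (by norm_num) (d13l_ce6 hX) (d13l_cn6 hX)
  | 4 =>
    exact d13l_cw K (by norm_num) (by rw [map_pow, d13l_ce4 hX, one_pow])
      (by rw [map_pow, d13l_cn4 hX, one_pow])
  | 5 =>
    exact d13l_cw K (by norm_num) (by rw [map_mul, d13l_ce4 hX, d13l_ce6 hX, one_mul])
      (by rw [map_mul, d13l_cn4 hX, d13l_cn6 hX, one_mul])
  | _ + 6 => exact map_one _

/-! ### substitution -/

section

variable (K : Type*) [Field K]

/-- the substitution of `f` -/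
def d13l_sub : PowerSeries K →+* PowerSeries K :=
  (substAlgHom (R := K) (fx_hasSubst 13 : HasSubst (hauptmodul 13 K))).toRingHom

lemma d13l_sub_apply (F : PowerSeries K) : d13l_sub K F = F.subst (hauptmodul 13 K) := by
  have h := coe_substAlgHom (R := K) (fx_hasSubst 13 : HasSubst (hauptmodul 13 K))
  exact congrFun h F

lemma d13l_sub_X : d13l_sub K X = hauptmodul 13 K := by
  rw [d13l_sub_apply, subst_X (fx_hasSubst 13)]

end

lemma d13l_st {k : ℕ} (hk : 2 ≤ k) {D W V : PowerSeries ℚ}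
    (h1 : eisQ k = D * W.subst (hauptmodul 13 ℚ))
    (h2 : (eisQ k).expand 13 thirteen_ne = D * V.subst (hauptmodul 13 ℚ)) :
    eisStabP 13 k = D * (C ((1 - 13 ^ (k - 1) : ℚ)⁻¹) * (W - 13 ^ (k - 1) * V)).subst
      (hauptmodul 13 ℚ) := by
  have h3 := D7.eisStabP_eq 13 k hk
  have h4 : (eisQ k).expand 13 (Fact.out : (13 : ℕ).Prime).ne_zero =
      (eisQ k).expand 13 thirteen_ne := rfl
  have h5 : ((13 : ℕ) : ℚ) = 13 := by norm_num
  rw [h4, h2, h1, h5] at h3
  have hc : ∀ a : ℚ, d13l_sub ℚ (C a) = C a := fun a => by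
    rw [d13l_sub_apply]
    exact PowerSeries.subst_C a
  have h6 : (13 : PowerSeries ℚ) ^ (k - 1) = C (13 ^ (k - 1) : ℚ) := by
    rw [map_pow, map_ofNat]
  rw [h6, ← d13l_sub_apply, map_mul, map_sub, map_mul, hc, hc, d13l_sub_apply, d13l_sub_apply]
  have h7 : (C ((1 - 13 ^ (k - 1) : ℚ)⁻¹) : PowerSeries ℚ) * C (1 - 13 ^ (k - 1) : ℚ) = 1 := by
    rw [← map_mul, inv_mul_cancel₀ (d13l_ne ℚ (by omega)), map_one]
  linear_combination C ((1 - 13 ^ (k - 1) : ℚ)⁻¹) * h3 - eisStabP 13 k * h7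

lemma d13l_e4 (hK : K13) :
    eisQ 4 = N4 ℚ * (e4x (X : PowerSeries ℚ)).subst (hauptmodul 13 ℚ) := by
  rw [← d13l_sub_apply, map_e4x, d13l_sub_X]
  exact eisQ_four hK

lemma d13l_e6 (hK : K13) :
    eisQ 6 = N6 ℚ * (e6x (X : PowerSeries ℚ)).subst (hauptmodul 13 ℚ) := by
  rw [← d13l_sub_apply, map_e6x, d13l_sub_X]
  exact eisQ_six hK

lemma d13l_n4 (hK : K13) : (eisQ 4).expand 13 thirteen_ne =
    N4 ℚ * (n4x (X : PowerSeries ℚ)).subst (hauptmodul 13 ℚ) := by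
  have h1 := congrArg (d13l_sub ℚ) (U13_mul ℚ)
  rw [map_mul, map_e4x, d13l_sub_apply, d13l_sub_apply, gs13_subst, d13l_sub_apply] at h1
  have h2 : (e4x (hauptmodul 13 ℚ)).expand 13 thirteen_ne =
      e4x ((hauptmodul 13 ℚ).expand 13 thirteen_ne) :=
    map_e4x (PowerSeries.expand 13 thirteen_ne : PowerSeries ℚ →ₐ[ℚ] PowerSeries ℚ).toRingHom _
  rw [eisQ_four hK, map_mul, N4_expand hK, h2, mul_assoc, h1]

lemma d13l_n6 (hK : K13) : (eisQ 6).expand 13 thirteen_ne =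
    N6 ℚ * (n6x (X : PowerSeries ℚ)).subst (hauptmodul 13 ℚ) := by
  have h1 := congrArg (d13l_sub ℚ) (V13_mul ℚ)
  rw [map_mul, map_e6x, d13l_sub_apply, d13l_sub_apply, gs13_subst, d13l_sub_apply] at h1
  have h2 : (e6x (hauptmodul 13 ℚ)).expand 13 thirteen_ne =
      e6x ((hauptmodul 13 ℚ).expand 13 thirteen_ne) :=
    map_e6x (PowerSeries.expand 13 thirteen_ne : PowerSeries ℚ →ₐ[ℚ] PowerSeries ℚ).toRingHom _
  rw [eisQ_six hK, map_mul, N6_expand hK, h2, mul_assoc, h1]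

/-- `E_{2c}^{(13)} = D_c w_c(f)`. -/
theorem eisStab_frame13 (hK : K13) {c : ℕ} (hc : c ≤ 5) (hc1 : 1 ≤ c) : eisStabP 13 (2 * c) =
    dser13 ℚ c * (wser13 ℚ c).subst (hauptmodul 13 ℚ) := by
  have hcases : c = 1 ∨ c = 2 ∨ c = 3 ∨ c = 4 ∨ c = 5 := by omega
  rcases hcases with rfl | rfl | rfl | rfl | rfl
  · have h1 : wser13 ℚ 1 = 1 := rfl
    have h2 : dser13 ℚ 1 = dlog13 ℚ := rfl
    have h3 : eisStabP 13 (2 * 1) = dlog13 ℚ := dlog13_eq.symm
    rw [h1, h2, ← d13l_sub_apply, map_one, h3, mul_one]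
  · exact d13l_st (k := 4) (by norm_num) (d13l_e4 hK) (d13l_n4 hK)
  · exact d13l_st (k := 6) (by norm_num) (d13l_e6 hK) (d13l_n6 hK)
  · refine d13l_st (k := 8) (D := N4 ℚ ^ 2) (W := e4x X ^ 2) (V := n4x X ^ 2) (by norm_num) ?_ ?_
    · rw [eisQ_eight, d13l_e4 hK, ← d13l_sub_apply, ← d13l_sub_apply, map_pow, mul_pow]
    · rw [eisQ_eight, map_pow, d13l_n4 hK, ← d13l_sub_apply, ← d13l_sub_apply, map_pow, mul_pow]
  · refine d13l_st (k := 10) (D := N4 ℚ * N6 ℚ) (W := e4x X * e6x X) (V := n4x X * n6x X)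
      (by norm_num) ?_ ?_
    · rw [eisQ_ten, d13l_e4 hK, d13l_e6 hK, ← d13l_sub_apply, ← d13l_sub_apply,
        ← d13l_sub_apply, map_mul]
      ring
    · rw [eisQ_ten, map_mul, d13l_n4 hK, d13l_n6 hK, ← d13l_sub_apply, ← d13l_sub_apply,
        ← d13l_sub_apply, map_mul]
      ring

/-! ### base change -/

section

variable {K L : Type*} [Field K] [Field L]

lemma d13l_map_subst {a : PowerSeries K} (ha : PowerSeries.HasSubst a) (h : K →+* L)
    (f : PowerSeries K) :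
    PowerSeries.map h (f.subst a) = (PowerSeries.map h f).subst (PowerSeries.map h a) :=
  PowerSeries.map_subst ha f

lemma d13l_map_binS (h : K →+* L) (s : K) : PowerSeries.map h (binS s) = binS (h s) := by
  ext n
  unfold binS
  rw [PowerSeries.coeff_map, PowerSeries.coeff_mk, PowerSeries.coeff_mk, map_div₀, map_prod]
  simp

lemma d13l_map_ppow (h : K →+* L) {u : PowerSeries K} (hu : PowerSeries.constantCoeff u = 1)
    (s : K) : PowerSeries.map h (ppow u s) = ppow (PowerSeries.map h u) (h s) := by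
  have hs : HasSubst (u - 1) := by
    apply HasSubst.of_constantCoeff_zero'
    rw [map_sub, hu, map_one, sub_self]
  unfold ppow
  rw [d13l_map_subst hs, d13l_map_binS, map_sub, map_one]

end

lemma d13l_map_N4 : PowerSeries.map (algebraMap ℚ C13) (N4 ℚ) = N4 C13 := by
  unfold N4
  rw [d13l_map_ppow _ (by rw [map_mul, constantCoeff_phi13, d13l_c3 (d13l_hc ℚ), one_mul]),
    map_mul, map_phi13, map_p3x, map_hauptmodul]
  congr 1
  simp

lemma d13l_map_N6 : PowerSeries.map (algebraMap ℚ C13) (N6 ℚ) = N6 C13 := by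
  unfold N6
  rw [d13l_map_ppow _ (by rw [map_mul, constantCoeff_phi13, d13l_c2 (d13l_hc ℚ), one_mul]),
    map_mul, map_phi13, map_p2x, map_hauptmodul]
  congr 1
  simp

theorem map_dser13 (c : ℕ) :
    PowerSeries.map (algebraMap ℚ C13) (dser13 ℚ c) = dser13 C13 c := by
  match c with
  | 0 => exact map_one _
  | 1 => exact map_dlog13 _ _
  | 2 => exact d13l_map_N4
  | 3 => exact d13l_map_N6
  | 4 =>
    show PowerSeries.map (algebraMap ℚ C13) (N4 ℚ ^ 2) = N4 C13 ^ 2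
    rw [map_pow, d13l_map_N4]
  | 5 =>
    show PowerSeries.map (algebraMap ℚ C13) (N4 ℚ * N6 ℚ) = N4 C13 * N6 C13
    rw [map_mul, d13l_map_N4, d13l_map_N6]
  | _ + 6 => exact map_one _

lemma d13l_map_w (j : ℕ) {F G : PowerSeries ℚ} {F' G' : PowerSeries C13}
    (hF : PowerSeries.map (algebraMap ℚ C13) F = F')
    (hG : PowerSeries.map (algebraMap ℚ C13) G = G') :
    PowerSeries.map (algebraMap ℚ C13) (C ((1 - 13 ^ j : ℚ)⁻¹) * (F - 13 ^ j * G)) =
      C ((1 - 13 ^ j : C13)⁻¹) * (F' - 13 ^ j * G') := by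
  rw [map_mul, PowerSeries.map_C, map_sub, map_mul, map_pow, map_ofNat, hF, hG, map_inv₀, map_sub,
    map_one, map_pow, map_ofNat]

lemma d13l_map_wser (c : ℕ) :
    PowerSeries.map (algebraMap ℚ C13) (wser13 ℚ c) = wser13 C13 c := by
  have h1 : PowerSeries.map (algebraMap ℚ C13) (e4x X) = e4x X := by
    rw [map_e4x, PowerSeries.map_X]
  have h2 : PowerSeries.map (algebraMap ℚ C13) (e6x X) = e6x X := by
    rw [map_e6x, PowerSeries.map_X]
  have h3 : PowerSeries.map (algebraMap ℚ C13) (n4x X) = n4x X := by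
    rw [map_n4x, PowerSeries.map_X]
  have h4 : PowerSeries.map (algebraMap ℚ C13) (n6x X) = n6x X := by
    rw [map_n6x, PowerSeries.map_X]
  match c with
  | 0 => exact map_one _
  | 1 => exact map_one _
  | 2 => exact d13l_map_w 3 h1 h3
  | 3 => exact d13l_map_w 5 h2 h4
  | 4 => exact d13l_map_w 7 (by rw [map_pow, h1]) (by rw [map_pow, h3])
  | 5 => exact d13l_map_w 9 (by rw [map_mul, h1, h2]) (by rw [map_mul, h3, h4])
  | _ + 6 => exact map_one _

/-! ### norms -/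

/-- bounded by one on the disc of radius `27/4` -/
def D13lB (F : PowerSeries C13) : Prop :=
  ∀ n, ‖PowerSeries.coeff n F‖ * (27 / 4 : ℝ) ^ n ≤ 1

lemma d13l_B_add {F G : PowerSeries C13} (hF : D13lB F) (hG : D13lB G) : D13lB (F + G) := by
  intro n
  have hr : (0 : ℝ) < (27 / 4 : ℝ) ^ n := by positivity
  rw [← le_div_iff₀ hr, map_add]
  exact (IsUltrametricDist.norm_add_le_max _ _).trans
    (max_le ((le_div_iff₀ hr).2 (hF n)) ((le_div_iff₀ hr).2 (hG n)))

lemma d13l_B_neg {F : PowerSeries C13} (hF : D13lB F) : D13lB (-F) := by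
  intro n
  rw [map_neg, norm_neg]
  exact hF n

lemma d13l_B_sub {F G : PowerSeries C13} (hF : D13lB F) (hG : D13lB G) : D13lB (F - G) := by
  rw [sub_eq_add_neg]
  exact d13l_B_add hF (d13l_B_neg hG)

lemma d13l_B_mul {F G : PowerSeries C13} (hF : D13lB F) (hG : D13lB G) : D13lB (F * G) := by
  intro n
  have hr : (0 : ℝ) < (27 / 4 : ℝ) ^ n := by positivity
  rw [← le_div_iff₀ hr, PowerSeries.coeff_mul]
  refine IsUltrametricDist.norm_sum_le_of_forall_le_of_nonneg (by positivity) fun ij hij => ?_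
  rw [Finset.HasAntidiagonal.mem_antidiagonal] at hij
  rw [le_div_iff₀ hr, norm_mul, ← hij, pow_add]
  calc ‖PowerSeries.coeff ij.1 F‖ * ‖PowerSeries.coeff ij.2 G‖ *
        ((27 / 4 : ℝ) ^ ij.1 * (27 / 4 : ℝ) ^ ij.2)
      = (‖PowerSeries.coeff ij.1 F‖ * (27 / 4 : ℝ) ^ ij.1) *
        (‖PowerSeries.coeff ij.2 G‖ * (27 / 4 : ℝ) ^ ij.2) := by ring
    _ ≤ 1 * 1 := mul_le_mul (hF _) (hG _) (by positivity) zero_le_one
    _ = 1 := one_mul 1

lemma d13l_B_mono (a : C13) (k : ℕ) (h : ‖a‖ * (27 / 4 : ℝ) ^ k ≤ 1) :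
    D13lB (C a * X ^ k) := by
  intro n
  rw [PowerSeries.coeff_C_mul, PowerSeries.coeff_X_pow]
  split_ifs with hn
  · subst hn
    rwa [mul_one]
  · rw [mul_zero, norm_zero, zero_mul]
    exact zero_le_one

lemma d13l_B_C (a : C13) (h : ‖a‖ ≤ 1) : D13lB (C a) := by
  have h1 := d13l_B_mono a 0 (by rwa [pow_zero, mul_one])
  rwa [pow_zero, mul_one] at h1

lemma d13l_B_nat (m : ℕ) : D13lB (m : PowerSeries C13) := by
  have h1 := d13l_B_C (m : C13) (IsUltrametricDist.norm_natCast_le_one C13 m)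
  rwa [map_natCast] at h1

lemma d13l_B_one : D13lB (1 : PowerSeries C13) := by
  have h := d13l_B_nat 1
  rwa [Nat.cast_one] at h

lemma d13l_B_pow {F : PowerSeries C13} (hF : D13lB F) (m : ℕ) : D13lB (F ^ m) := by
  induction m with
  | zero => rw [pow_zero]; exact d13l_B_one
  | succ m ih => rw [pow_succ]; exact d13l_B_mul ih hF

lemma d13l_B_Y : D13lB (13 * X : PowerSeries C13) := by
  have h := d13l_B_mono 13 1 (by rw [norm_thirteen_C13]; norm_num)
  rwa [pow_one, map_ofNat] at h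

lemma d13l_B_e4 : D13lB (e4x X) := by
  have e : e4x (X : PowerSeries C13) = 1 + ((19 : ℕ) : PowerSeries C13) * (13 * X) +
      ((20 : ℕ) : PowerSeries C13) * (13 * X) ^ 2 + ((7 : ℕ) : PowerSeries C13) * (13 * X) ^ 3 +
      (13 * X) ^ 4 := by
    unfold e4x
    push_cast
    ring
  rw [e]
  have hY := d13l_B_Y
  exact d13l_B_add (d13l_B_add (d13l_B_add (d13l_B_add d13l_B_one
    (d13l_B_mul (d13l_B_nat _) hY)) (d13l_B_mul (d13l_B_nat _) (d13l_B_pow hY 2)))
    (d13l_B_mul (d13l_B_nat _) (d13l_B_pow hY 3))) (d13l_B_pow hY 4)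

lemma d13l_B_e6 : D13lB (e6x X) := by
  have e : e6x (X : PowerSeries C13) = 1 - ((38 : ℕ) : PowerSeries C13) * (13 * X) -
      ((122 : ℕ) : PowerSeries C13) * (13 * X) ^ 2 -
      ((108 : ℕ) : PowerSeries C13) * (13 * X) ^ 3 -
      ((46 : ℕ) : PowerSeries C13) * (13 * X) ^ 4 -
      ((10 : ℕ) : PowerSeries C13) * (13 * X) ^ 5 - (13 * X) ^ 6 := by
    unfold e6x
    push_cast
    ring
  rw [e]
  have hY := d13l_B_Y
  exact d13l_B_sub (d13l_B_sub (d13l_B_sub (d13l_B_sub (d13l_B_sub (d13l_B_sub d13l_B_one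
    (d13l_B_mul (d13l_B_nat _) hY)) (d13l_B_mul (d13l_B_nat _) (d13l_B_pow hY 2)))
    (d13l_B_mul (d13l_B_nat _) (d13l_B_pow hY 3)))
    (d13l_B_mul (d13l_B_nat _) (d13l_B_pow hY 4)))
    (d13l_B_mul (d13l_B_nat _) (d13l_B_pow hY 5))) (d13l_B_pow hY 6)

lemma d13l_B_n4 : D13lB (13 ^ 3 * n4x X) := by
  have hZ : D13lB (13 ^ 3 * X ^ 4 : PowerSeries C13) := by
    have h := d13l_B_mono (13 ^ 3) 4 (by rw [norm_pow, norm_thirteen_C13]; norm_num)
    rwa [map_pow, map_ofNat] at h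
  have e : (13 ^ 3 * n4x X : PowerSeries C13) = ((13 ^ 3 : ℕ) : PowerSeries C13) +
      ((7 * 13 ^ 2 : ℕ) : PowerSeries C13) * (13 * X) +
      ((20 * 13 : ℕ) : PowerSeries C13) * (13 * X) ^ 2 +
      ((19 : ℕ) : PowerSeries C13) * (13 * X) ^ 3 + 13 ^ 3 * X ^ 4 := by
    unfold n4x
    push_cast
    ring
  rw [e]
  have hY := d13l_B_Y
  exact d13l_B_add (d13l_B_add (d13l_B_add (d13l_B_add (d13l_B_nat _)
    (d13l_B_mul (d13l_B_nat _) hY)) (d13l_B_mul (d13l_B_nat _) (d13l_B_pow hY 2)))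
    (d13l_B_mul (d13l_B_nat _) (d13l_B_pow hY 3))) hZ

lemma d13l_B_n6 : D13lB (13 ^ 5 * n6x X) := by
  have hZ : D13lB (13 ^ 5 * X ^ 6 : PowerSeries C13) := by
    have h := d13l_B_mono (13 ^ 5) 6 (by rw [norm_pow, norm_thirteen_C13]; norm_num)
    rwa [map_pow, map_ofNat] at h
  have e : (13 ^ 5 * n6x X : PowerSeries C13) = ((13 ^ 5 : ℕ) : PowerSeries C13) +
      ((10 * 13 ^ 4 : ℕ) : PowerSeries C13) * (13 * X) +
      ((46 * 13 ^ 3 : ℕ) : PowerSeries C13) * (13 * X) ^ 2 +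
      ((108 * 13 ^ 2 : ℕ) : PowerSeries C13) * (13 * X) ^ 3 +
      ((122 * 13 : ℕ) : PowerSeries C13) * (13 * X) ^ 4 +
      ((38 : ℕ) : PowerSeries C13) * (13 * X) ^ 5 - 13 ^ 5 * X ^ 6 := by
    unfold n6x
    push_cast
    ring
  rw [e]
  have hY := d13l_B_Y
  exact d13l_B_sub (d13l_B_add (d13l_B_add (d13l_B_add (d13l_B_add (d13l_B_add (d13l_B_nat _)
    (d13l_B_mul (d13l_B_nat _) hY)) (d13l_B_mul (d13l_B_nat _) (d13l_B_pow hY 2)))
    (d13l_B_mul (d13l_B_nat _) (d13l_B_pow hY 3)))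
    (d13l_B_mul (d13l_B_nat _) (d13l_B_pow hY 4)))
    (d13l_B_mul (d13l_B_nat _) (d13l_B_pow hY 5))) hZ

lemma d13l_norm_unit {j : ℕ} (hj : 1 ≤ j) : ‖(1 - 13 ^ j : C13)‖ = 1 := by
  have h3 : ‖(-(13 ^ j) : C13)‖ < 1 := by
    rw [norm_neg, norm_pow, norm_thirteen_C13]
    exact pow_lt_one₀ (by norm_num) (by norm_num) (by omega)
  rw [sub_eq_add_neg,
    IsUltrametricDist.norm_add_eq_max_of_norm_ne_norm (by rw [norm_one]; exact h3.ne'),
    norm_one, max_eq_left h3.le]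

lemma d13l_B_w {j : ℕ} (hj : 1 ≤ j) {F G : PowerSeries C13} (hF : D13lB F)
    (hG : D13lB (13 ^ j * G)) : D13lB (C ((1 - 13 ^ j : C13)⁻¹) * (F - 13 ^ j * G)) :=
  d13l_B_mul (d13l_B_C _ (by rw [norm_inv, d13l_norm_unit hj, inv_one])) (d13l_B_sub hF hG)

lemma d13l_B_wser (c : ℕ) : D13lB (wser13 C13 c) := by
  match c with
  | 0 => exact d13l_B_one
  | 1 => exact d13l_B_one
  | 2 => exact d13l_B_w (by norm_num) d13l_B_e4 d13l_B_n4
  | 3 => exact d13l_B_w (by norm_num) d13l_B_e6 d13l_B_n6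
  | 4 =>
    refine d13l_B_w (by norm_num) (d13l_B_pow d13l_B_e4 2) ?_
    have e : (13 ^ 7 * n4x X ^ 2 : PowerSeries C13) =
        ((13 : ℕ) : PowerSeries C13) * (13 ^ 3 * n4x X) ^ 2 := by
      push_cast
      ring
    rw [e]
    exact d13l_B_mul (d13l_B_nat _) (d13l_B_pow d13l_B_n4 2)
  | 5 =>
    refine d13l_B_w (by norm_num) (d13l_B_mul d13l_B_e4 d13l_B_e6) ?_
    have e : (13 ^ 9 * (n4x X * n6x X) : PowerSeries C13) =
        ((13 : ℕ) : PowerSeries C13) * ((13 ^ 3 * n4x X) * (13 ^ 5 * n6x X)) := by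
      push_cast
      ring
    rw [e]
    exact d13l_B_mul (d13l_B_nat _) (d13l_B_mul d13l_B_n4 d13l_B_n6)
  | _ + 6 => exact d13l_B_one

theorem norm_wser13 (c n : ℕ) :
    ‖PowerSeries.coeff n (wser13 C13 c)‖ * (27 / 4 : ℝ) ^ n ≤ 1 :=
  d13l_B_wser c n

lemma d13l_inv {r : ℝ} (hr : 0 < r) {F G : PowerSeries C13}
    (hF0 : PowerSeries.constantCoeff F = 1) (hF : ∀ n, ‖PowerSeries.coeff n F‖ * r ^ n ≤ 1)
    (hFG : F * G = 1) (n : ℕ) : ‖PowerSeries.coeff n G‖ * r ^ n ≤ 1 := by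
  induction n using Nat.strong_induction_on with
  | _ n ih =>
    have h32 : (0 : ℝ) < r ^ n := by positivity
    have h1 : PowerSeries.coeff n G = (if n = 0 then 1 else 0) -
        ∑ ij ∈ (Finset.HasAntidiagonal.antidiagonal n).erase (0, n),
          PowerSeries.coeff ij.1 F * PowerSeries.coeff ij.2 G := by
      have h2 := congrArg (PowerSeries.coeff n) hFG
      rw [PowerSeries.coeff_mul, PowerSeries.coeff_one,
        ← Finset.add_sum_erase _ _ (Finset.HasAntidiagonal.mem_antidiagonal.2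
          (show ((0, n) : ℕ × ℕ).1 + ((0, n) : ℕ × ℕ).2 = n from zero_add n)),
        PowerSeries.coeff_zero_eq_constantCoeff_apply, hF0, one_mul] at h2
      exact eq_sub_of_add_eq h2
    rw [← le_div_iff₀ h32, h1, sub_eq_add_neg]
    refine (IsUltrametricDist.norm_add_le_max _ _).trans (max_le ?_ ?_)
    · rcases Nat.eq_zero_or_pos n with h | h
      · subst h
        simp
      · rw [if_neg (by omega), norm_zero]
        positivity
    · rw [norm_neg]
      refine IsUltrametricDist.norm_sum_le_of_forall_le_of_nonneg (by positivity) fun ij hij => ?_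
      rw [Finset.mem_erase, Finset.HasAntidiagonal.mem_antidiagonal] at hij
      have hlt : ij.2 < n := by
        rcases Nat.lt_or_ge ij.2 n with h | h
        · exact h
        · exact absurd (Prod.ext (by show ij.1 = 0; omega) (by show ij.2 = n; omega)) hij.1
      rw [le_div_iff₀ h32, norm_mul, ← hij.2, pow_add]
      calc ‖PowerSeries.coeff ij.1 F‖ * ‖PowerSeries.coeff ij.2 G‖ *
            (r ^ ij.1 * r ^ ij.2)
          = (‖PowerSeries.coeff ij.1 F‖ * r ^ ij.1) *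
            (‖PowerSeries.coeff ij.2 G‖ * r ^ ij.2) := by ring
        _ ≤ 1 * 1 := mul_le_mul (hF _) (ih _ hlt) (by positivity) zero_le_one
        _ = 1 := one_mul 1

theorem norm_wser13_inv (c n : ℕ) :
    ‖PowerSeries.coeff n ((wser13 C13 c)⁻¹)‖ * (27 / 4 : ℝ) ^ n ≤ 1 :=
  d13l_inv (by norm_num) (constantCoeff_wser13 C13 c) (norm_wser13 c)
    (PowerSeries.mul_inv_cancel _ (by rw [constantCoeff_wser13]; exact one_ne_zero)) n

/-! ### the form over `ℤ_13` -/

lemma d13l_exists_unit {j : ℕ} (hj : 1 ≤ j) : ∃ e : ℤ_[13], (1 - 13 ^ j) * e = 1 := by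
  have h : IsUnit (1 - 13 ^ j : ℤ_[13]) := by
    rw [PadicInt.isUnit_iff]
    have h1 := norm_io (p := 13) (1 - 13 ^ j : ℤ_[13])
    rw [map_sub, map_one, map_pow, map_ofNat] at h1
    rw [← h1]
    exact d13l_norm_unit hj
  obtain ⟨u, hu⟩ := h
  exact ⟨((u⁻¹ : (ℤ_[13])ˣ) : ℤ_[13]), by rw [← hu]; exact u.mul_inv⟩

/-- `∑_{d ∣ n, 13 ∤ d} d^j`. -/
def d13lS (j n : ℕ) : ℕ := ∑ d ∈ n.divisors, if 13 ∣ d then 0 else d ^ j

lemma d13l_stabc (k : ℕ) (N : ℤ) (hN : -(2 * (k : ℚ) / bernoulli k) = N) (n : ℕ) :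
    PowerSeries.coeff n (eisStabP 13 k) =
    (if n = 0 then 1 else 0) + ((N : ℚ) * (1 - 13 ^ (k - 1))⁻¹) * (d13lS (k - 1) n : ℚ) := by
  have h5 : -(2 * (k : ℚ) / ((1 - ((13 : ℕ) : ℚ) ^ (k - 1)) * bernoulli k)) =
      (N : ℚ) * (1 - 13 ^ (k - 1))⁻¹ := by
    rw [← hN]
    have h13 : ((13 : ℕ) : ℚ) = 13 := by norm_num
    rw [h13, mul_comm (1 - (13 : ℚ) ^ (k - 1)), ← div_div, neg_mul, ← div_eq_mul_inv]
  unfold eisStabP d13lS
  rw [map_add, PowerSeries.coeff_one, PowerSeries.coeff_mk, h5]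
  congr 2
  push_cast
  refine Finset.sum_congr rfl fun d _ => ?_
  split_ifs <;> simp

lemma d13l_D {k : ℕ} (hk : 2 ≤ k) (N : ℤ) (hN : -(2 * (k : ℚ) / bernoulli k) = N) :
    ∃ D : PowerSeries ℤ_[13], PowerSeries.constantCoeff D = 1 ∧
      cpl D = PowerSeries.map (algebraMap ℚ C13) (eisStabP 13 k) := by
  obtain ⟨e, he⟩ := d13l_exists_unit (j := k - 1) (by omega)
  have hio : io 13 e = (1 - 13 ^ (k - 1))⁻¹ := by
    have h := congrArg (io 13) he
    rw [map_mul, map_sub, map_one, map_pow, map_ofNat] at h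
    exact eq_inv_of_mul_eq_one_right h
  refine ⟨1 + PowerSeries.mk fun n => ((N : ℤ_[13]) * e) * (d13lS (k - 1) n : ℤ_[13]), ?_, ?_⟩
  · rw [map_add, map_one, ← PowerSeries.coeff_zero_eq_constantCoeff_apply, PowerSeries.coeff_mk]
    simp [d13lS]
  · ext n
    unfold cpl
    have g1 : io 13 (if n = 0 then 1 else 0) = if n = 0 then 1 else 0 := by
      split_ifs <;> simp
    have g2 : algebraMap ℚ C13 (if n = 0 then 1 else 0) = if n = 0 then 1 else 0 := by
      split_ifs <;> simp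
    have g3 : algebraMap ℚ C13 ((N : ℚ) * (1 - 13 ^ (k - 1))⁻¹) =
        (N : C13) * (1 - 13 ^ (k - 1))⁻¹ := by
      rw [map_mul, map_intCast, map_inv₀, map_sub, map_one, map_pow, map_ofNat]
    rw [PowerSeries.coeff_map, PowerSeries.coeff_map, d13l_stabc k N hN, map_add,
      PowerSeries.coeff_one, PowerSeries.coeff_mk, map_add, map_mul, map_mul, hio,
      map_natCast, map_intCast, map_add (algebraMap ℚ C13), map_mul (algebraMap ℚ C13),
      map_natCast (algebraMap ℚ C13), g1, g2, g3]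

lemma d13l_fr (hK : K13) {c : ℕ} (hc : c ≤ 5) (hc1 : 1 ≤ c) :
    PowerSeries.map (algebraMap ℚ C13) (eisStabP 13 (2 * c)) =
      dser13 C13 c * (wser13 C13 c).subst (hauptmodul 13 C13) := by
  rw [eisStab_frame13 hK hc hc1, map_mul, map_dser13, d13l_map_subst (fx_hasSubst 13),
    d13l_map_wser, map_hauptmodul]

/-- The form `E_{z^{2c}}` over `ℤ_13`. -/
theorem exists_frame13 (hK : K13) {c : ℕ} (hc : c ≤ 5) : ∃ D : PowerSeries ℤ_[13],
    PowerSeries.constantCoeff D = 1 ∧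
    cpl D = dser13 C13 c * (wser13 C13 c).subst (hauptmodul 13 C13) ∧
    (1 ≤ c → cpl D = PowerSeries.map (algebraMap ℚ C13) (eisStabP 13 (2 * c))) ∧
    (c = 0 → D = 1) := by
  rcases Nat.eq_zero_or_pos c with h0 | hc1
  · subst h0
    refine ⟨1, map_one _, ?_, fun h => absurd h (by norm_num), fun _ => rfl⟩
    have h1 : wser13 C13 0 = 1 := rfl
    have h2 : dser13 C13 0 = 1 := rfl
    rw [h1, h2, ← d13l_sub_apply, map_one, mul_one]
    unfold cpl
    rw [map_one]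
  · have key : ∃ D : PowerSeries ℤ_[13], PowerSeries.constantCoeff D = 1 ∧
        cpl D = PowerSeries.map (algebraMap ℚ C13) (eisStabP 13 (2 * c)) := by
      have hcases : c = 1 ∨ c = 2 ∨ c = 3 ∨ c = 4 ∨ c = 5 := by omega
      rcases hcases with rfl | rfl | rfl | rfl | rfl
      · refine ⟨dlog13 ℤ_[13], constantCoeff_dlog13 _, ?_⟩
        unfold cpl
        rw [map_dlog13, show 2 * 1 = 2 from rfl, ← dlog13_eq, map_dlog13]
      · exact d13l_D (by norm_num) 240 (by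
          rw [show bernoulli (2 * 2) = -1 / 30 by decide +kernel]
          norm_num)
      · exact d13l_D (by norm_num) (-504) (by
          rw [show bernoulli (2 * 3) = 1 / 42 by decide +kernel]
          norm_num)
      · exact d13l_D (by norm_num) 480 (by
          rw [show bernoulli (2 * 4) = -1 / 30 by decide +kernel]
          norm_num)
      · exact d13l_D (by norm_num) (-264) (by
          rw [show bernoulli (2 * 5) = 5 / 66 by decide +kernel]
          norm_num)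
    obtain ⟨D, hD0, hD⟩ := key
    exact ⟨D, hD0, by rw [hD, d13l_fr hK hc hc1], fun _ => hD, fun h => absurd h (by omega)⟩

end D13

end GH
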