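import Pool.Agent.GH.D13.Param13

open PowerSeries Filter Topology

noncomputable section

namespace GH

namespace D13

open GP

/-! Valuations of the ghost coefficients, `p = 13`. -/

/-- The zeros: `t l = 27^{12l} - 1`. -/
def zero13 (l : ℕ) : ℤ_[13] := 27 ^ (12 * l) - 1

theorem norm_zero13 (l : ℕ) : ‖zero13 l‖ ≤ ((13 : ℕ) : ℝ)⁻¹ := by
  have h1 : ∃ c : ℕ, 27 ^ (12 * l) = 13 * c + 1 := by
    induction l with
    | zero => exact ⟨0, rfl⟩
    | succ l ih =>
      obtain ⟨c, hc⟩ := ih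
      exact ⟨150094635296999121 * c + 11545741176692240, by
        rw [show 12 * (l + 1) = 12 * l + 12 by ring, pow_add, hc]; ring⟩
  obtain ⟨c, hc⟩ := h1
  have h2 : zero13 l = ((13 : ℕ) : ℤ_[13]) * (c : ℤ_[13]) := by
    unfold zero13
    have h3 : (27 : ℤ_[13]) ^ (12 * l) = ((27 ^ (12 * l) : ℕ) : ℤ_[13]) := by push_cast; rfl
    rw [h3, hc]
    push_cast
    ring
  rw [h2, norm_mul, PadicInt.norm_p]
  exact mul_le_of_le_one_right (by positivity) (PadicInt.norm_le_one _)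

/-! ### Multiplicities -/

/-- The shift in level thirteen. -/
def d13p_m (c : ℕ) : ℕ := 2 * (2 * c / 4) + 2 * (2 * c / 3)

/-- The shift in level one. -/
def d13p_e (c : ℕ) : ℕ := if c = 1 then 1 else 0

theorem d13p_m_le {c : ℕ} (hc : c ≤ 5) : d13p_m c ≤ 10 := by
  unfold d13p_m
  omega

theorem d13p_m_even (c : ℕ) : d13p_m c % 2 = 0 := by
  unfold d13p_m
  omega

theorem d13p_e_le (c : ℕ) : d13p_e c ≤ 1 := by
  unfold d13p_e
  split_ifs <;> omega

theorem d13p_e_m (c : ℕ) : d13p_e c = 1 → d13p_m c = 0 := by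
  intro h
  unfold d13p_e at h
  by_cases hc : c = 1
  · subst hc
    rfl
  · rw [if_neg hc] at h
    omega

theorem d13p_dimOne {c : ℕ} (hc : c ≤ 5) (l : ℕ) : dimOne (2 * c + 12 * l) = l - d13p_e c := by
  unfold dimOne d13p_e
  split_ifs <;> omega

theorem d13p_dimG {c : ℕ} (hc : c ≤ 5) (l : ℕ) :
    dimG 13 (2 * c + 12 * l) = 14 * l + d13p_m c - 1 := by
  unfold dimG d13p_m
  have h2 : nell2 13 = 2 := by
    unfold nell2
    norm_num
  have h3 : nell3 13 = 2 := by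
    unfold nell3
    norm_num
  rw [h2, h3]
  have h4 : c = 0 ∨ c = 1 ∨ c = 2 ∨ c = 3 ∨ c = 4 ∨ c = 5 := by omega
  rcases h4 with rfl | rfl | rfl | rfl | rfl | rfl <;> omega

/-- The multiplicities. -/
theorem d13p_mult {c : ℕ} (hc : c ≤ 5) (n l : ℕ) : multG 13 n (2 * c + 12 * l) =
    min (n - (l - d13p_e c)) (14 * l + d13p_m c - 1 - (l - d13p_e c) - n) := by
  unfold multG sfun dimNewG
  rw [d13p_dimOne hc, d13p_dimG hc]
  generalize l - d13p_e c = t
  generalize 14 * l + d13p_m c - 1 = D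
  split_ifs <;> omega

theorem multG13_supp {c : ℕ} (hc : c ≤ 5) (n l : ℕ) (h : n + 1 ≤ l) :
    multG 13 n (2 * c + 12 * l) = 0 := by
  rw [d13p_mult hc]
  have := d13p_e_le c
  omega

/-- The degree of `g_n`. -/
def deg13 (c n : ℕ) : ℕ := ∑ l ∈ Finset.range (n + 1), multG 13 n (2 * c + 12 * l)

/-- The increments of the multiplicities. -/
theorem d13p_succ (t D n : ℕ) : min (n + 1 - t) (D - t - (n + 1)) +
      (if D ≤ 2 * n ∧ n + 1 + t ≤ D then 1 else 0) =
    min (n - t) (D - t - n) + (if t ≤ n ∧ 2 * n + 2 ≤ D then 1 else 0) := by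
  split_ifs <;> omega

theorem d13p_neg {m e : ℕ} (hm : m ≤ 10) (hm2 : m % 2 = 0) (he : e ≤ 1) (hme : e = 1 → m = 0)
    (n M : ℕ) (hM : n + 1 ≤ M) :
    ∑ l ∈ Finset.range M, (if 14 * l + m - 1 ≤ 2 * n ∧ n + 1 + (l - e) ≤ 14 * l + m - 1
      then 1 else 0) = (2 * n + 15 - m) / 14 - (n + 14 - m - e) / 13 := by
  rw [← Finset.card_filter]
  have h1 : (Finset.range M).filter (fun l => 14 * l + m - 1 ≤ 2 * n ∧
      n + 1 + (l - e) ≤ 14 * l + m - 1) =
      Finset.Ico ((n + 14 - m - e) / 13) ((2 * n + 15 - m) / 14) := by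
    ext l
    rw [Finset.mem_filter, Finset.mem_range, Finset.mem_Ico]
    have h0 : e = 0 ∨ (e = 1 ∧ m = 0) := by omega
    rcases h0 with rfl | ⟨rfl, rfl⟩
    · omega
    · omega
  rw [h1, Nat.card_Ico]

theorem d13p_pos {m e : ℕ} (hm : m ≤ 10) (hm2 : m % 2 = 0) (he : e ≤ 1) (hme : e = 1 → m = 0)
    (n M : ℕ) (hM : n + 2 ≤ M) :
    ∑ l ∈ Finset.range M, (if l - e ≤ n ∧ 2 * n + 2 ≤ 14 * l + m - 1 then 1 else 0) =
      n + 1 + e - (2 * n + 16 - m) / 14 := by
  rw [← Finset.card_filter]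
  have h1 : (Finset.range M).filter (fun l => l - e ≤ n ∧ 2 * n + 2 ≤ 14 * l + m - 1) =
      Finset.Ico ((2 * n + 16 - m) / 14) (n + 1 + e) := by
    ext l
    rw [Finset.mem_filter, Finset.mem_range, Finset.mem_Ico]
    have h0 : e = 0 ∨ (e = 1 ∧ m = 0) := by omega
    rcases h0 with rfl | ⟨rfl, rfl⟩
    · omega
    · omega
  rw [h1, Nat.card_Ico]

/-- The degree as a sum over a longer range. -/
theorem d13p_deg {c : ℕ} (hc : c ≤ 5) (n M : ℕ) (hM : n + 1 ≤ M) :
    ∑ l ∈ Finset.range M, multG 13 n (2 * c + 12 * l) = deg13 c n := by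
  unfold deg13
  symm
  refine Finset.sum_subset (fun l hl => ?_) (fun l _ hl => ?_)
  · rw [Finset.mem_range] at hl ⊢
    omega
  · rw [Finset.mem_range, not_lt] at hl
    exact multG13_supp hc n l hl

/-- The increments of the degrees. -/
theorem d13p_inc {c : ℕ} (hc : c ≤ 5) (n : ℕ) :
    deg13 c (n + 1) + ((2 * n + 15 - d13p_m c) / 14 - (n + 14 - d13p_m c - d13p_e c) / 13) =
      deg13 c n + (n + 1 + d13p_e c - (2 * n + 16 - d13p_m c) / 14) := by
  have h1 := d13p_deg hc (n + 1) (n + 2) le_rfl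
  have h2 := d13p_deg hc n (n + 2) (by omega)
  have h3 := d13p_neg (d13p_m_le hc) (d13p_m_even c) (d13p_e_le c) (d13p_e_m c) n (n + 2)
    (by omega)
  have h4 := d13p_pos (d13p_m_le hc) (d13p_m_even c) (d13p_e_le c) (d13p_e_m c) n (n + 2) le_rfl
  rw [← h1, ← h2, ← h3, ← h4, ← Finset.sum_add_distrib, ← Finset.sum_add_distrib]
  refine Finset.sum_congr rfl fun l _ => ?_
  rw [d13p_mult hc, d13p_mult hc]
  exact d13p_succ _ _ n

theorem d13p_le {m e : ℕ} (hm : m ≤ 10) (he : e ≤ 1) (n : ℕ) :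
    (n + 14 - m - e) / 13 ≤ (2 * n + 15 - m) / 14 ∧ (2 * n + 16 - m) / 14 ≤ n + 1 + e := by
  constructor <;> omega

theorem d13p_floor {k : ℕ} (hk : k ≤ 5) (n : ℕ) :
    (2 * (n + 1) + 16 - 2 * k) / 14 + (2 * (n + 1) + 15 - 2 * k) / 14 ≤
      (2 * n + 16 - 2 * k) / 14 + (2 * n + 15 - 2 * k) / 14 + 1 := by
  obtain ⟨N, hN⟩ : ∃ N, n + 7 = N + k := ⟨n + 7 - k, by omega⟩
  have h1 : (2 * (n + 1) + 16 - 2 * k) / 14 = (N + 2) / 7 := by omega
  have h2 : (2 * (n + 1) + 15 - 2 * k) / 14 = (N + 1) / 7 := by omega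
  have h3 : (2 * n + 16 - 2 * k) / 14 = (N + 1) / 7 := by omega
  have h4 : (2 * n + 15 - 2 * k) / 14 = N / 7 := by omega
  rw [h1, h2, h3, h4]
  omega

/-- The second difference of the degrees: `1 + [13 ∣ ·] - [7 ∣ ·] - [7 ∣ ·] ≥ 0`. -/
theorem deg13_convex {c : ℕ} (hc : c ≤ 5) (n : ℕ) :
    2 * deg13 c (n + 1) ≤ deg13 c n + deg13 c (n + 2) := by
  have h1 := d13p_inc hc n
  have h2 := d13p_inc hc (n + 1)
  have h3 := d13p_le (d13p_m_le hc) (d13p_e_le c) n
  have h4 := d13p_le (d13p_m_le hc) (d13p_e_le c) (n + 1)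
  have h5 := d13p_m_le hc
  have h6 := d13p_m_even c
  have h7 := d13p_e_le c
  generalize deg13 c n = a0 at *
  generalize deg13 c (n + 1) = a1 at *
  generalize deg13 c (n + 1 + 1) = a2 at *
  generalize d13p_m c = m at *
  generalize d13p_e c = e at *
  have e1 : (2 * (n + 1) + 16 - m) / 14 + (2 * (n + 1) + 15 - m) / 14 ≤
      (2 * n + 16 - m) / 14 + (2 * n + 15 - m) / 14 + 1 := by
    obtain ⟨k, hk⟩ : ∃ k, m = 2 * k := ⟨m / 2, by omega⟩
    rw [hk]
    exact d13p_floor (by omega) n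
  have e2 : (n + 14 - m - e) / 13 ≤ (n + 1 + 14 - m - e) / 13 :=
    Nat.div_le_div_right (by omega)
  generalize (2 * n + 16 - m) / 14 = A0 at *
  generalize (2 * n + 15 - m) / 14 = B0 at *
  generalize (n + 14 - m - e) / 13 = C0 at *
  generalize (2 * (n + 1) + 16 - m) / 14 = A1 at *
  generalize (2 * (n + 1) + 15 - m) / 14 = B1 at *
  generalize (n + 1 + 14 - m - e) / 13 = C1 at *
  clear h5 h6
  omega

theorem deg13_zero {c : ℕ} (hc : c ≤ 5) : deg13 c 0 = 0 := by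
  unfold deg13
  refine Finset.sum_eq_zero fun l _ => ?_
  rw [d13p_mult hc, Nat.zero_sub, Nat.zero_min]

/-- Arbitrarily large strict vertices. -/
theorem deg13_strict {c : ℕ} (hc : c ≤ 5) (n : ℕ) : ∃ b : ℕ, n ≤ b ∧ 1 ≤ b ∧
    2 * deg13 c b + 1 ≤ deg13 c (b - 1) + deg13 c (b + 1) := by
  obtain ⟨r, hr⟩ : ∃ r, r = 7 * n + 7 + d13p_m c / 2 := ⟨_, rfl⟩
  refine ⟨r + 1, by omega, by omega, ?_⟩
  rw [Nat.add_sub_cancel]
  have h1 := d13p_inc hc r
  have h2 := d13p_inc hc (r + 1)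
  have h3 := d13p_le (d13p_m_le hc) (d13p_e_le c) r
  have h4 := d13p_le (d13p_m_le hc) (d13p_e_le c) (r + 1)
  have h5 := d13p_m_le hc
  have h6 := d13p_m_even c
  have h7 := d13p_e_le c
  generalize deg13 c r = a0 at *
  generalize deg13 c (r + 1) = a1 at *
  generalize deg13 c (r + 1 + 1) = a2 at *
  generalize d13p_m c = m at *
  generalize d13p_e c = e at *
  have e1 : (2 * (r + 1) + 16 - m) / 14 = (2 * r + 16 - m) / 14 := by omega
  have e3 : (2 * (r + 1) + 15 - m) / 14 = (2 * r + 15 - m) / 14 := by omega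
  have e2 : (r + 14 - m - e) / 13 ≤ (r + 1 + 14 - m - e) / 13 :=
    Nat.div_le_div_right (by omega)
  rw [e1] at h2 h4
  rw [e3] at h2 h4
  generalize (2 * r + 16 - m) / 14 = A0 at *
  generalize (2 * r + 15 - m) / 14 = B0 at *
  generalize (r + 14 - m - e) / 13 = C0 at *
  generalize (r + 1 + 14 - m - e) / 13 = C1 at *
  clear h5 h6 hr
  omega

/-! ### Norms -/

theorem d13p_norm_27 : ‖(27 : C13)‖ = 1 := by
  have h1 : (27 : C13) = algebraMap ℚ_[13] C13 ((27 : ℕ) : ℚ_[13]) := by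
    rw [map_natCast]
    norm_num
  rw [h1, norm_algebraMap', Padic.norm_natCast_eq_one_iff]
  decide

theorem d13p_io (l : ℕ) : io 13 (zero13 l) = (27 : C13) ^ (12 * l) - 1 := by
  unfold zero13
  rw [map_sub, map_pow, map_one, map_ofNat]

/-- The norm of the ghost coefficient. -/
theorem norm_ghostG13 {c : ℕ} (hc : c ≤ 5) {w : C13} (hw : ‖w‖ < 1) (n : ℕ) :
    ‖ghostG 13 c (729 ^ c * (1 + w) - 1) n‖ =
      ∏ l ∈ Finset.range (n + 1), ‖w - io 13 (zero13 l)‖ ^ multG 13 n (2 * c + 12 * l) := by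
  classical
  have _ := hw
  have h729 : ‖((729 : C13)) ^ c‖ = 1 := by
    rw [show (729 : C13) = 27 ^ 2 by norm_num, norm_pow, norm_pow, d13p_norm_27, one_pow,
      one_pow]
  have hfac : ∀ l, (729 : C13) ^ c * (1 + w) - 1 -
      ((1 + 2 * ((13 : ℕ) : C13)) ^ (2 * c + 12 * l) - 1) = 729 ^ c * (w - io 13 (zero13 l)) := by
    intro l
    rw [d13p_io, show (1 + 2 * ((13 : ℕ) : C13)) = 27 by norm_num, pow_add, pow_mul,
      show ((27 : C13) ^ 2) = 729 by norm_num]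
    ring
  have hprod : ghostG 13 c ((729 : C13) ^ c * (1 + w) - 1) n =
      ∏ l ∈ Finset.range (n + 1),
        ((729 : C13) ^ c * (w - io 13 (zero13 l))) ^ multG 13 n (2 * c + 12 * l) := by
    unfold ghostG
    rw [finprod_eq_prod_of_mulSupport_subset
      (s := (Finset.range (n + 1)).image fun l => 2 * c + 12 * l)]
    · rw [Finset.prod_image (fun a _ b _ h => by simpa using h)]
      refine Finset.prod_congr rfl fun l _ => ?_
      rw [if_pos, hfac]
      refine ⟨?_, ?_⟩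
      · rw [Nat.even_iff]
        omega
      · unfold Nat.ModEq
        omega
    · intro k hk
      rw [Function.mem_mulSupport] at hk
      by_cases hev : Even k ∧ k ≡ 2 * c [MOD 13 - 1]
      · rw [if_pos hev] at hk
        obtain ⟨hev1, hev2⟩ := hev
        unfold Nat.ModEq at hev2
        have hk2 : k = 2 * c + 12 * (k / 12) := by omega
        rw [Finset.coe_image, Set.mem_image]
        refine ⟨k / 12, ?_, hk2.symm⟩
        rw [Finset.mem_coe, Finset.mem_range]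
        by_contra hcon
        apply hk
        rw [hk2, multG13_supp hc n _ (by omega), pow_zero]
      · rw [if_neg hev] at hk
        exact absurd rfl hk
  rw [hprod, norm_prod]
  refine Finset.prod_congr rfl fun l _ => ?_
  rw [norm_pow, norm_mul, h729, one_mul]

/-- The norm of the ghost coefficient on the central disc. -/
theorem norm_ghostG13_wx {c : ℕ} (hc : c ≤ 5) {x : C13} (hx : ‖x‖ ≤ 1) (n : ℕ) :
    ‖ghostG 13 c (729 ^ c * (1 + wx13 x) - 1) n‖ =
      ∏ l ∈ Finset.range (n + 1), (‖x - (l : C13)‖ / 13) ^ multG 13 n (2 * c + 12 * l) := by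
  have hw : ‖wx13 x‖ < 1 := by
    rw [norm_wx13 hx]
    linarith
  rw [norm_ghostG13 hc hw n]
  refine Finset.prod_congr rfl fun l _ => ?_
  have h2 : io 13 (zero13 l) = wx13 ((l : ℕ) : C13) := by
    rw [d13p_io, wx13_natCast, pow_mul]
  rw [h2, norm_wx13_sub hx (IsUltrametricDist.norm_natCast_le_one C13 _)]

end D13

end GH
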