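import Pool.Agent.GH.D13.Base13
import Pool.Agent.GH.OrdP

open PowerSeries Filter Topology

noncomputable section

namespace GH

namespace D13

/-! The Eisenstein eigenvector of `U_13` of weight `12x`, analytic in `x`. -/

/-- `u n x`, `n ≥ 0`, is the eigenvector with eigenvalue `1` of the matrix `Mat13 0 x`. -/
structure OrdVec13 (u : ℕ → C13 → C13) : Prop where
  eqs : ∀ x : C13, ‖x‖ ≤ 1 → u 0 x = 1 ∧ (∀ n, ‖u n x‖ * (7 / 6 : ℝ) ^ n ≤ 1) ∧
        ∀ i, u i x = ∑ j ∈ Finset.range (13 * i + 1), Mat13 0 x i j * u j x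
  tate : ∀ n, IsTate (u n)
  uniq : ∀ x : C13, ‖x‖ ≤ 1 → ∀ v : ℕ → C13, v 0 = 1 →
        (∃ B : ℝ, ∀ n, ‖v n‖ * (7 / 6 : ℝ) ^ n ≤ B) →
        (∀ i, v i = ∑ j ∈ Finset.range (13 * i + 1), Mat13 0 x i j * v j) →
        ∀ n, v n = u n x

/-- A function of the Tate class close to a unit has an inverse in the Tate class. -/
theorem d13o_isTate_inv {K : Type*} [NormedField K] [IsUltrametricDist K] [CompleteSpace K]
    {F : K → K} (hF : IsTate F) {c : K} (hc : ‖c‖ = 1) {δ : ℝ} (hδ : δ < 1)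
    (h : ∀ x, ‖x‖ ≤ 1 → ‖F x - c‖ ≤ δ) : IsTate fun x => (F x)⁻¹ := by
  have hc0 : c ≠ 0 := by
    intro h0
    rw [h0, norm_zero] at hc
    exact zero_ne_one hc
  have hδ0 : 0 ≤ δ := (norm_nonneg _).trans (h 0 (by simp))
  have h1 : IsTate fun x : K => 1 - F x * c⁻¹ := (IsTate.const 1).sub (hF.mul (IsTate.const c⁻¹))
  have h2 : ∀ x : K, ‖x‖ ≤ 1 → ‖1 - F x * c⁻¹‖ ≤ δ := by
    intro x hx
    have h3 : 1 - F x * c⁻¹ = (-(F x - c)) * c⁻¹ := by
      field_simp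
      ring
    rw [h3, norm_mul, norm_neg, norm_inv, hc, inv_one, mul_one]
    exact h x hx
  have h4 : IsTate fun x : K => ∑' n : ℕ, (1 - F x * c⁻¹) ^ n := by
    refine IsTate.tsum (b := fun n : ℕ => δ ^ n) ?_ (fun n => h1.pow n) (fun n x hx => ?_)
    · rw [Nat.cofinite_eq_atTop]
      exact tendsto_pow_atTop_nhds_zero_of_lt_one hδ0 hδ
    · rw [norm_pow]
      exact pow_le_pow_left₀ (norm_nonneg _) (h2 x hx) n
  refine (h4.mul (IsTate.const c⁻¹)).congr fun x hx => ?_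
  rw [tsum_geometric_of_norm_lt_one (lt_of_le_of_lt (h2 x hx) hδ), sub_sub_cancel, mul_inv,
    inv_inv, mul_assoc, mul_inv_cancel₀ hc0, mul_one]

theorem d13o_inv (n : ℕ) : (6 / 7 : ℝ) ^ n * (7 / 6 : ℝ) ^ n = 1 := by
  rw [← mul_pow]
  norm_num

theorem d13o_seven : ‖(-7 : C13)‖ = 1 := by
  rw [norm_neg]
  have h : (7 : C13) = algebraMap ℚ_[13] C13 ((7 : ℕ) : ℚ_[13]) := by
    rw [map_natCast]
    norm_num
  rw [h, norm_algebraMap', Padic.norm_natCast_eq_one_iff]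
  norm_num

/-- The matrix with row one divided by `1 - M_11`. -/
def d13o_mat (M : ℕ → ℕ → C13) (i j : ℕ) : C13 :=
  if i = 1 then (if j = 1 then 0 else M 1 j * (1 - M 1 1)⁻¹) else M i j

theorem d13o_norm {M : ℕ → ℕ → C13} (h11 : ‖M 1 1 - 8‖ ≤ 13⁻¹) : ‖1 - M 1 1‖ = 1 := by
  have h1 : 1 - M 1 1 = -7 - (M 1 1 - 8) := by ring
  rw [h1, norm_sub_of_lt, d13o_seven]
  rw [d13o_seven]
  exact lt_of_le_of_lt h11 (by norm_num)

theorem d13o_contr (M : ℕ → ℕ → C13) (h0 : M 0 0 = 1)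
    (hle : ∀ i j : ℕ, j ≤ 13 * i →
      ‖M i j‖ * (7 / 6 : ℝ) ^ (13 * i - j) ≤ (7 / 6 : ℝ) ^ 14)
    (hone : ∀ j : ℕ, ‖M 1 j‖ ≤ 1) (h11 : ‖M 1 1 - 8‖ ≤ 13⁻¹) (h10 : ‖M 1 0‖ ≤ 13⁻¹) :
    OP.Contr (d13o_mat M) 13 (6 / 7) (6 / 7) where
  ρ0 := by norm_num
  ρ1 := by norm_num
  δ0 := by norm_num
  δ1 := by norm_num
  c00 := by
    unfold d13o_mat
    rw [if_neg (by norm_num)]
    exact h0
  ent := by
    intro i j hj hij
    unfold d13o_mat
    split_ifs with hi hj1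
    · rw [norm_zero, zero_mul]
      positivity
    · rw [norm_mul, norm_inv, d13o_norm h11, inv_one, mul_one, hi, pow_one]
      calc ‖M 1 j‖ * (6 / 7 : ℝ) ^ j ≤ 1 * (6 / 7 : ℝ) ^ j :=
            mul_le_mul_of_nonneg_right (hone j) (by positivity)
        _ ≤ 1 * (6 / 7 : ℝ) ^ 2 := by
            refine mul_le_mul_of_nonneg_left ?_ (by norm_num)
            exact pow_le_pow_of_le_one (by norm_num) (by norm_num) (by omega)
        _ ≤ 6 / 7 * (6 / 7) := by norm_num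
    · have hi2 : 2 ≤ i := by
        rcases Nat.eq_zero_or_pos i with h | h
        · subst h
          omega
        · omega
      have h1 := hle i j hij
      have h2 : ‖M i j‖ ≤ (7 / 6 : ℝ) ^ 14 * (6 / 7 : ℝ) ^ (13 * i - j) := by
        calc ‖M i j‖ = ‖M i j‖ * (7 / 6 : ℝ) ^ (13 * i - j) * (6 / 7 : ℝ) ^ (13 * i - j) := by
              rw [mul_assoc, mul_comm ((7 / 6 : ℝ) ^ (13 * i - j)), d13o_inv, mul_one]
          _ ≤ _ := mul_le_mul_of_nonneg_right h1 (by positivity)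
      have h3 : ‖M i j‖ * (6 / 7 : ℝ) ^ j ≤
          (7 / 6 : ℝ) ^ 14 * (6 / 7 : ℝ) ^ (13 * i - j) * (6 / 7 : ℝ) ^ j :=
        mul_le_mul_of_nonneg_right h2 (by positivity)
      refine h3.trans ?_
      have h4 : 13 * i - j + j = 14 + (13 * i - 14) := by omega
      rw [mul_assoc, ← pow_add, h4, pow_add, ← mul_assoc, mul_comm ((7 / 6 : ℝ) ^ 14), d13o_inv,
        one_mul, ← pow_succ']
      exact pow_le_pow_of_le_one (by norm_num) (by norm_num) (by omega)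
  col := by
    intro i hi
    unfold d13o_mat
    split_ifs with hi1 h01
    · rw [norm_zero]
      positivity
    · rw [norm_mul, norm_inv, d13o_norm h11, inv_one, mul_one, hi1, pow_one]
      exact h10.trans (by norm_num)
    · have h1 := hle i 0 (Nat.zero_le _)
      rw [Nat.sub_zero] at h1
      have h2 : ‖M i 0‖ ≤ (7 / 6 : ℝ) ^ 14 * (6 / 7 : ℝ) ^ (13 * i) := by
        calc ‖M i 0‖ = ‖M i 0‖ * (7 / 6 : ℝ) ^ (13 * i) * (6 / 7 : ℝ) ^ (13 * i) := by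
              rw [mul_assoc, mul_comm ((7 / 6 : ℝ) ^ (13 * i)), d13o_inv, mul_one]
          _ ≤ _ := mul_le_mul_of_nonneg_right h1 (by positivity)
      refine h2.trans ?_
      have h4 : 13 * i = 14 + (13 * i - 14) := by omega
      rw [h4, pow_add, ← mul_assoc, mul_comm ((7 / 6 : ℝ) ^ 14), d13o_inv, one_mul]
      exact pow_le_pow_of_le_one (by norm_num) (by norm_num) (by omega)

/-- The fixed vector equations of the two matrices are equivalent. -/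
theorem d13o_fix {M : ℕ → ℕ → C13} (h11 : ‖M 1 1 - 8‖ ≤ 13⁻¹) (v : ℕ → C13) :
    (∀ i, v i = ∑ j ∈ Finset.range (13 * i + 1), d13o_mat M i j * v j) ↔
      ∀ i, v i = ∑ j ∈ Finset.range (13 * i + 1), M i j * v j := by
  have hne : 1 - M 1 1 ≠ 0 := by
    intro h
    have h1 := d13o_norm h11
    rw [h, norm_zero] at h1
    exact zero_ne_one h1
  have key : ∑ j ∈ Finset.range (13 * 1 + 1), d13o_mat M 1 j * v j =
      (∑ j ∈ Finset.range (13 * 1 + 1), M 1 j * v j - M 1 1 * v 1) * (1 - M 1 1)⁻¹ := by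
    have h1 : ∀ j, d13o_mat M 1 j * v j =
        (M 1 j * v j - if j = 1 then M 1 1 * v 1 else 0) * (1 - M 1 1)⁻¹ := by
      intro j
      unfold d13o_mat
      rw [if_pos rfl]
      split_ifs with h
      · rw [h]
        ring
      · ring
    rw [Finset.sum_congr rfl fun j _ => h1 j, ← Finset.sum_mul, Finset.sum_sub_distrib,
      Finset.sum_ite_eq', if_pos (by norm_num)]
  have hrow : (v 1 = ∑ j ∈ Finset.range (13 * 1 + 1), d13o_mat M 1 j * v j) ↔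
      v 1 = ∑ j ∈ Finset.range (13 * 1 + 1), M 1 j * v j := by
    rw [key, eq_mul_inv_iff_mul_eq₀ hne]
    constructor
    · intro h
      linear_combination h
    · intro h
      linear_combination h
  constructor
  · intro h i
    rcases eq_or_ne i 1 with hi | hi
    · subst hi
      exact hrow.1 (h 1)
    · rw [h i]
      refine Finset.sum_congr rfl fun j _ => ?_
      unfold d13o_mat
      rw [if_neg hi]
  · intro h i
    rcases eq_or_ne i 1 with hi | hi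
    · subst hi
      exact hrow.2 (h 1)
    · rw [h i]
      refine Finset.sum_congr rfl fun j _ => ?_
      unfold d13o_mat
      rw [if_neg hi]

theorem exists_ord13
    (h0 : ∀ x : C13, Mat13 0 x 0 0 = 1)
    (hle : ∀ x : C13, ‖x‖ ≤ 1 → ∀ i j : ℕ, j ≤ 13 * i →
      ‖Mat13 0 x i j‖ * (7 / 6 : ℝ) ^ (13 * i - j) ≤ (7 / 6 : ℝ) ^ 14)
    (hone : ∀ x : C13, ‖x‖ ≤ 1 → ∀ j : ℕ, ‖Mat13 0 x 1 j‖ ≤ 1)
    (h11 : ∀ x : C13, ‖x‖ ≤ 1 → ‖Mat13 0 x 1 1 - 8‖ ≤ 13⁻¹)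
    (h10 : ∀ x : C13, ‖x‖ ≤ 1 → ‖Mat13 0 x 1 0‖ ≤ 13⁻¹)
    (hpoly : ∀ i j : ℕ, ∃ P : Polynomial C13, ∀ x : C13, Mat13 0 x i j = P.eval x) :
    ∃ u : ℕ → C13 → C13, OrdVec13 u := by
  have hc : ∀ y : C13, ‖y‖ ≤ 1 →
      OP.Contr (d13o_mat (fun i j => Mat13 0 y i j)) 13 (6 / 7) (6 / 7) :=
    fun y hy => d13o_contr _ (h0 y) (hle y hy) (hone y hy) (h11 y hy) (h10 y hy)
  have hentry : ∀ i j, IsTate fun y : C13 => Mat13 0 y i j := by
    intro i j
    obtain ⟨P, hP⟩ := hpoly i j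
    exact (IsTate.poly P).congr fun y _ => (hP y).symm
  have hinv : IsTate fun y : C13 => (1 - Mat13 0 y 1 1)⁻¹ := by
    refine d13o_isTate_inv ((IsTate.const 1).sub (hentry 1 1)) d13o_seven
      (by norm_num : (13 : ℝ)⁻¹ < 1) fun x hx => ?_
    have h1 : 1 - Mat13 0 x 1 1 - -7 = -(Mat13 0 x 1 1 - 8) := by ring
    rw [h1, norm_neg]
    exact h11 x hx
  have hentry' : ∀ i j, IsTate fun y : C13 => d13o_mat (fun i j => Mat13 0 y i j) i j := by
    intro i j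
    unfold d13o_mat
    split_ifs
    · exact IsTate.const 0
    · exact (hentry 1 j).mul hinv
    · exact hentry i j
  refine ⟨fun i y => OP.fx (d13o_mat (fun i j => Mat13 0 y i j)) 13 i,
    ⟨fun y hy => ⟨OP.fx_zero _ _, fun n => ?_, ?_⟩,
    fun n => ?_, fun y hy v hv0 hvB hv n => ?_⟩⟩
  · calc ‖OP.fx (d13o_mat (fun i j => Mat13 0 y i j)) 13 n‖ * (7 / 6 : ℝ) ^ n
        ≤ (6 / 7 : ℝ) ^ n * (7 / 6 : ℝ) ^ n :=
          mul_le_mul_of_nonneg_right ((hc y hy).fx_bound n) (by positivity)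
      _ = 1 := d13o_inv n
  · exact (d13o_fix (M := fun i j => Mat13 0 y i j) (h11 y hy) _).1 (fun i => (hc y hy).fx_eq i)
  · exact OP.isTate_fx (fun y => d13o_mat (fun i j => Mat13 0 y i j)) 13 hc hentry' n
  · obtain ⟨B, hB⟩ := hvB
    refine (hc y hy).unique v hv0 (B := B) (fun m => ?_)
      ((d13o_fix (M := fun i j => Mat13 0 y i j) (h11 y hy) v).2 hv) n
    calc ‖v m‖ = (‖v m‖ * (7 / 6 : ℝ) ^ m) * (6 / 7 : ℝ) ^ m := by
          rw [mul_assoc, mul_comm ((7 / 6 : ℝ) ^ m), d13o_inv, mul_one]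
      _ ≤ B * (6 / 7 : ℝ) ^ m := mul_le_mul_of_nonneg_right (hB m) (by positivity)

end D13

end GH
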