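import Pool.Agent.GH.D13.ClE13
import Pool.Agent.GH.D13.UBound13
import Pool.Agent.GH.D7.Stab7

/-! The stabilised Eisenstein series. -/

open PowerSeries Filter Topology

noncomputable section

namespace GH

namespace D13

open GP DP

/-! ### bounded power series -/

/-- bounded on the disc of radius `r` -/
def D13kBd (r : ℝ) (u : PowerSeries C13) : Prop :=
  ∃ B : ℝ, ∀ n, ‖PowerSeries.coeff n u‖ * r ^ n ≤ B

theorem d13k_add {r : ℝ} (hr : 0 ≤ r) {u v : PowerSeries C13} (hu : D13kBd r u)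
    (hv : D13kBd r v) : D13kBd r (u + v) := by
  obtain ⟨A, hA⟩ := hu
  obtain ⟨B, hB⟩ := hv
  refine ⟨A + B, fun n => ?_⟩
  rw [map_add]
  have h1 : ‖PowerSeries.coeff n u + PowerSeries.coeff n v‖ * r ^ n ≤
      (‖PowerSeries.coeff n u‖ + ‖PowerSeries.coeff n v‖) * r ^ n :=
    mul_le_mul_of_nonneg_right (norm_add_le _ _) (pow_nonneg hr n)
  have h2 := hA n
  have h3 := hB n
  rw [add_mul] at h1
  linarith

theorem d13k_mul {r : ℝ} (hr : 0 < r) {u v : PowerSeries C13} (hu : D13kBd r u)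
    (hv : D13kBd r v) : D13kBd r (u * v) := by
  obtain ⟨A, hA⟩ := hu
  obtain ⟨B, hB⟩ := hv
  have hA0 : 0 ≤ A := le_trans (mul_nonneg (norm_nonneg _) (pow_nonneg hr.le 0)) (hA 0)
  have hB0 : 0 ≤ B := le_trans (mul_nonneg (norm_nonneg _) (pow_nonneg hr.le 0)) (hB 0)
  refine ⟨A * B, fun n => ?_⟩
  rw [← le_div_iff₀ (pow_pos hr n), PowerSeries.coeff_mul]
  refine IsUltrametricDist.norm_sum_le_of_forall_le_of_nonneg
    (div_nonneg (mul_nonneg hA0 hB0) (pow_nonneg hr.le n)) fun ij hij => ?_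
  rw [Finset.HasAntidiagonal.mem_antidiagonal] at hij
  rw [norm_mul, le_div_iff₀ (pow_pos hr n), ← hij, pow_add]
  calc ‖PowerSeries.coeff ij.1 u‖ * ‖PowerSeries.coeff ij.2 v‖ * (r ^ ij.1 * r ^ ij.2)
      = (‖PowerSeries.coeff ij.1 u‖ * r ^ ij.1) * (‖PowerSeries.coeff ij.2 v‖ * r ^ ij.2) := by
        ring
    _ ≤ A * B := mul_le_mul (hA _) (hB _)
        (mul_nonneg (norm_nonneg _) (pow_nonneg hr.le _)) hA0

theorem d13k_C (r : ℝ) (a : C13) : D13kBd r (C a) := by
  refine ⟨‖a‖, fun n => ?_⟩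
  rw [PowerSeries.coeff_C]
  split_ifs with h
  · rw [h, pow_zero, mul_one]
  · rw [norm_zero, zero_mul]
    exact norm_nonneg _

theorem d13k_X (r : ℝ) (hr : 0 ≤ r) : D13kBd r (X : PowerSeries C13) := by
  refine ⟨r, fun n => ?_⟩
  rw [PowerSeries.coeff_X]
  split_ifs with h
  · rw [h, pow_one, norm_one, one_mul]
  · rw [norm_zero, zero_mul]
    exact hr

theorem d13k_one (r : ℝ) : D13kBd r (1 : PowerSeries C13) := by
  have h := d13k_C r 1
  rwa [map_one] at h

theorem d13k_pow {r : ℝ} (hr : 0 < r) {u : PowerSeries C13} (hu : D13kBd r u) (m : ℕ) :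
    D13kBd r (u ^ m) := by
  induction m with
  | zero =>
    rw [pow_zero]
    exact d13k_one r
  | succ m ih =>
    rw [pow_succ]
    exact d13k_mul hr ih hu

theorem d13k_sum {r : ℝ} (hr : 0 ≤ r) {ι : Type*} (s : Finset ι) {u : ι → PowerSeries C13}
    (hu : ∀ i ∈ s, D13kBd r (u i)) : D13kBd r (∑ i ∈ s, u i) := by
  classical
  induction s using Finset.induction_on with
  | empty =>
    rw [Finset.sum_empty]
    have h := d13k_C r 0
    rwa [map_zero] at h
  | insert i s hi ih =>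
    rw [Finset.sum_insert hi]
    exact d13k_add hr (hu i (Finset.mem_insert_self i s))
      (ih fun j hj => hu j (Finset.mem_insert_of_mem hj))

theorem d13k_neg {r : ℝ} {u : PowerSeries C13} (hu : D13kBd r u) : D13kBd r (-u) := by
  obtain ⟨A, hA⟩ := hu
  refine ⟨A, fun n => ?_⟩
  rw [map_neg, norm_neg]
  exact hA n

/-! ### the parameters -/

theorem d13k_S (hK : K13) : D13kBd (7 / 6) (S13 C13) := by
  refine ⟨1 + (7 / 6 : ℝ) ^ 14 / 13, fun n => ?_⟩
  rcases Nat.eq_zero_or_pos n with hn | hn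
  · subst hn
    rw [PowerSeries.coeff_zero_eq_constantCoeff_apply, constantCoeff_S13, norm_one, pow_zero,
      mul_one]
    norm_num
  · have := norm_S13_le hK hn
    linarith

theorem d13k_inv : invOfUnit (S13 C13) 1 = ppow (S13 C13) (-1) := by
  have hS := constantCoeff_S13 C13
  have h1 : S13 C13 * invOfUnit (S13 C13) 1 = 1 :=
    PowerSeries.mul_invOfUnit _ _ (by rw [hS]; rfl)
  have h2 : S13 C13 * ppow (S13 C13) (-1) = 1 := by
    have h4 := ub_ppow_nat hS 1
    rw [pow_one] at h4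
    calc S13 C13 * ppow (S13 C13) (-1)
        = ppow (S13 C13) ((1 : ℕ) : C13) * ppow (S13 C13) (-1) := by rw [h4]
      _ = 1 := by
        rw [← ub_ppow_add hS]
        have h3 : ((1 : ℕ) : C13) + -1 = 0 := by push_cast; ring
        rw [h3, ub_ppow_zero hS]
  calc invOfUnit (S13 C13) 1 = (S13 C13 * ppow (S13 C13) (-1)) * invOfUnit (S13 C13) 1 := by
        rw [h2, one_mul]
    _ = (S13 C13 * invOfUnit (S13 C13) 1) * ppow (S13 C13) (-1) := by ring
    _ = _ := by rw [h1, one_mul]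

theorem d13k_g (hK : K13) : D13kBd (7 / 6) (gs13 C13) := by
  unfold gs13
  refine d13k_mul (by norm_num) (d13k_pow (by norm_num) (d13k_X _ (by norm_num)) 13) ?_
  rw [d13k_inv]
  refine ⟨1, fun n => norm_ppow_S13_le hK ?_ n⟩
  rw [norm_neg, norm_one]

/-- polynomials in a series -/
theorem d13k_poly (P : Polynomial ℚ) :
    PowerSeries.map (algebraMap ℚ C13)
      (∑ i ∈ Finset.range (P.natDegree + 1), C (P.coeff i) * hauptmodul 13 ℚ ^ i) =
      ∑ i ∈ Finset.range (P.natDegree + 1),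
        C (algebraMap ℚ C13 (P.coeff i)) * hauptmodul 13 C13 ^ i := by
  rw [map_sum]
  refine Finset.sum_congr rfl fun i _ => ?_
  rw [map_mul, map_pow, map_hauptmodul, PowerSeries.map_C]

theorem d13k_subst (N : ℕ) (c : ℕ → C13) (t : PowerSeries C13) :
    (∑ i ∈ Finset.range N, C (c i) * t ^ i).subst (hauptmodul 13 C13) =
      ∑ i ∈ Finset.range N, C (c i) * (t.subst (hauptmodul 13 C13)) ^ i := by
  have hs : HasSubst (hauptmodul 13 C13) := fx_hasSubst 13
  rw [← PowerSeries.coe_substAlgHom hs, map_sum]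
  refine Finset.sum_congr rfl fun i _ => ?_
  rw [map_mul, map_pow]
  congr 1
  rw [PowerSeries.coe_substAlgHom hs]
  exact PowerSeries.subst_C _

/-- The classical points. -/
theorem stab13 (hK : K13) (m : ℕ) (hm : 1 ≤ m) :
    ∃ u : PowerSeries C13, PowerSeries.coeff 0 u = 1 ∧
      (∃ B : ℝ, ∀ n, ‖PowerSeries.coeff n u‖ * (7 / 6 : ℝ) ^ n ≤ B) ∧
      PowerSeries.map (algebraMap ℚ C13) (eisStabP 13 (12 * m)) =
        phi13 C13 ^ m * u.subst (hauptmodul 13 C13) := by
  obtain ⟨P, hP⟩ := eisQ_eq_phi13 hK m hm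
  have hs : HasSubst (hauptmodul 13 C13) := fx_hasSubst 13
  have hr : (0 : ℝ) < 7 / 6 := by norm_num
  obtain ⟨c, hc⟩ : ∃ c : ℕ → C13, ∀ i, c i = algebraMap ℚ C13 (P.coeff i) := ⟨_, fun _ => rfl⟩
  obtain ⟨Q, hQ⟩ : ∃ Q : PowerSeries C13,
    Q = ∑ i ∈ Finset.range (P.natDegree + 1), C (c i) * X ^ i := ⟨_, rfl⟩
  obtain ⟨G, hG⟩ : ∃ G : PowerSeries C13,
    G = ∑ i ∈ Finset.range (P.natDegree + 1), C (c i) * gs13 C13 ^ i := ⟨_, rfl⟩
  have hQf : Q.subst (hauptmodul 13 C13) =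
      ∑ i ∈ Finset.range (P.natDegree + 1), C (c i) * hauptmodul 13 C13 ^ i := by
    rw [hQ, d13k_subst, PowerSeries.subst_X hs]
  have hGf : G.subst (hauptmodul 13 C13) =
      PowerSeries.expand 13 thirteen_ne (Q.subst (hauptmodul 13 C13)) := by
    rw [hG, d13k_subst, hQf, map_sum]
    refine Finset.sum_congr rfl fun i _ => ?_
    rw [map_mul, map_pow, gs13_subst, PowerSeries.expand_C]
  have hE1 : PowerSeries.map (algebraMap ℚ C13) (eisQ (12 * m)) =
      phi13 C13 ^ m * Q.subst (hauptmodul 13 C13) := by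
    rw [hP, map_mul, map_pow, map_phi13, d13k_poly, hQf]
    congr 1
    exact Finset.sum_congr rfl fun i _ => by rw [hc]
  have hE2 : PowerSeries.map (algebraMap ℚ C13) ((eisQ (12 * m)).expand 13 thirteen_ne) =
      phi13 C13 ^ m * (S13 C13 ^ m * G).subst (hauptmodul 13 C13) := by
    rw [PowerSeries.map_expand, hE1, map_mul, ← hGf, PowerSeries.subst_mul hs,
      PowerSeries.subst_pow hs, map_pow, ← mul_assoc, ← mul_pow, S13_subst]
  have hne : (1 : C13) - 13 ^ (12 * m - 1) ≠ 0 := by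
    intro h0
    have h1 : (1 : C13) = 13 ^ (12 * m - 1) := sub_eq_zero.1 h0
    have h2 : (((1 : ℕ)) : C13) = ((13 ^ (12 * m - 1) : ℕ) : C13) := by push_cast; exact h1
    have h3 : 1 = 13 ^ (12 * m - 1) := Nat.cast_injective h2
    have h4 : 13 ^ 1 ≤ 13 ^ (12 * m - 1) := Nat.pow_le_pow_right (by norm_num) (by omega)
    omega
  obtain ⟨a, ha⟩ : ∃ a : C13, a = (1 : C13) - 13 ^ (12 * m - 1) := ⟨_, rfl⟩
  obtain ⟨d, hd⟩ : ∃ d : C13, d = (13 : C13) ^ (12 * m - 1) := ⟨_, rfl⟩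
  rw [← ha] at hne
  have hcc : algebraMap ℚ C13 ((1 : ℚ) - ((13 : ℕ) : ℚ) ^ (12 * m - 1)) = a := by
    rw [ha]; simp
  have hdd : algebraMap ℚ C13 (((13 : ℕ) : ℚ) ^ (12 * m - 1)) = d := by
    rw [hd]; simp
  have hS1 := congrArg (PowerSeries.map (algebraMap ℚ C13)) (D7.eisStabP_eq 13 (12 * m) (by omega))
  rw [map_mul, PowerSeries.map_C, hcc, map_sub (PowerSeries.map (algebraMap ℚ C13)),
    map_mul (PowerSeries.map (algebraMap ℚ C13)), PowerSeries.map_C, hdd, hE2, hE1] at hS1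
  have hCs : ∀ (b : C13) (w : PowerSeries C13),
      (C b * w).subst (hauptmodul 13 C13) = C b * w.subst (hauptmodul 13 C13) := by
    intro b w
    rw [PowerSeries.subst_mul hs]
    exact congrArg (fun z => z * w.subst (hauptmodul 13 C13)) (PowerSeries.subst_C b)
  have heq : PowerSeries.map (algebraMap ℚ C13) (eisStabP 13 (12 * m)) =
      phi13 C13 ^ m * (C a⁻¹ * (Q - C d * (S13 C13 ^ m * G))).subst (hauptmodul 13 C13) := by
    rw [hCs, PowerSeries.subst_sub hs, hCs]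
    have h1 : (C a⁻¹ : PowerSeries C13) * C a = 1 := by
      rw [← map_mul, inv_mul_cancel₀ hne, map_one]
    calc PowerSeries.map (algebraMap ℚ C13) (eisStabP 13 (12 * m))
        = (C a⁻¹ * C a) * PowerSeries.map (algebraMap ℚ C13) (eisStabP 13 (12 * m)) := by
          rw [h1, one_mul]
      _ = C a⁻¹ * (C a * PowerSeries.map (algebraMap ℚ C13) (eisStabP 13 (12 * m))) := by ring
      _ = _ := by rw [hS1]; ring
  refine ⟨C a⁻¹ * (Q - C d * (S13 C13 ^ m * G)), ?_, ?_, heq⟩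
  · have h1 := congrArg (PowerSeries.constantCoeff) heq
    rw [map_mul, map_pow, constantCoeff_phi13, one_pow, one_mul,
      ← PowerSeries.coeff_zero_eq_constantCoeff_apply,
      ← PowerSeries.coeff_zero_eq_constantCoeff_apply, fx_coeff_subst, PowerSeries.coeff_map,
      Finset.sum_range_zero, zero_add] at h1
    rw [← h1]
    unfold eisStabP
    rw [map_add, PowerSeries.coeff_mk]
    simp
  · have hQb : D13kBd (7 / 6) Q := by
      rw [hQ]
      exact d13k_sum hr.le _ fun i _ => d13k_mul hr (d13k_C _ _) (d13k_pow hr (d13k_X _ hr.le) i)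
    have hGb : D13kBd (7 / 6) G := by
      rw [hG]
      exact d13k_sum hr.le _ fun i _ => d13k_mul hr (d13k_C _ _) (d13k_pow hr (d13k_g hK) i)
    refine d13k_mul hr (d13k_C _ _) ?_
    rw [sub_eq_add_neg]
    exact d13k_add hr.le hQb (d13k_neg (d13k_mul hr (d13k_C _ _)
      (d13k_mul hr (d13k_pow hr (d13k_S hK) m) hGb)))

end D13

end GH
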