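import Pool.Agent.GH.D13.UMat13B
import Pool.Agent.GH.D13.UBound13
import Pool.Agent.GH.D13.Stab13
import Pool.Agent.GH.D13.Param13
import Pool.Agent.GH.D13.Ord13
import Pool.Agent.GH.DP.ZCharP

open PowerSeries Filter Topology

noncomputable section

namespace GH

namespace D13

open GP DP

/-! On the central disc `E_{κ₀} = φ^{2x} u_x(f)`. -/

theorem d13n_U_evSp (w : C13) (E : PowerSeries (PowerSeries ℤ_[13])) :
    U 13 (evSp w E) = evSp w (U 13 E) := by
  ext n
  unfold U evSp
  rw [PowerSeries.coeff_mk, PowerSeries.coeff_mk, PowerSeries.coeff_mk, PowerSeries.coeff_mk]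

theorem d13n_U_phi (hK : K13) (x : C13) (u : PowerSeries C13) :
    U 13 (phiPow13 x * u.subst (hauptmodul 13 C13)) =
      phiPow13 x * (PowerSeries.mk fun i ↦
        ∑ j ∈ Finset.range (13 * i + 1), Mat13 0 x i j * PowerSeries.coeff j u).subst
        (hauptmodul 13 C13) := by
  have h := U_frm13_subst hK (Nat.zero_le 5) x u
  have h1 : dser13 C13 0 = 1 := rfl
  rw [h1, mul_one] at h
  exact h

/-- The identity at the classical weights. -/
theorem d13n_nat (hK : K13) (E : PowerSeries (PowerSeries ℤ_[13])) (hE : EisFamilyP E)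
    (u : ℕ → C13 → C13) (hu : OrdVec13 u) (m : ℕ) (hm : 1 ≤ m) :
    evSp (wx13 (m : C13)) E = phiPow13 (m : C13) *
      (PowerSeries.mk fun n ↦ u n (m : C13)).subst (hauptmodul 13 C13) := by
  obtain ⟨v, hv0, hvB, hv⟩ := stab13 hK m hm
  obtain ⟨x, hx⟩ : ∃ x : C13, x = (m : C13) := ⟨_, rfl⟩
  have hx1 : ‖x‖ ≤ 1 := by
    rw [hx]
    exact IsUltrametricDist.norm_natCast_le_one C13 _
  have hw : wx13 (m : C13) = (1 + 2 * ((13 : ℕ) : PadicComplex 13)) ^ ((13 - 1) * m) - 1 := by
    rw [wx13_natCast, show (13 - 1) * m = 12 * m by omega, pow_mul (1 + 2 * _) 12 m]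
    norm_num
  have h1 : evSp (wx13 x) E = phiPow13 x * v.subst (hauptmodul 13 C13) := by
    rw [hx, hw, hE.cls m hm, phiPow13_natCast]
    exact hv
  have h2 : U 13 (evSp (wx13 x) E) = evSp (wx13 x) E := by rw [d13n_U_evSp, hE.eig]
  rw [h1, d13n_U_phi hK] at h2
  have h0 : phiPow13 x ≠ 0 := by
    intro h
    have h3 := congrArg PowerSeries.constantCoeff h
    rw [constantCoeff_phiPow13, map_zero] at h3
    exact one_ne_zero h3
  have h3 := mul_left_cancel₀ h0 h2
  have h4 : ∀ i, PowerSeries.coeff i v = ∑ j ∈ Finset.range (13 * i + 1),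
      Mat13 0 x i j * PowerSeries.coeff j v := by
    intro i
    have h5 := congrArg (fun F => fcoeff 13 F i) h3
    simp only [fcoeff_subst, PowerSeries.coeff_mk] at h5
    exact h5.symm
  have h5 : v = PowerSeries.mk fun n ↦ u n x := by
    ext n
    rw [PowerSeries.coeff_mk]
    exact hu.uniq x hx1 (fun n => PowerSeries.coeff n v) hv0 hvB h4 n
  rw [← hx, h1, ← h5]

theorem d13n_tate_binS (m : ℕ) : IsTate fun x : C13 ↦ PowerSeries.coeff m (binS x) := by
  have h : (fun x : C13 ↦ PowerSeries.coeff m (binS x)) =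
      fun x : C13 ↦ (∏ i ∈ Finset.range m, (x - (i : C13))) * ((m.factorial : C13))⁻¹ := by
    funext x
    unfold binS
    rw [PowerSeries.coeff_mk, div_eq_mul_inv]
  rw [h]
  exact IsTate.mul (IsTate.prod _ fun i _ => IsTate.sub IsTate.id (IsTate.const _))
    (IsTate.const _)

theorem d13n_coeff_phiPow (x : C13) (n : ℕ) : PowerSeries.coeff n (phiPow13 x) =
    ∑ m ∈ Finset.range (n + 1), PowerSeries.coeff m (binS x) *
      PowerSeries.coeff n ((phi13 C13 - 1) ^ m) := by
  have h0 : PowerSeries.constantCoeff (phi13 C13 - 1) = 0 := by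
    rw [map_sub, constantCoeff_phi13, map_one, sub_self]
  have hs : HasSubst (phi13 C13 - 1) := HasSubst.of_constantCoeff_zero' h0
  unfold phiPow13 ppow
  rw [PowerSeries.coeff_subst' hs, finsum_eq_sum_of_support_subset (s := Finset.range (n + 1))]
  · exact Finset.sum_congr rfl fun m _ => by rw [smul_eq_mul]
  · intro m hm
    rw [Function.mem_support] at hm
    rw [Finset.coe_range, Set.mem_Iio]
    by_contra h
    refine hm ?_
    have h1 : (X : PowerSeries C13) ^ m ∣ (phi13 C13 - 1) ^ m :=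
      pow_dvd_pow_of_dvd (PowerSeries.X_dvd_iff.2 h0) m
    rw [PowerSeries.X_pow_dvd_iff.1 h1 n (by omega), smul_zero]

theorem d13n_tate_phiPow (n : ℕ) : IsTate fun x : C13 ↦ PowerSeries.coeff n (phiPow13 x) := by
  have h : (fun x : C13 ↦ PowerSeries.coeff n (phiPow13 x)) = fun x ↦
    ∑ m ∈ Finset.range (n + 1), PowerSeries.coeff m (binS x) *
      PowerSeries.coeff n ((phi13 C13 - 1) ^ m) := by
    funext x
    exact d13n_coeff_phiPow x n
  rw [h]
  exact IsTate.sum _ fun m _ => IsTate.mul (d13n_tate_binS m) (IsTate.const _)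

theorem d13n_tate_subst (u : ℕ → C13 → C13) (hu : ∀ n, IsTate (u n)) (n : ℕ) :
    IsTate fun x : C13 ↦ PowerSeries.coeff n
      ((PowerSeries.mk fun n ↦ u n x).subst (hauptmodul 13 C13) : PowerSeries C13) := by
  have h : (fun x : C13 ↦ PowerSeries.coeff n
      ((PowerSeries.mk fun n ↦ u n x).subst (hauptmodul 13 C13) : PowerSeries C13)) = fun x ↦
      (∑ m ∈ Finset.range n, u m x * PowerSeries.coeff n (hauptmodul 13 C13 ^ m)) + u n x := by
    funext x
    rw [fx_coeff_subst]
    simp only [PowerSeries.coeff_mk]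
  rw [h]
  exact IsTate.add (IsTate.sum _ fun m _ => IsTate.mul (hu m) (IsTate.const _)) (hu n)

theorem evSp_eisFam13 (hK : K13) (E : PowerSeries (PowerSeries ℤ_[13])) (hE : EisFamilyP E)
    (u : ℕ → C13 → C13) (hu : OrdVec13 u) (x : C13) (hx : ‖x‖ ≤ 1) :
    evSp (wx13 x) E = phiPow13 x * (PowerSeries.mk fun n ↦ u n x).subst (hauptmodul 13 C13) := by
  ext n
  have hT : IsTate fun x : C13 ↦ PowerSeries.coeff n (evSp (wx13 x) E) -
      PowerSeries.coeff n (phiPow13 x *
        (PowerSeries.mk fun n ↦ u n x).subst (hauptmodul 13 C13)) := by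
    refine IsTate.sub ?_ ?_
    · have h : (fun x : C13 ↦ PowerSeries.coeff n (evSp (wx13 x) E)) =
          fun x ↦ evp (wx13 x) (PowerSeries.coeff n E) := by
        funext x
        unfold evSp
        rw [PowerSeries.coeff_mk]
      rw [h]
      exact isTate_evp_wx13 _
    · have h : (fun x : C13 ↦ PowerSeries.coeff n (phiPow13 x *
          (PowerSeries.mk fun n ↦ u n x).subst (hauptmodul 13 C13))) = fun x ↦
          ∑ p ∈ Finset.HasAntidiagonal.antidiagonal n, PowerSeries.coeff p.1 (phiPow13 x) *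
            PowerSeries.coeff p.2 ((PowerSeries.mk fun n ↦ u n x).subst (hauptmodul 13 C13) :
              PowerSeries C13) := by
        funext x
        rw [PowerSeries.coeff_mul]
      rw [h]
      exact IsTate.sum _ fun p _ =>
        IsTate.mul (d13n_tate_phiPow p.1) (d13n_tate_subst u hu.tate p.2)
  have hS : (Set.range fun m : ℕ => ((m + 1 : ℕ) : C13)).Infinite := by
    refine Set.infinite_range_of_injective fun a b hab => ?_
    have h : a + 1 = b + 1 := Nat.cast_injective hab
    omega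
  have h := hT.eq_zero_of_infinite (hS.mono (by
      rintro _ ⟨m, rfl⟩
      refine ⟨IsUltrametricDist.norm_natCast_le_one C13 _, ?_⟩
      have h1 := d13n_nat hK E hE u hu (m + 1) (by omega)
      simp only []
      rw [h1, sub_self])) hx
  exact sub_eq_zero.1 h

end D13

end GH
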