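import Pool.Agent.GH.D13.K13_b

/-! `E_4³` in terms of `φ²` and `f`. -/

open PowerSeries Filter Topology

noncomputable section

namespace GH

namespace D13

open GH.E4 GH.D3
open Complex (I exp)

theorem d13c_map_phi : c2m (phi13 ℚ) = phi13 ℂ := by
  rw [phi13, phi13, map_mul, map_pow, map_pow, map_euler, map_eulerInv]

theorem d13c_map_A : c2m (phi13 ℚ *
    (p3x (hauptmodul 13 ℚ) * e4x (hauptmodul 13 ℚ) ^ 3)) = d13c_A := by
  have h2 : c2m (hauptmodul 13 ℚ) = hauptmodul 13 ℂ := map_haupt 13 ℚ ℂ _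
  rw [map_mul, map_mul, map_pow, map_p3x, map_e4x, h2, d13c_map_phi, d13c_A]

theorem d13c_map_B : c2m (phi13 ℚ *
    (p3x (hauptmodul 13 ℚ) * n4x (hauptmodul 13 ℚ) ^ 3)) = d13c_B := by
  have h2 : c2m (hauptmodul 13 ℚ) = hauptmodul 13 ℂ := map_haupt 13 ℚ ℂ _
  rw [map_mul, map_mul, map_pow, map_p3x, map_n4x, h2, d13c_map_phi, d13c_B]

theorem d13c_p3_inv {x : ℂ} (hx : x ≠ 0) : p3x ((13 * x)⁻¹) = p3x x / (13 * x ^ 2) := by
  unfold p3x
  field_simp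
  ring

theorem d13c_e4_inv {x : ℂ} (hx : x ≠ 0) : e4x ((13 * x)⁻¹) = n4x x / x ^ 4 := by
  unfold e4x n4x
  field_simp
  ring

/-- The involution. -/
theorem d13c_W {u : ℂ} (hu : 0 < u.im) :
    d13c_GA (-1 / (13 * u)) = (13 * u) ^ 12 * d13c_GB u := by
  have hf := f13z_ne hu
  rw [d13c_GA, d13c_GB, p13z_W hu, f13z_W hu, d13c_p3_inv hf, d13c_e4_inv hf]
  field_simp

/-- The difference. -/
def d13c_F (z : ℂ) : ℂ := d13c_e z ^ 3 - d13c_GA z

theorem d13c_F_eq {z : ℂ} (hz : 0 < z.im) :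
    d13c_F z = evc (c2m (eisQ 4) ^ 3 - d13c_A) (exp (2 * Real.pi * I * z)) := by
  rw [(d13c_evc_sub (d13c_as_e.pow 3) d13c_as_A).2 (d13c_norm_exp hz), d13c_GA_eq hz,
    evc_pow d13c_as_e 3 (d13c_norm_exp hz)]
  rfl

theorem d13c_F_inv : Inv13 12 d13c_F where
  T z := by
    have h1 := d13c_GA_inv.T z
    rw [d13c_F, d13c_F, d13c_e_T, h1]
  V z hz := by
    have h1 := d13c_GA_inv.V z hz
    have h2 := d13c_e_slash 1 0 13 1 (by norm_num) hz
    push_cast at h2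
    rw [one_mul, add_zero] at h2
    rw [d13c_F, d13c_F, h1, h2]
    ring
  a1 z hz := by
    have h1 := d13c_GA_inv.a1 z hz
    have h2 := d13c_e_slash (-4) (-1) 13 3 (by norm_num) hz
    push_cast at h2
    rw [← sub_eq_add_neg] at h2
    rw [d13c_F, d13c_F, h1, h2]
    ring
  a2 z hz := by
    have h1 := d13c_GA_inv.a2 z hz
    have h2 := d13c_e_slash 4 (-1) 13 (-3) (by norm_num) hz
    push_cast at h2
    rw [← sub_eq_add_neg, ← sub_eq_add_neg] at h2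
    rw [d13c_F, d13c_F, h1, h2]
    ring
  b1 z hz := by
    have h1 := d13c_GA_inv.b1 z hz
    have h2 := d13c_e_slash (-5) (-1) 26 5 (by norm_num) hz
    push_cast at h2
    rw [← sub_eq_add_neg] at h2
    rw [d13c_F, d13c_F, h1, h2]
    ring
  b2 z hz := by
    have h1 := d13c_GA_inv.b2 z hz
    have h2 := d13c_e_slash 5 (-1) 26 (-5) (by norm_num) hz
    push_cast at h2
    rw [← sub_eq_add_neg, ← sub_eq_add_neg] at h2
    rw [d13c_F, d13c_F, h1, h2]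
    ring

theorem d13c_F_inf : ∃ c : ℝ, ∀ z : ℂ, 1 ≤ z.im →
    ‖d13c_F z‖ ≤ c * Real.exp (-2 * Real.pi * (15 : ℕ) * z.im) := by
  have h0 : ∀ n < 15, PowerSeries.coeff n (c2m (eisQ 4) ^ 3 - d13c_A) = 0 := by
    intro n hn
    rw [← map_pow, ← d13c_map_A, ← map_sub, PowerSeries.coeff_map,
      (PowerSeries.X_pow_dvd_iff.mp d13c_dvd) n hn, map_zero]
  have hpi := Real.pi_pos
  obtain ⟨c, hc0, hc⟩ := d13c_order (d13c_evc_sub (d13c_as_e.pow 3) d13c_as_A).1 h0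
    (r := Real.exp (-(2 * Real.pi))) (Real.exp_pos _)
    (by rw [Real.exp_lt_one_iff]; linarith)
  refine ⟨c, fun z hz ↦ ?_⟩
  have hz0 : 0 < z.im := by linarith
  have h2 := hc (exp (2 * Real.pi * I * z)) (by
    rw [d13c_norm_exp_eq]
    apply Real.exp_le_exp.mpr
    nlinarith)
  rw [d13c_F_eq hz0]
  refine h2.trans (le_of_eq ?_)
  rw [d13c_norm_exp_eq, ← Real.exp_nat_mul]
  congr 2
  push_cast
  ring

theorem d13c_e_S {z : ℂ} (hz : 0 < z.im) : d13c_e (-1 / z) = z ^ 4 * d13c_e z := by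
  have h2 := d13c_e_slash 0 (-1) 1 0 (by norm_num) hz
  push_cast at h2
  rw [zero_mul, zero_add, one_mul, add_zero] at h2
  exact h2

theorem d13c_im {z : ℂ} : (z / 13).im = z.im / 13 := by
  have h : z / 13 = (((1 / 13 : ℝ)) : ℂ) * z := by
    push_cast
    ring
  rw [h, Complex.im_ofReal_mul]
  ring

theorem d13c_F_S : ∃ c : ℝ, ∀ z : ℂ, 1 ≤ z.im → ‖d13c_F (-1 / z) / z ^ 12‖ ≤ c := by
  have hpi := Real.pi_pos
  obtain ⟨c, hc0, hc⟩ := d13c_order (d13c_as_e.pow 3) (m := 0)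
    (fun n hn ↦ absurd hn (Nat.not_lt_zero n))
    (r := Real.exp (-(2 * Real.pi / 13))) (Real.exp_pos _)
    (by rw [Real.exp_lt_one_iff, neg_lt_zero]; positivity)
  obtain ⟨c', hc0', hc'⟩ := d13c_order d13c_as_B (m := 0)
    (fun n hn ↦ absurd hn (Nat.not_lt_zero n))
    (r := Real.exp (-(2 * Real.pi / 13))) (Real.exp_pos _)
    (by rw [Real.exp_lt_one_iff, neg_lt_zero]; positivity)
  refine ⟨c + c', fun z hz ↦ ?_⟩
  have hz0 : 0 < z.im := by linarith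
  have hzne : z ≠ 0 := by
    rintro rfl
    simp at hz0
  have hu : 0 < (z / 13).im := by
    rw [d13c_im]
    positivity
  have h1 : d13c_F (-1 / z) / z ^ 12 = d13c_e z ^ 3 - d13c_GB (z / 13) := by
    have h2 := d13c_W hu
    have h3 : 13 * (z / 13) = z := by ring
    rw [h3] at h2
    rw [d13c_F, d13c_e_S hz0, h2]
    field_simp
  rw [h1]
  refine (norm_sub_le _ _).trans (add_le_add ?_ ?_)
  · have h2 := hc (exp (2 * Real.pi * I * z)) (by
      rw [d13c_norm_exp_eq]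
      apply Real.exp_le_exp.mpr
      rw [neg_le_neg_iff]
      nlinarith)
    rw [pow_zero, mul_one, evc_pow d13c_as_e 3 (d13c_norm_exp hz0)] at h2
    exact h2
  · have h2 := hc' (exp (2 * Real.pi * I * (z / 13))) (by
      rw [d13c_norm_exp_eq, d13c_im]
      apply Real.exp_le_exp.mpr
      rw [neg_le_neg_iff]
      have : 2 * Real.pi * (z.im / 13) = 2 * Real.pi / 13 * z.im := by ring
      rw [this]
      exact le_mul_of_one_le_right (by positivity) hz)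
    rw [pow_zero, mul_one, d13c_GB_eq hu] at h2
    exact h2

theorem d13c_F_zero : ∀ z : ℂ, 0 < z.im → d13c_F z = 0 :=
  sturm13 (k := 12) (m := 15) ⟨6, rfl⟩
    (fun _ hz ↦ ((d13c_e_diff hz).pow 3).sub (d13c_GA_diff hz)) d13c_F_inv
    d13c_F_inf d13c_F_S (by norm_num)

theorem d13c_surj {Q : ℂ} (h0 : 0 < ‖Q‖) (h1 : ‖Q‖ < 1) :
    ∃ z : ℂ, 0 < z.im ∧ exp (2 * Real.pi * I * z) = Q := by
  refine ⟨Function.Periodic.invQParam 1 Q, ?_, ?_⟩
  · exact Function.Periodic.im_invQParam_pos_of_norm_lt_one one_pos h1 (norm_pos_iff.mp h0)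
  · rw [← eta_q_exp]
    exact Function.Periodic.qParam_right_inv one_ne_zero (norm_pos_iff.mp h0)

/-- `E_4³ = φ² (1+5f+13f²) (1+247f+3380f²+15379f³+28561f⁴)³`. -/
theorem eisQ_four_cube : eisQ 4 ^ 3 = phi13 ℚ *
    (p3x (hauptmodul 13 ℚ) * e4x (hauptmodul 13 ℚ) ^ 3) := by
  apply c2m_inj
  rw [d13c_map_A, map_pow]
  refine d13c_ext (d13c_as_e.pow 3) d13c_as_A fun Q h0 h1 ↦ ?_
  obtain ⟨z, hz, rfl⟩ := d13c_surj h0 h1
  have h2 := d13c_F_zero z hz
  have h3 : d13c_e z ^ 3 = d13c_GA z := sub_eq_zero.mp h2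
  rw [evc_pow d13c_as_e 3 h1, d13c_GA_eq hz]
  exact h3

/-- `E_4(q^13)³ = φ² (1+5f+13f²) (1+7f+20f²+19f³+f⁴)³`. -/
theorem eisQ_four_cube_expand : (eisQ 4).expand 13 thirteen_ne ^ 3 = phi13 ℚ *
    (p3x (hauptmodul 13 ℚ) * n4x (hauptmodul 13 ℚ) ^ 3) := by
  apply c2m_inj
  rw [d13c_map_B, map_pow, PowerSeries.map_expand]
  obtain ⟨ha, he⟩ := as_expand d13c_as_e 13 thirteen_ne
  refine d13c_ext (ha.pow 3) d13c_as_B fun Q h0 h1 ↦ ?_
  rw [evc_pow ha 3 h1, he Q h1]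
  obtain ⟨z, hz, rfl⟩ := d13c_surj h0 h1
  rw [← d13c_exp13]
  have h7 : 0 < (13 * z).im := by
    have := im_nat_mul hz (n := 13) (by norm_num)
    simpa using this
  have hz7 : 13 * z ≠ 0 := by
    intro h
    rw [h] at h7
    simp at h7
  have h2 : d13c_e (-1 / (13 * z)) ^ 3 = d13c_GA (-1 / (13 * z)) :=
    sub_eq_zero.mp (d13c_F_zero _ (im_S h7))
  rw [d13c_e_S h7, d13c_W hz, mul_pow, ← pow_mul] at h2
  have h3 := mul_left_cancel₀ (pow_ne_zero 12 hz7) h2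
  rw [← d13c_GB_eq hz] at h3
  exact h3

end D13

end GH
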