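import Pool.Agent.GH.D13.Sturm13
import Pool.Agent.GH.ClEkB

/-! Values of the series `φ² P(f)` and of `E_4` on the open unit disc and on the upper half
plane. -/

open PowerSeries Filter Topology

noncomputable section

namespace GH

namespace D13

open GH.E4 GH.D3 ModularForm
open Complex (I exp)

/-! ### series on the open unit disc -/

theorem d13c_as_euler13 : AS (euler ℂ 13) := by
  rw [euler_expand ℂ 13 thirteen_ne]
  exact (as_expand as_euler 13 thirteen_ne).1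

theorem d13c_norm_pow {Q : ℂ} (hQ : ‖Q‖ < 1) : ‖Q ^ 13‖ < 1 := by
  rw [norm_pow]
  exact pow_lt_one₀ (norm_nonneg _) hQ thirteen_ne

theorem d13c_evc_euler13 {Q : ℂ} (hQ : ‖Q‖ < 1) : evc (euler ℂ 13) Q = Pq (Q ^ 13) := by
  rw [euler_expand ℂ 13 thirteen_ne, (as_expand as_euler 13 thirteen_ne).2 Q hQ,
    evc_euler (d13c_norm_pow hQ)]

theorem d13c_as_einv13 : AS (invOfUnit (euler ℂ 13) 1) := by
  rw [einv_expand 13 thirteen_ne]
  exact (as_expand as_einv 13 thirteen_ne).1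

theorem d13c_evc_einv13 {Q : ℂ} (hQ : ‖Q‖ < 1) :
    evc (invOfUnit (euler ℂ 13) 1) Q = (Pq (Q ^ 13))⁻¹ := by
  rw [einv_expand 13 thirteen_ne, (as_expand as_einv 13 thirteen_ne).2 Q hQ,
    evc_einv (d13c_norm_pow hQ)]

theorem d13c_haupt_eq : hauptmodul 13 ℂ = X ^ 1 * (euler ℂ 13 * einv) ^ 2 := by
  rw [hauptmodul, pow_one, einv]

theorem d13c_as_haupt : AS (hauptmodul 13 ℂ) := by
  rw [d13c_haupt_eq]
  exact (AS.X_pow 1).mul ((d13c_as_euler13.mul as_einv).pow 2)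

theorem d13c_evc_haupt {Q : ℂ} (hQ : ‖Q‖ < 1) :
    evc (hauptmodul 13 ℂ) Q = Q * (Pq (Q ^ 13) * (Pq Q)⁻¹) ^ 2 := by
  rw [d13c_haupt_eq, evc_mul (AS.X_pow 1) ((d13c_as_euler13.mul as_einv).pow 2) hQ, evc_X_pow,
    pow_one, evc_pow (d13c_as_euler13.mul as_einv) 2 hQ, evc_mul d13c_as_euler13 as_einv hQ,
    d13c_evc_euler13 hQ, evc_einv hQ]

theorem d13c_as_phi : AS (phi13 ℂ) := (as_euler.pow 26).mul (d13c_as_einv13.pow 2)

theorem d13c_evc_phi {Q : ℂ} (hQ : ‖Q‖ < 1) :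
    evc (phi13 ℂ) Q = Pq Q ^ 26 * ((Pq (Q ^ 13))⁻¹) ^ 2 := by
  rw [phi13, evc_mul (as_euler.pow 26) (d13c_as_einv13.pow 2) hQ, evc_pow as_euler 26 hQ,
    evc_euler hQ, evc_pow d13c_as_einv13 2 hQ, d13c_evc_einv13 hQ]

theorem d13c_as_num (n : ℕ) [n.AtLeastTwo] : AS (OfNat.ofNat n : PowerSeries ℂ) := by
  have h := AS.const (OfNat.ofNat n)
  rwa [map_ofNat] at h

theorem d13c_evc_num (n : ℕ) [n.AtLeastTwo] (Q : ℂ) :
    evc (OfNat.ofNat n : PowerSeries ℂ) Q = OfNat.ofNat n := by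
  have h := evc_const (OfNat.ofNat n) Q
  rwa [map_ofNat] at h

theorem d13c_as_one : AS (1 : PowerSeries ℂ) := by
  have h := AS.const 1
  rwa [map_one] at h

theorem d13c_evc_one (Q : ℂ) : evc (1 : PowerSeries ℂ) Q = 1 := by
  have h := evc_const 1 Q
  rwa [map_one] at h

/-- `evc` is multiplicative on monomials with numerical coefficients. -/
theorem d13c_mono {x : PowerSeries ℂ} (hx : AS x) (n : ℕ) [n.AtLeastTwo] (k : ℕ) :
    AS ((OfNat.ofNat n : PowerSeries ℂ) * x ^ k) ∧ ∀ {Q : ℂ}, ‖Q‖ < 1 →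
      evc ((OfNat.ofNat n : PowerSeries ℂ) * x ^ k) Q = OfNat.ofNat n * evc x Q ^ k :=
  ⟨(d13c_as_num n).mul (hx.pow k), fun {Q} hQ ↦ by
    rw [evc_mul (d13c_as_num n) (hx.pow k) hQ, d13c_evc_num, evc_pow hx k hQ]⟩

theorem d13c_add2 {P R : PowerSeries ℂ} {a b : ℂ → ℂ}
    (hP : AS P ∧ ∀ {Q : ℂ}, ‖Q‖ < 1 → evc P Q = a Q)
    (hR : AS R ∧ ∀ {Q : ℂ}, ‖Q‖ < 1 → evc R Q = b Q) :
    AS (P + R) ∧ ∀ {Q : ℂ}, ‖Q‖ < 1 → evc (P + R) Q = a Q + b Q :=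
  ⟨hP.1.add hR.1, fun {Q} hQ ↦ by rw [evc_add hP.1 hR.1 hQ, hP.2 hQ, hR.2 hQ]⟩

theorem d13c_one2 : AS (1 : PowerSeries ℂ) ∧ ∀ {Q : ℂ}, ‖Q‖ < 1 →
    evc (1 : PowerSeries ℂ) Q = (fun _ ↦ 1) Q := ⟨d13c_as_one, fun _ ↦ d13c_evc_one _⟩

theorem d13c_x2 {x : PowerSeries ℂ} (hx : AS x) (n : ℕ) [n.AtLeastTwo] :
    AS ((OfNat.ofNat n : PowerSeries ℂ) * x) ∧ ∀ {Q : ℂ}, ‖Q‖ < 1 →
      evc ((OfNat.ofNat n : PowerSeries ℂ) * x) Q = OfNat.ofNat n * evc x Q := by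
  have h := d13c_mono hx n 1
  simp only [pow_one] at h
  exact h

theorem d13c_p3 {x : PowerSeries ℂ} (hx : AS x) : AS (p3x x) ∧ ∀ {Q : ℂ}, ‖Q‖ < 1 →
    evc (p3x x) Q = p3x (evc x Q) :=
  d13c_add2 (d13c_add2 d13c_one2 (d13c_x2 hx 5)) (d13c_mono hx 13 2)

theorem d13c_e4 {x : PowerSeries ℂ} (hx : AS x) : AS (e4x x) ∧ ∀ {Q : ℂ}, ‖Q‖ < 1 →
    evc (e4x x) Q = e4x (evc x Q) :=
  d13c_add2 (d13c_add2 (d13c_add2 (d13c_add2 d13c_one2 (d13c_x2 hx 247)) (d13c_mono hx 3380 2))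
    (d13c_mono hx 15379 3)) (d13c_mono hx 28561 4)

theorem d13c_n4 {x : PowerSeries ℂ} (hx : AS x) : AS (n4x x) ∧ ∀ {Q : ℂ}, ‖Q‖ < 1 →
    evc (n4x x) Q = n4x (evc x Q) :=
  d13c_add2 (d13c_add2 (d13c_add2 (d13c_add2 d13c_one2 (d13c_x2 hx 7)) (d13c_mono hx 20 2))
    (d13c_mono hx 19 3)) ⟨hx.pow 4, fun hQ ↦ evc_pow hx 4 hQ⟩

/-- The series `φ² P_3(f) e4(f)³`. -/
def d13c_A : PowerSeries ℂ := phi13 ℂ * (p3x (hauptmodul 13 ℂ) * e4x (hauptmodul 13 ℂ) ^ 3)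

/-- The series `φ² P_3(f) n4(f)³`. -/
def d13c_B : PowerSeries ℂ := phi13 ℂ * (p3x (hauptmodul 13 ℂ) * n4x (hauptmodul 13 ℂ) ^ 3)

theorem d13c_as_A : AS d13c_A :=
  d13c_as_phi.mul ((d13c_p3 d13c_as_haupt).1.mul ((d13c_e4 d13c_as_haupt).1.pow 3))

theorem d13c_as_B : AS d13c_B :=
  d13c_as_phi.mul ((d13c_p3 d13c_as_haupt).1.mul ((d13c_n4 d13c_as_haupt).1.pow 3))

theorem d13c_evc_A {Q : ℂ} (hQ : ‖Q‖ < 1) : evc d13c_A Q = evc (phi13 ℂ) Q *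
    (p3x (evc (hauptmodul 13 ℂ) Q) * e4x (evc (hauptmodul 13 ℂ) Q) ^ 3) := by
  have h3 := d13c_p3 d13c_as_haupt
  have h4 := d13c_e4 d13c_as_haupt
  rw [d13c_A, evc_mul d13c_as_phi (h3.1.mul (h4.1.pow 3)) hQ, evc_mul h3.1 (h4.1.pow 3) hQ,
    evc_pow h4.1 3 hQ, h3.2 hQ, h4.2 hQ]

theorem d13c_evc_B {Q : ℂ} (hQ : ‖Q‖ < 1) : evc d13c_B Q = evc (phi13 ℂ) Q *
    (p3x (evc (hauptmodul 13 ℂ) Q) * n4x (evc (hauptmodul 13 ℂ) Q) ^ 3) := by
  have h3 := d13c_p3 d13c_as_haupt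
  have h4 := d13c_n4 d13c_as_haupt
  rw [d13c_B, evc_mul d13c_as_phi (h3.1.mul (h4.1.pow 3)) hQ, evc_mul h3.1 (h4.1.pow 3) hQ,
    evc_pow h4.1 3 hQ, h3.2 hQ, h4.2 hQ]

/-! ### growth and uniqueness -/

/-- A series whose first `m` coefficients vanish is `O(Q^m)`. -/
theorem d13c_order {D : PowerSeries ℂ} (hD : AS D) {m : ℕ}
    (h0 : ∀ n < m, PowerSeries.coeff n D = 0) {r : ℝ} (hr0 : 0 < r) (hr : r < 1) :
    ∃ c : ℝ, 0 ≤ c ∧ ∀ Q : ℂ, ‖Q‖ ≤ r → ‖evc D Q‖ ≤ c * ‖Q‖ ^ m := by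
  have hs : Summable fun n ↦ ‖PowerSeries.coeff n D * (r : ℂ) ^ n‖ :=
    hD (r : ℂ) (by rw [Complex.norm_real, Real.norm_of_nonneg hr0.le]; exact hr)
  have hs0 : 0 ≤ ∑' n, ‖PowerSeries.coeff n D * (r : ℂ) ^ n‖ :=
    tsum_nonneg fun n ↦ norm_nonneg _
  refine ⟨(∑' n, ‖PowerSeries.coeff n D * (r : ℂ) ^ n‖) / r ^ m, by positivity, fun Q hQ ↦ ?_⟩
  have hQ1 : ‖Q‖ < 1 := lt_of_le_of_lt hQ hr
  have h1 : ∀ n, ‖PowerSeries.coeff n D * Q ^ n‖ ≤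
      ‖PowerSeries.coeff n D * (r : ℂ) ^ n‖ * (‖Q‖ ^ m / r ^ m) := by
    intro n
    by_cases hn : n < m
    · rw [h0 n hn, zero_mul, zero_mul, norm_zero, zero_mul]
    · obtain ⟨k, rfl⟩ : ∃ k, n = m + k := ⟨n - m, by omega⟩
      rw [norm_mul, norm_mul, norm_pow, norm_pow, Complex.norm_real,
        Real.norm_of_nonneg hr0.le, pow_add, pow_add, mul_assoc]
      refine mul_le_mul_of_nonneg_left ?_ (norm_nonneg _)
      have h2 : r ^ m * r ^ k * (‖Q‖ ^ m / r ^ m) = ‖Q‖ ^ m * r ^ k := by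
        field_simp
      rw [h2]
      exact mul_le_mul_of_nonneg_left (pow_le_pow_left₀ (norm_nonneg _) hQ k) (by positivity)
  have h3 : ‖evc D Q‖ ≤ ∑' n, ‖PowerSeries.coeff n D * Q ^ n‖ :=
    norm_tsum_le_tsum_norm (hD Q hQ1)
  refine h3.trans ?_
  refine ((hD Q hQ1).tsum_le_tsum h1 (hs.mul_right _)).trans ?_
  rw [tsum_mul_right]
  apply le_of_eq
  ring

theorem d13c_evc_sub {P R : PowerSeries ℂ} (hP : AS P) (hR : AS R) :
    AS (P - R) ∧ ∀ {Q : ℂ}, ‖Q‖ < 1 → evc (P - R) Q = evc P Q - evc R Q := by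
  have h : P - R = P + C (-1) * R := by
    rw [map_neg, map_one]
    ring
  rw [h]
  refine ⟨hP.add ((AS.const (-1)).mul hR), fun {Q} hQ ↦ ?_⟩
  rw [evc_add hP ((AS.const (-1)).mul hR) hQ, evc_mul (AS.const (-1)) hR hQ, evc_const]
  ring

/-- A series which vanishes on the punctured disc is zero. -/
theorem d13c_zero {D : PowerSeries ℂ} (hD : AS D)
    (h : ∀ Q : ℂ, 0 < ‖Q‖ → ‖Q‖ < 1 → evc D Q = 0) : D = 0 := by
  ext n
  rw [map_zero]
  induction n using Nat.strong_induction_on with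
  | _ n ih =>
    have h1 : AS (D - C (PowerSeries.coeff n D) * X ^ n) :=
      (d13c_evc_sub hD ((AS.const _).mul (AS.X_pow n))).1
    have h2 : ∀ k < n + 1, PowerSeries.coeff k (D - C (PowerSeries.coeff n D) * X ^ n) = 0 := by
      intro k hk
      rw [map_sub, PowerSeries.coeff_C_mul, PowerSeries.coeff_X_pow]
      by_cases hkn : k = n
      · rw [if_pos hkn, hkn, mul_one, sub_self]
      · rw [if_neg hkn, ih k (by omega), mul_zero, sub_zero]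
    obtain ⟨c, hc0, hc⟩ := d13c_order h1 h2 (r := 1 / 2) (by norm_num) (by norm_num)
    have h3 : ∀ Q : ℂ, 0 < ‖Q‖ → ‖Q‖ ≤ 1 / 2 → ‖PowerSeries.coeff n D‖ ≤ c * ‖Q‖ := by
      intro Q hQ0 hQ
      have hQ1 : ‖Q‖ < 1 := by linarith
      have h4 := hc Q hQ
      rw [(d13c_evc_sub hD ((AS.const _).mul (AS.X_pow n))).2 hQ1,
        evc_mul (AS.const _) (AS.X_pow n) hQ1, evc_const, evc_X_pow, h Q hQ0 hQ1, zero_sub,
        norm_neg, norm_mul, norm_pow, pow_succ] at h4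
      have h5 : 0 < ‖Q‖ ^ n := pow_pos hQ0 n
      have h6 : ‖PowerSeries.coeff n D‖ * ‖Q‖ ^ n ≤ (c * ‖Q‖) * ‖Q‖ ^ n := by
        linarith
      exact le_of_mul_le_mul_right h6 h5
    by_contra hne
    have h7 : 0 < ‖PowerSeries.coeff n D‖ := norm_pos_iff.mpr hne
    obtain ⟨ε, hε⟩ : ∃ ε : ℝ, ε = min (1 / 2) (‖PowerSeries.coeff n D‖ / (2 * (c + 1))) :=
      ⟨_, rfl⟩
    have hε0 : 0 < ε := by
      rw [hε]
      exact lt_min (by norm_num) (by positivity)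
    have hε1 : ε ≤ 1 / 2 := by
      rw [hε]
      exact min_le_left _ _
    have hε2 : ε ≤ ‖PowerSeries.coeff n D‖ / (2 * (c + 1)) := by
      rw [hε]
      exact min_le_right _ _
    have hn : ‖(ε : ℂ)‖ = ε := by
      rw [Complex.norm_real, Real.norm_of_nonneg hε0.le]
    have h8 := h3 (ε : ℂ) (by rw [hn]; exact hε0) (by rw [hn]; exact hε1)
    rw [hn] at h8
    rw [le_div_iff₀ (by positivity)] at hε2
    nlinarith

theorem d13c_ext {P R : PowerSeries ℂ} (hP : AS P) (hR : AS R)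
    (h : ∀ Q : ℂ, 0 < ‖Q‖ → ‖Q‖ < 1 → evc P Q = evc R Q) : P = R := by
  have h1 := d13c_zero (d13c_evc_sub hP hR).1 fun Q h0 hQ ↦ by
    rw [(d13c_evc_sub hP hR).2 hQ, h Q h0 hQ, sub_self]
  exact sub_eq_zero.mp h1

/-! ### the functions on the upper half plane -/

theorem d13c_eta (z : ℂ) :
    eta z = exp (Real.pi * I * z / 12) * Pq (exp (2 * Real.pi * I * z)) := by
  rw [eta]
  congr 1
  · rw [Function.Periodic.qParam]
    congr 1
    push_cast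
    ring
  · rw [Pq]
    simp only [eta_q, eta_q_exp]

theorem d13c_norm_exp {z : ℂ} (hz : 0 < z.im) : ‖exp (2 * Real.pi * I * z)‖ < 1 := by
  rw [← eta_q_exp]
  exact Function.Periodic.norm_qParam_lt_one one_pos hz

theorem d13c_norm_exp_eq (z : ℂ) :
    ‖exp (2 * Real.pi * I * z)‖ = Real.exp (-(2 * Real.pi * z.im)) := by
  rw [Complex.norm_exp]
  congr 1
  simp [Complex.mul_re, Complex.mul_im]

theorem d13c_exp13 (z : ℂ) :
    exp (2 * Real.pi * I * (13 * z)) = exp (2 * Real.pi * I * z) ^ 13 := by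
  rw [← Complex.exp_nat_mul]
  congr 1
  push_cast
  ring

theorem d13c_exp13' (z : ℂ) :
    exp (Real.pi * I * (13 * z) / 12) = exp (Real.pi * I * z / 12) ^ 13 := by
  rw [← Complex.exp_nat_mul]
  congr 1
  push_cast
  ring

theorem d13c_p_eq {z : ℂ} (hz : 0 < z.im) :
    p13z z = evc (phi13 ℂ) (exp (2 * Real.pi * I * z)) := by
  have hQ := d13c_norm_exp hz
  rw [d13c_evc_phi hQ, p13z, d13c_eta, d13c_eta, d13c_exp13, d13c_exp13']
  have h3 : Pq (exp (2 * Real.pi * I * z) ^ 13) ≠ 0 := Pq_ne (d13c_norm_pow hQ)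
  have h4 : exp (Real.pi * I * z / 12) ≠ 0 := Complex.exp_ne_zero _
  field_simp

theorem d13c_f_eq {z : ℂ} (hz : 0 < z.im) :
    f13z z = evc (hauptmodul 13 ℂ) (exp (2 * Real.pi * I * z)) := by
  have hQ := d13c_norm_exp hz
  rw [d13c_evc_haupt hQ, f13z, d13c_eta, d13c_eta, d13c_exp13, d13c_exp13']
  have h5 : exp (2 * Real.pi * I * z) = exp (Real.pi * I * z / 12) ^ 24 := by
    rw [← Complex.exp_nat_mul]
    congr 1
    push_cast
    ring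
  have h3 : Pq (exp (2 * Real.pi * I * z)) ≠ 0 := Pq_ne hQ
  have h4 : exp (Real.pi * I * z / 12) ≠ 0 := Complex.exp_ne_zero _
  obtain ⟨E, hE⟩ : ∃ E : ℂ, E = exp (Real.pi * I * z / 12) := ⟨_, rfl⟩
  obtain ⟨A, hA⟩ : ∃ A : ℂ, A = Pq (exp (2 * Real.pi * I * z)) := ⟨_, rfl⟩
  obtain ⟨B, hB⟩ : ∃ B : ℂ, B = Pq (exp (2 * Real.pi * I * z) ^ 13) := ⟨_, rfl⟩
  rw [← hA, ← hB, h5, ← hE]
  rw [← hE] at h4
  rw [← hA] at h3
  field_simp

/-- The function `φ² P_3(f) e4(f)³`. -/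
def d13c_GA (z : ℂ) : ℂ := p13z z * (p3x (f13z z) * e4x (f13z z) ^ 3)

/-- The function `φ² P_3(f) n4(f)³`. -/
def d13c_GB (z : ℂ) : ℂ := p13z z * (p3x (f13z z) * n4x (f13z z) ^ 3)

theorem d13c_GA_eq {z : ℂ} (hz : 0 < z.im) :
    evc d13c_A (exp (2 * Real.pi * I * z)) = d13c_GA z := by
  rw [d13c_evc_A (d13c_norm_exp hz), d13c_GA, d13c_p_eq hz, d13c_f_eq hz]

theorem d13c_GB_eq {z : ℂ} (hz : 0 < z.im) :
    evc d13c_B (exp (2 * Real.pi * I * z)) = d13c_GB z := by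
  rw [d13c_evc_B (d13c_norm_exp hz), d13c_GB, d13c_p_eq hz, d13c_f_eq hz]

theorem d13c_GA_inv : Inv13 12 d13c_GA where
  T z := by
    rw [d13c_GA, d13c_GA, inv13_p.T z, inv13_f.T z]
  V z hz := by
    have h2 := inv13_f.V z hz
    rw [pow_zero, one_mul] at h2
    rw [d13c_GA, d13c_GA, inv13_p.V z hz, h2, mul_assoc]
  a1 z hz := by
    have h2 := inv13_f.a1 z hz
    rw [pow_zero, one_mul] at h2
    rw [d13c_GA, d13c_GA, inv13_p.a1 z hz, h2, mul_assoc]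
  a2 z hz := by
    have h2 := inv13_f.a2 z hz
    rw [pow_zero, one_mul] at h2
    rw [d13c_GA, d13c_GA, inv13_p.a2 z hz, h2, mul_assoc]
  b1 z hz := by
    have h2 := inv13_f.b1 z hz
    rw [pow_zero, one_mul] at h2
    rw [d13c_GA, d13c_GA, inv13_p.b1 z hz, h2, mul_assoc]
  b2 z hz := by
    have h2 := inv13_f.b2 z hz
    rw [pow_zero, one_mul] at h2
    rw [d13c_GA, d13c_GA, inv13_p.b2 z hz, h2, mul_assoc]

theorem d13c_GA_diff {z : ℂ} (hz : 0 < z.im) : DifferentiableAt ℂ d13c_GA z := by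
  have hf := f13z_diff hz
  have h1 : DifferentiableAt ℂ (fun w ↦ p3x (f13z w)) z := by
    unfold p3x
    exact ((differentiableAt_const _).add (hf.const_mul _)).add ((hf.pow 2).const_mul _)
  have h2 : DifferentiableAt ℂ (fun w ↦ e4x (f13z w)) z := by
    unfold e4x
    exact ((((differentiableAt_const _).add (hf.const_mul _)).add ((hf.pow 2).const_mul _)).add
      ((hf.pow 3).const_mul _)).add ((hf.pow 4).const_mul _)
  exact (p13z_diff hz).mul (h1.mul (h2.pow 3))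

/-! ### the Eisenstein series -/

/-- `E_4` as a function on `ℂ`. -/
def d13c_e (z : ℂ) : ℂ := evc (c2m (eisQ 4)) (exp (2 * Real.pi * I * z))

open UpperHalfPlane MatrixGroups in
theorem d13c_cusp : DifferentiableOn ℂ (cuspFunction 1 E₄) (Metric.ball 0 1) := fun _ hz ↦
  (ModularFormClass.differentiableAt_cuspFunction E₄ one_pos one_mem_strictPeriods_SL
    (mem_ball_zero_iff.mp hz)).differentiableWithinAt

open UpperHalfPlane MatrixGroups in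
theorem d13c_c2T : c2T (cuspFunction 1 E₄) = c2m (eisQ 4) := by
  rw [← c2_qexp_eq]
  exact c2_eis (by norm_num) ⟨2, rfl⟩

theorem d13c_as_e : AS (c2m (eisQ 4)) := by
  rw [← d13c_c2T]
  exact as_c2T d13c_cusp

open UpperHalfPlane MatrixGroups in
theorem d13c_e_eq (τ : ℍ) : d13c_e τ = E₄ τ := by
  rw [d13c_e, ← d13c_c2T, evc_c2T d13c_cusp (d13c_norm_exp τ.2), ← eta_q_exp]
  exact SlashInvariantFormClass.eq_cuspFunction E₄ τ one_mem_strictPeriods_SL one_ne_zero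

theorem d13c_e_T (z : ℂ) : d13c_e (z + 1) = d13c_e z := by
  rw [d13c_e, d13c_e, mul_add, Complex.exp_add, mul_one, Complex.exp_two_pi_mul_I, mul_one]

theorem d13c_e_diff {z : ℂ} (hz : 0 < z.im) : DifferentiableAt ℂ d13c_e z := by
  have h1 : DifferentiableAt ℂ (evc (c2m (eisQ 4))) (exp (2 * Real.pi * I * z)) := by
    have h2 : DifferentiableAt ℂ (UpperHalfPlane.cuspFunction 1 E₄) (exp (2 * Real.pi * I * z)) :=
      d13c_cusp.differentiableAt (Metric.isOpen_ball.mem_nhds (by simpa using d13c_norm_exp hz))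
    refine h2.congr_of_eventuallyEq ?_
    filter_upwards [Metric.isOpen_ball.mem_nhds
      (show exp (2 * Real.pi * I * z) ∈ Metric.ball (0 : ℂ) 1 by simpa using d13c_norm_exp hz)]
      with Q hQ
    rw [← d13c_c2T, evc_c2T d13c_cusp (by simpa using hQ)]
  exact DifferentiableAt.comp (g := evc (c2m (eisQ 4)))
    (f := fun w : ℂ ↦ exp (2 * Real.pi * I * w)) z h1 (by fun_prop)

open UpperHalfPlane MatrixGroups in
/-- `E_4` under `SL_2(ℤ)`. -/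
theorem d13c_e_slash (a b c d : ℤ) (h : a * d - b * c = 1) {z : ℂ} (hz : 0 < z.im) :
    d13c_e ((a * z + b) / (c * z + d)) = (c * z + d) ^ 4 * d13c_e z := by
  obtain ⟨g, hg⟩ : ∃ g : SL(2, ℤ), g = ⟨!![a, b; c, d], by
    rw [Matrix.det_fin_two_of]; exact h⟩ := ⟨_, rfl⟩
  have e00 : g 0 0 = a := by rw [hg]; rfl
  have e01 : g 0 1 = b := by rw [hg]; rfl
  have e10 : g 1 0 = c := by rw [hg]; rfl
  have e11 : g 1 1 = d := by rw [hg]; rfl
  obtain ⟨τ, hτ⟩ : ∃ τ : ℍ, (τ : ℂ) = z := ⟨⟨z, hz⟩, rfl⟩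
  have h1 : ((g • τ : ℍ) : ℂ) = (a * z + b) / (c * z + d) := by
    rw [UpperHalfPlane.coe_specialLinearGroup_apply, e00, e01, e10, e11, hτ]
    simp
  have h2 : E₄ (g • τ) = (c * z + d) ^ 4 * E₄ τ := by
    have h3 := SlashInvariantForm.slash_action_eqn'' (Γ := 𝒮ℒ) (k := 4) E₄
      (γ := (g : GL (Fin 2) ℝ)) ⟨g, rfl⟩ τ
    rw [ModularGroup.denom_apply, e10, e11, hτ] at h3
    exact_mod_cast h3
  rw [← h1, d13c_e_eq, h2, ← hτ, d13c_e_eq]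

end D13

end GH
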