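import Pool.Agent.GH.D13.K13_a
import Pool.Agent.GH.D3.ClG12

/-! The difference of `E_4³` and `φ² P_3(f) e4(f)³` is `O(q^15)`: computation with lists of
integers. -/

open PowerSeries Filter Topology

noncomputable section

namespace GH

namespace D13

open GH.E4 GH.D3

/-! ### truncated polynomials as lists -/

/-- The sum of two lists. -/
def d13c_add : List ℤ → List ℤ → List ℤ
  | [], m => m
  | l, [] => l
  | a :: l, b :: m => (a + b) :: d13c_add l m

/-- The product of two lists. -/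
def d13c_mul : List ℤ → List ℤ → List ℤ
  | [], _ => []
  | a :: l, m => d13c_add (m.map (a * ·)) (0 :: d13c_mul l m)

/-- The truncated product. -/
def d13c_mt (l m : List ℤ) : List ℤ := (d13c_mul l m).take 15

/-- The power series of a list. -/
def d13c_ev : List ℤ → PowerSeries ℚ
  | [] => 0
  | a :: l => C (a : ℚ) + X * d13c_ev l

theorem d13c_ev_add (l m : List ℤ) : d13c_ev (d13c_add l m) = d13c_ev l + d13c_ev m := by
  induction l generalizing m with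
  | nil =>
    rw [d13c_add, d13c_ev, zero_add]
  | cons a l ih =>
    cases m with
    | nil => rw [d13c_add, d13c_ev, d13c_ev, add_zero]; simp
    | cons b m =>
      rw [d13c_add, d13c_ev, d13c_ev, d13c_ev, ih, Int.cast_add, map_add]
      ring

theorem d13c_ev_smul (a : ℤ) (l : List ℤ) :
    d13c_ev (l.map (a * ·)) = C (a : ℚ) * d13c_ev l := by
  induction l with
  | nil => rw [List.map_nil, d13c_ev, mul_zero]
  | cons b l ih =>
    rw [List.map_cons, d13c_ev, d13c_ev, ih, Int.cast_mul, map_mul]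
    ring

theorem d13c_ev_mul (l m : List ℤ) : d13c_ev (d13c_mul l m) = d13c_ev l * d13c_ev m := by
  induction l with
  | nil => rw [d13c_mul, d13c_ev, zero_mul]
  | cons a l ih =>
    rw [d13c_mul, d13c_ev_add, d13c_ev_smul, d13c_ev, d13c_ev, ih, Int.cast_zero, map_zero]
    ring

theorem d13c_ev_take (n : ℕ) (l : List ℤ) :
    (X : PowerSeries ℚ) ^ n ∣ d13c_ev l - d13c_ev (l.take n) := by
  induction n generalizing l with
  | zero =>
    rw [pow_zero]
    exact one_dvd _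
  | succ n ih =>
    cases l with
    | nil => rw [List.take_nil, sub_self]; exact dvd_zero _
    | cons a l =>
      obtain ⟨c, hc⟩ := ih l
      rw [List.take_succ_cons, d13c_ev, d13c_ev]
      refine ⟨c, ?_⟩
      rw [pow_succ']
      linear_combination X * hc

/-- Congruence modulo `X^15`. -/
def d13c_cg (P : PowerSeries ℚ) (l : List ℤ) : Prop := (X : PowerSeries ℚ) ^ 15 ∣ P - d13c_ev l

theorem d13c_cg_add {P R : PowerSeries ℚ} {l m : List ℤ} (h : d13c_cg P l) (h' : d13c_cg R m) :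
    d13c_cg (P + R) (d13c_add l m) := by
  have h1 : P + R - d13c_ev (d13c_add l m) = (P - d13c_ev l) + (R - d13c_ev m) := by
    rw [d13c_ev_add]
    ring
  rw [d13c_cg, h1]
  exact dvd_add h h'

theorem d13c_cg_mul {P R : PowerSeries ℚ} {l m : List ℤ} (h : d13c_cg P l) (h' : d13c_cg R m) :
    d13c_cg (P * R) (d13c_mt l m) := by
  have h1 : P * R - d13c_ev (d13c_mt l m) = (P - d13c_ev l) * R + d13c_ev l * (R - d13c_ev m) +
      (d13c_ev (d13c_mul l m) - d13c_ev ((d13c_mul l m).take 15)) := by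
    rw [d13c_mt, d13c_ev_mul]
    ring
  rw [d13c_cg, h1]
  exact dvd_add (dvd_add (h.mul_right _) (h'.mul_left _)) (d13c_ev_take 15 _)

theorem d13c_cg_smul (a : ℤ) {P : PowerSeries ℚ} {l : List ℤ} (h : d13c_cg P l) :
    d13c_cg ((a : PowerSeries ℚ) * P) (l.map (a * ·)) := by
  have h1 : (a : PowerSeries ℚ) * P - d13c_ev (l.map (a * ·)) =
      (a : PowerSeries ℚ) * (P - d13c_ev l) := by
    rw [d13c_ev_smul, map_intCast]
    ring
  rw [d13c_cg, h1]
  exact h.mul_left _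

theorem d13c_cg_X : d13c_cg X [0, 1] := by
  have h1 : (X : PowerSeries ℚ) - d13c_ev [0, 1] = 0 := by
    simp [d13c_ev]
  rw [d13c_cg, h1]
  exact dvd_zero _

/-- The list of `1 - X^{n+1}`. -/
def d13c_fac (n : ℕ) : List ℤ := 1 :: (List.replicate n 0 ++ [-1])

theorem d13c_ev_fac (n : ℕ) : d13c_ev (d13c_fac n) = 1 - X ^ (n + 1) := by
  have h : ∀ n : ℕ, d13c_ev (List.replicate n 0 ++ [-1]) = - X ^ n := by
    intro n
    induction n with
    | zero =>
      show C (((-1 : ℤ)) : ℚ) + X * 0 = - X ^ 0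
      simp
    | succ n ih =>
      rw [List.replicate_succ, List.cons_append, d13c_ev, ih, Int.cast_zero, map_zero]
      ring
  rw [d13c_fac, d13c_ev, h]
  simp
  ring

/-- The list of the truncated product. -/
def d13c_P : ℕ → List ℤ
  | 0 => [1]
  | n + 1 => d13c_mt (d13c_P n) (d13c_fac n)

theorem d13c_cg_P (n : ℕ) :
    d13c_cg (∏ m ∈ Finset.range n, (1 - (X : PowerSeries ℚ) ^ (m + 1))) (d13c_P n) := by
  induction n with
  | zero =>
    have h1 : (∏ m ∈ Finset.range 0, (1 - (X : PowerSeries ℚ) ^ (m + 1))) -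
        d13c_ev (d13c_P 0) = 0 := by
      rw [Finset.prod_range_zero, d13c_P]
      simp [d13c_ev]
    rw [d13c_cg, h1]
    exact dvd_zero _
  | succ n ih =>
    rw [Finset.prod_range_succ]
    refine d13c_cg_mul ih ?_
    rw [d13c_cg, d13c_ev_fac, sub_self]
    exact dvd_zero _

theorem d13c_cg_E : d13c_cg (euler ℚ 1) (d13c_P 14) := by
  have h1 : X ^ 15 ∣ euler ℚ 1 - ∏ m ∈ Finset.range 14, (1 - (X : PowerSeries ℚ) ^ (m + 1)) := by
    rw [PowerSeries.X_pow_dvd_iff]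
    intro m hm
    rw [map_sub, c2_euler_coeff (show m ≤ 14 by omega), sub_self]
  have h2 := dvd_add h1 (d13c_cg_P 14)
  rw [sub_add_sub_cancel] at h2
  exact h2

theorem d13c_ev_coeff (l : List ℤ) (n : ℕ) :
    PowerSeries.coeff n (d13c_ev l) = ((l.getD n 0 : ℤ) : ℚ) := by
  induction l generalizing n with
  | nil => rw [d13c_ev, map_zero, List.getD_nil, Int.cast_zero]
  | cons a l ih =>
    rw [d13c_ev, map_add]
    cases n with
    | zero =>
      rw [List.getD_cons_zero, PowerSeries.coeff_zero_X_mul, add_zero,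
        PowerSeries.coeff_zero_C]
    | succ n =>
      rw [List.getD_cons_succ, PowerSeries.coeff_succ_X_mul, ih, PowerSeries.coeff_C,
        if_neg (Nat.succ_ne_zero n), zero_add]

theorem d13c_cg_coeff {P : PowerSeries ℚ} {l : List ℤ}
    (h : ∀ m < 15, PowerSeries.coeff m P = ((l.getD m 0 : ℤ) : ℚ)) : d13c_cg P l := by
  rw [d13c_cg, PowerSeries.X_pow_dvd_iff]
  intro m hm
  rw [map_sub, h m hm, d13c_ev_coeff, sub_self]

/-- `euler 13`. -/
def d13c_lF : List ℤ := [1, 0, 0, 0, 0, 0, 0, 0, 0, 0, 0, 0, 0, -1, 0]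

theorem d13c_cg_F : d13c_cg (euler ℚ 13) d13c_lF := by
  apply d13c_cg_coeff
  intro m hm
  rw [euler_expand ℚ 13 thirteen_ne]
  by_cases hd : 13 ∣ m
  · obtain ⟨j, rfl⟩ := hd
    have hj : j < 2 := by omega
    rw [PowerSeries.coeff_expand_mul]
    interval_cases j
    · rw [PowerSeries.coeff_zero_eq_constantCoeff_apply, euler_zero]
      norm_num [d13c_lF]
    · rw [c2_euler_coeff (show 1 ≤ 1 from le_rfl), Finset.prod_range_one]
      simp [d13c_lF, PowerSeries.coeff_one]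
  · rw [coeff_expand_of_not_dvd _ _ _ hd]
    interval_cases m <;> simp_all [d13c_lF]

/-- `E_4`. -/
def d13c_lW : List ℤ := [1, 240, 2160, 6720, 17520, 30240, 60480, 82560, 140400, 181680, 272160,
  319680, 490560, 527520, 743040]

theorem d13c_cg_W : d13c_cg (eisQ 4) d13c_lW := by
  apply d13c_cg_coeff
  intro m hm
  have hb : bernoulli 4 = -1 / 30 := by decide +kernel
  have hs : ∀ m < 15, 0 < m → (240 * ArithmeticFunction.sigma (4 - 1) m : ℤ) =
      d13c_lW.getD m 0 := by decide +kernel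
  rw [eisQ, map_add, PowerSeries.coeff_mk, PowerSeries.coeff_one, hb]
  by_cases h0 : m = 0
  · subst h0
    norm_num [d13c_lW]
  · rw [if_neg h0, ← hs m hm (Nat.pos_of_ne_zero h0)]
    push_cast
    ring

/-! ### the computation -/

/-- `u = E²`. -/
def d13c_lu : List ℤ := d13c_mt (d13c_P 14) (d13c_P 14)

/-- `v = X F²`. -/
def d13c_lv : List ℤ := d13c_mt [0, 1] (d13c_mt d13c_lF d13c_lF)

/-- `u² + 5uv + 13v²`. -/
def d13c_lp3 : List ℤ := d13c_add (d13c_add (d13c_mt d13c_lu d13c_lu)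
  ((d13c_mt d13c_lu d13c_lv).map ((5 : ℤ) * ·))) ((d13c_mt d13c_lv d13c_lv).map ((13 : ℤ) * ·))

/-- `u⁴ + 247u³v + 3380u²v² + 15379uv³ + 28561v⁴`. -/
def d13c_le4 : List ℤ :=
  d13c_add (d13c_add (d13c_add (d13c_add
    (d13c_mt (d13c_mt d13c_lu d13c_lu) (d13c_mt d13c_lu d13c_lu))
    ((d13c_mt (d13c_mt d13c_lu d13c_lu) (d13c_mt d13c_lu d13c_lv)).map ((247 : ℤ) * ·)))
    ((d13c_mt (d13c_mt d13c_lu d13c_lu) (d13c_mt d13c_lv d13c_lv)).map ((3380 : ℤ) * ·)))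
    ((d13c_mt (d13c_mt d13c_lu d13c_lv) (d13c_mt d13c_lv d13c_lv)).map ((15379 : ℤ) * ·)))
    ((d13c_mt (d13c_mt d13c_lv d13c_lv) (d13c_mt d13c_lv d13c_lv)).map ((28561 : ℤ) * ·))

/-- `W³ u F²`. -/
def d13c_lL : List ℤ := d13c_mt (d13c_mt (d13c_mt d13c_lW d13c_lW) d13c_lW)
  (d13c_mt d13c_lu (d13c_mt d13c_lF d13c_lF))

/-- `P_3(u,v) e4(u,v)³`. -/
def d13c_lR : List ℤ := d13c_mt d13c_lp3 (d13c_mt (d13c_mt d13c_le4 d13c_le4) d13c_le4)

theorem d13c_check : d13c_lL = d13c_lR := by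
  decide +kernel

theorem d13c_main {W u v F : PowerSeries ℚ} (hW : d13c_cg W d13c_lW) (hu : d13c_cg u d13c_lu)
    (hv : d13c_cg v d13c_lv) (hF : d13c_cg F d13c_lF) :
    X ^ 15 ∣ W * W * W * (u * (F * F)) - (u * u + ((5 : ℤ) : PowerSeries ℚ) * (u * v) +
      ((13 : ℤ) : PowerSeries ℚ) * (v * v)) *
      ((((u * u) * (u * u) + ((247 : ℤ) : PowerSeries ℚ) * ((u * u) * (u * v)) +
        ((3380 : ℤ) : PowerSeries ℚ) * ((u * u) * (v * v)) +
        ((15379 : ℤ) : PowerSeries ℚ) * ((u * v) * (v * v)) +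
        ((28561 : ℤ) : PowerSeries ℚ) * ((v * v) * (v * v))) *
        ((u * u) * (u * u) + ((247 : ℤ) : PowerSeries ℚ) * ((u * u) * (u * v)) +
        ((3380 : ℤ) : PowerSeries ℚ) * ((u * u) * (v * v)) +
        ((15379 : ℤ) : PowerSeries ℚ) * ((u * v) * (v * v)) +
        ((28561 : ℤ) : PowerSeries ℚ) * ((v * v) * (v * v)))) *
        ((u * u) * (u * u) + ((247 : ℤ) : PowerSeries ℚ) * ((u * u) * (u * v)) +
        ((3380 : ℤ) : PowerSeries ℚ) * ((u * u) * (v * v)) +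
        ((15379 : ℤ) : PowerSeries ℚ) * ((u * v) * (v * v)) +
        ((28561 : ℤ) : PowerSeries ℚ) * ((v * v) * (v * v)))) := by
  have hL : d13c_cg (W * W * W * (u * (F * F))) d13c_lL :=
    d13c_cg_mul (d13c_cg_mul (d13c_cg_mul hW hW) hW) (d13c_cg_mul hu (d13c_cg_mul hF hF))
  have huu := d13c_cg_mul hu hu
  have huv := d13c_cg_mul hu hv
  have hvv := d13c_cg_mul hv hv
  have hp := d13c_cg_add (d13c_cg_add huu (d13c_cg_smul 5 huv)) (d13c_cg_smul 13 hvv)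
  have he := d13c_cg_add (d13c_cg_add (d13c_cg_add (d13c_cg_add (d13c_cg_mul huu huu)
    (d13c_cg_smul 247 (d13c_cg_mul huu huv))) (d13c_cg_smul 3380 (d13c_cg_mul huu hvv)))
    (d13c_cg_smul 15379 (d13c_cg_mul huv hvv))) (d13c_cg_smul 28561 (d13c_cg_mul hvv hvv))
  have hR := d13c_cg_mul hp (d13c_cg_mul (d13c_cg_mul he he) he)
  have hR' : d13c_cg _ d13c_lR := hR
  rw [← d13c_check] at hR'
  have h1 := dvd_sub hL hR'
  rw [sub_sub_sub_cancel_right] at h1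
  exact h1

theorem d13c_dvd : X ^ 15 ∣ eisQ 4 ^ 3 -
    phi13 ℚ * (p3x (hauptmodul 13 ℚ) * e4x (hauptmodul 13 ℚ) ^ 3) := by
  have h1 := euler_mul_inv ℚ 1
  have h7 := euler_mul_inv ℚ 13
  have hp : phi13 ℚ = euler ℚ 1 ^ 26 * invOfUnit (euler ℚ 13) 1 ^ 2 := rfl
  have hh : hauptmodul 13 ℚ = X * (euler ℚ 13 * invOfUnit (euler ℚ 1) 1) ^ 2 := rfl
  have hW := d13c_cg_W
  have hE := d13c_cg_E
  have hF := d13c_cg_F
  have hm := d13c_main hW (d13c_cg_mul hE hE) (d13c_cg_mul d13c_cg_X (d13c_cg_mul hF hF)) hF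
  rw [hp, hh]
  generalize euler ℚ 1 = E at h1 hm ⊢
  generalize euler ℚ 13 = F at h7 hm ⊢
  generalize invOfUnit E 1 = J at h1 ⊢
  generalize invOfUnit F 1 = H at h7 ⊢
  generalize eisQ 4 = W at hm ⊢
  unfold p3x e4x
  have hfin : W ^ 3 - E ^ 26 * H ^ 2 * ((1 + 5 * (X * (F * J) ^ 2) +
      13 * (X * (F * J) ^ 2) ^ 2) * (1 + 247 * (X * (F * J) ^ 2) +
      3380 * (X * (F * J) ^ 2) ^ 2 + 15379 * (X * (F * J) ^ 2) ^ 3 +
      28561 * (X * (F * J) ^ 2) ^ 4) ^ 3) =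
      (W ^ 3 * (E * E * (F * F)) - ((E * E) ^ 2 + 5 * (E * E) * (X * (F * F)) +
        13 * (X * (F * F)) ^ 2) * ((E * E) ^ 4 + 247 * (E * E) ^ 3 * (X * (F * F)) +
        3380 * (E * E) ^ 2 * (X * (F * F)) ^ 2 + 15379 * (E * E) * (X * (F * F)) ^ 3 +
        28561 * (X * (F * F)) ^ 4) ^ 3) * (J ^ 2 * H ^ 2) := by
    have q1 : W ^ 3 * (E * E * (F * F)) * (J ^ 2 * H ^ 2) = W ^ 3 := by
      have : W ^ 3 * (E * E * (F * F)) * (J ^ 2 * H ^ 2) =
          W ^ 3 * ((E * J) ^ 2 * (F * H) ^ 2) := by ring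
      rw [this, h1, h7, one_pow, mul_one, mul_one]
    have q2 : ((E * E) ^ 2 + 5 * (E * E) * (X * (F * F)) + 13 * (X * (F * F)) ^ 2) =
        E ^ 4 * (1 + 5 * (X * (F * J) ^ 2) + 13 * (X * (F * J) ^ 2) ^ 2) := by
      have e1 : E ^ 4 * (1 + 5 * (X * (F * J) ^ 2) + 13 * (X * (F * J) ^ 2) ^ 2) =
          E ^ 4 + 5 * (X * F ^ 2 * E ^ 2) * (E * J) ^ 2 + 13 * (X ^ 2 * F ^ 4) * (E * J) ^ 4 := by
        ring
      rw [e1, h1]
      ring
    have q3 : ((E * E) ^ 4 + 247 * (E * E) ^ 3 * (X * (F * F)) +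
        3380 * (E * E) ^ 2 * (X * (F * F)) ^ 2 + 15379 * (E * E) * (X * (F * F)) ^ 3 +
        28561 * (X * (F * F)) ^ 4) = E ^ 8 * (1 + 247 * (X * (F * J) ^ 2) +
      3380 * (X * (F * J) ^ 2) ^ 2 + 15379 * (X * (F * J) ^ 2) ^ 3 +
      28561 * (X * (F * J) ^ 2) ^ 4) := by
      have e1 : E ^ 8 * (1 + 247 * (X * (F * J) ^ 2) +
          3380 * (X * (F * J) ^ 2) ^ 2 + 15379 * (X * (F * J) ^ 2) ^ 3 +
          28561 * (X * (F * J) ^ 2) ^ 4) = E ^ 8 + 247 * (X * F ^ 2 * E ^ 6) * (E * J) ^ 2 +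
          3380 * (X ^ 2 * F ^ 4 * E ^ 4) * (E * J) ^ 4 +
          15379 * (X ^ 3 * F ^ 6 * E ^ 2) * (E * J) ^ 6 +
          28561 * (X ^ 4 * F ^ 8) * (E * J) ^ 8 := by
        ring
      rw [e1, h1]
      ring
    rw [sub_mul, q1, q2, q3]
    generalize 1 + 5 * (X * (F * J) ^ 2) + 13 * (X * (F * J) ^ 2) ^ 2 = a
    generalize 1 + 247 * (X * (F * J) ^ 2) + 3380 * (X * (F * J) ^ 2) ^ 2 +
      15379 * (X * (F * J) ^ 2) ^ 3 + 28561 * (X * (F * J) ^ 2) ^ 4 = b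
    have e2 : E ^ 4 * a * (E ^ 8 * b) ^ 3 * (J ^ 2 * H ^ 2) =
        E ^ 26 * H ^ 2 * (a * b ^ 3) * (E * J) ^ 2 := by
      ring
    rw [e2, h1, one_pow, mul_one]
  rw [hfin]
  refine Dvd.dvd.mul_right ?_ _
  have hm2 : ∀ x y : PowerSeries ℚ, y = x → X ^ 15 ∣ x → X ^ 15 ∣ y := by
    intro x y h h'
    rw [h]
    exact h'
  refine hm2 _ _ ?_ hm
  push_cast
  ring

end D13

end GH
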