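import Pool.Agent.GH.D13.K13
import Pool.Agent.GH.D13.Phi13
import Pool.Agent.GH.D13.Frame13
import Pool.Agent.GH.D13.Ghost13
import Pool.Agent.GH.DP.MainW
import Pool.Agent.GH.DP.EisFamP
import Pool.Agent.GH.DP.ChangeP
import Pool.Agent.GH.DP.CompactP

/-!
# Final assembly: the central theorem implies the ghost conjecture for `p = 13`, `N = 1`
-/

open PowerSeries Filter Topology

noncomputable section

namespace GH

namespace D13

open GP DP

theorem k13 : K13 := ⟨eisQ_four_cube, eisQ_four_cube_expand⟩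

theorem m13_ne_two : (13 : ℕ) ≠ 2 := by norm_num

theorem m13_cast : ((13 : ℕ) : ℝ)⁻¹ = 1 / 13 := by norm_num

theorem wser13_mul_inv (c : ℕ) : wser13 C13 c * (wser13 C13 c)⁻¹ = 1 :=
  PowerSeries.mul_inv_cancel _ (by rw [constantCoeff_wser13]; exact one_ne_zero)

theorem m13_mono {R r : ℝ} (hr : 0 ≤ r) (h : r ≤ R) {a : C13} {n : ℕ} (ha : ‖a‖ * R ^ n ≤ 1) :
    ‖a‖ * r ^ n ≤ 1 :=
  (mul_le_mul_of_nonneg_left (pow_le_pow_left₀ hr h n) (norm_nonneg _)).trans ha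

/-- The norm of a product. -/
theorem m13_mul {F G : PowerSeries C13}
    (hF : ∀ n, ‖PowerSeries.coeff n F‖ * (23 / 20 : ℝ) ^ n ≤ 1)
    (hG : ∀ n, ‖PowerSeries.coeff n G‖ * (23 / 20 : ℝ) ^ n ≤ 1) (n : ℕ) :
    ‖PowerSeries.coeff n (F * G)‖ * (23 / 20 : ℝ) ^ n ≤ 1 := by
  have h : ‖PowerSeries.coeff n (F * G)‖ ≤ (20 / 23 : ℝ) ^ n := by
    rw [PowerSeries.coeff_mul]
    refine IsUltrametricDist.norm_sum_le_of_forall_le_of_nonneg (by positivity) fun x hx ↦ ?_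
    rw [Finset.HasAntidiagonal.mem_antidiagonal] at hx
    have e : ∀ {H : PowerSeries C13} (_ : ∀ n, ‖PowerSeries.coeff n H‖ * (23 / 20 : ℝ) ^ n ≤ 1)
        (m : ℕ), ‖PowerSeries.coeff m H‖ ≤ (20 / 23 : ℝ) ^ m := by
      intro H hH m
      have h1 := hH m
      rw [← le_div_iff₀ (by positivity), one_div, ← inv_pow] at h1
      have h2 : (23 / 20 : ℝ)⁻¹ = 20 / 23 := by norm_num
      rwa [h2] at h1
    rw [norm_mul, ← hx, pow_add]
    exact mul_le_mul (e hF _) (e hG _) (norm_nonneg _) (by positivity)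
  calc ‖PowerSeries.coeff n (F * G)‖ * (23 / 20 : ℝ) ^ n ≤
        (20 / 23 : ℝ) ^ n * (23 / 20 : ℝ) ^ n :=
        mul_le_mul_of_nonneg_right h (by positivity)
    _ = 1 := by
        rw [← mul_pow]
        norm_num

theorem m13_subst_inv (c : ℕ) : (wser13 C13 c).subst (hauptmodul 13 C13) *
    ((wser13 C13 c)⁻¹).subst (hauptmodul 13 C13) = 1 := by
  rw [← PowerSeries.subst_mul (fx_hasSubst 13), wser13_mul_inv,
    ← coe_substAlgHom (fx_hasSubst 13), map_one]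

theorem m13_isUMat {c : ℕ} (hc : c ≤ 5) (x : C13) :
    IsUMat (phiPow13 x * dser13 C13 c) (Mat13 c x) where
  c0 := by rw [map_mul, constantCoeff_phiPow13, constantCoeff_dser13, one_mul]
  zero := fun _ _ h ↦ Mat13_of_lt c x h
  mat := fun u _ ↦ U_frm13_subst k13 hc x u

theorem m13_dec {c : ℕ} (hc : c ≤ 5) {x : C13} (hx : ‖x‖ ≤ 1) :
    Dec (23 / 20) ((7 / 6 : ℝ) ^ 14) (Mat13 c x) := by
  have h : Dec (7 / 6) ((7 / 6 : ℝ) ^ 14) (Mat13 c x) := by
    intro i j h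
    have h1 := norm_Mat13_le k13 hc hx h
    rw [inv_pow]
    rwa [← div_eq_mul_inv, le_div_iff₀ (by positivity)]
  exact h.mono (by norm_num) (by norm_num)

/-- The matrix in the basis `E_{z^{2c}} f^j`. -/
theorem m13_exists_M0 {c : ℕ} (hc : c ≤ 5) : ∃ M' : ℕ → ℕ → C13,
    IsUMat (dser13 C13 c * (wser13 C13 c).subst (hauptmodul 13 C13)) M' ∧
      Dec (23 / 20) ((7 / 6 : ℝ) ^ 14) M' := by
  have h := (m13_isUMat hc (0 : C13)).change (wser13 C13 c) ((wser13 C13 c)⁻¹)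
    (wser13_mul_inv _) (constantCoeff_wser13 _ _) (by norm_num : (1 : ℝ) < 23 / 20)
    (by positivity : (0 : ℝ) ≤ (7 / 6 : ℝ) ^ 14)
    (fun n ↦ m13_mono (by norm_num) (by norm_num) (norm_wser13 c n))
    (fun n ↦ m13_mono (by positivity) (by norm_num) (norm_wser13_inv c n))
    (m13_dec hc (by simp))
  rwa [phiPow13_zero, one_mul] at h

theorem m13_exists_ord : ∃ u : ℕ → C13 → C13, OrdVec13 u :=
  exists_ord13 (fun y ↦ Mat13_zero_zero y 0)
    (fun y hy i j h ↦ norm_Mat13_le k13 (by norm_num) hy h)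
    (fun y hy j ↦ norm_Mat13_le_one k13 (by norm_num) hy 1 j)
    (fun y hy ↦ norm_Mat13_one_one k13 hy) (fun y hy ↦ norm_Mat13_one_zero k13 hy)
    (Mat13_isPoly 0)

/-- All inputs of the assembly for the component `c`. -/
theorem ghost13_component (hcen : CentralTheorem13) (κ : Weight 13) (hκ : κ.IsEven) :
    (∀ m : ℕ, ∃ c : PadicComplex 13,
      Tendsto (fun N : ℕ ↦ fredBlock κ.uMatrixU N m) atTop (𝓝 c)) ∧
    newtonPolygon 13 κ.charSeriesU = newtonPolygon 13 (ghostG 13 κ.nu κ.w) := by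
  have hc : κ.nu ≤ 5 := by
    have h1 := (Weight.nu_spec κ hκ).1
    omega
  obtain ⟨E, hE⟩ := exists_eisFamP (p := 13) m13_ne_two
  obtain ⟨u, hu⟩ := m13_exists_ord
  obtain ⟨D, hD0, hD1, hD2, hD3⟩ := exists_frame13 k13 hc
  have hDe : ((Weight.incl 13) ^ (2 * κ.nu) : Weight 13).eis = cpl D := by
    by_cases h0 : κ.nu = 0
    · rw [hD3 h0, h0, mul_zero, pow_zero, Weight.eis_one]
      unfold cpl
      rw [map_one]
    · rw [hD2 (by omega), eis_incl_pow m13_ne_two (even_two_mul _) (by omega)]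
  obtain ⟨M0, hM0, hM0d⟩ := m13_exists_M0 hc
  rw [← hD1] at hM0
  have hB : ∀ y : C13, (phiPow13 y * ((wser13 C13 κ.nu)⁻¹).subst (hauptmodul 13 C13)) * cpl D =
      phiPow13 y * dser13 C13 κ.nu := by
    intro y
    rw [hD1]
    linear_combination (phiPow13 y * dser13 C13 κ.nu) * m13_subst_inv κ.nu
  have h := ghost_of_centralW (p := 13) m13_ne_two E hE κ.nu D hD0 hDe wx13
    (fun w hw ↦ exists_wx13_eq (by rwa [m13_cast] at hw))
    (fun y ↦ phiPow13 y * ((wser13 C13 κ.nu)⁻¹).subst (hauptmodul 13 C13))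
    (fun y _ ↦ by
      have h1 := congrArg PowerSeries.constantCoeff (m13_subst_inv κ.nu)
      have h2 : PowerSeries.constantCoeff ((wser13 C13 κ.nu).subst (hauptmodul 13 C13)) = 1 := by
        rw [← PowerSeries.coeff_zero_eq_constantCoeff_apply, fx_coeff_subst]
        simp [constantCoeff_wser13]
      rw [map_mul, h2, one_mul, map_one] at h1
      rw [map_mul, constantCoeff_phiPow13, h1, one_mul])
    (fun n y ↦ PowerSeries.coeff n ((PowerSeries.mk fun n ↦ u n y) * wser13 C13 κ.nu))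
    (23 / 20) (101 / 100) ((7 / 6 : ℝ) ^ 14) (by norm_num) (by norm_num)
    (fun y hy ↦ by
      rw [PowerSeries.coeff_zero_eq_constantCoeff_apply, map_mul, constantCoeff_wser13, mul_one,
        ← PowerSeries.coeff_zero_eq_constantCoeff_apply, PowerSeries.coeff_mk]
      exact (hu.eqs y hy).1)
    (fun y hy ↦ m13_mul (fun n ↦ by
      rw [PowerSeries.coeff_mk]
      exact m13_mono (by norm_num) (by norm_num) ((hu.eqs y hy).2.1 n))
      (fun n ↦ m13_mono (by norm_num) (by norm_num) (norm_wser13 κ.nu n)))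
    (fun y hy ↦ by
      rw [evSp_eisFam13 k13 E hE u hu y hy]
      have h1 : (PowerSeries.mk fun n ↦ PowerSeries.coeff n
          ((PowerSeries.mk fun n ↦ u n y) * wser13 C13 κ.nu)) =
          (PowerSeries.mk fun n ↦ u n y) * wser13 C13 κ.nu := by
        ext n
        rw [PowerSeries.coeff_mk]
      rw [h1, PowerSeries.subst_mul (fx_hasSubst 13)]
      linear_combination (-(phiPow13 y * (PowerSeries.mk fun n ↦ u n y).subst
        (hauptmodul 13 C13))) * m13_subst_inv κ.nu)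
    (fun y ↦ Mat13 κ.nu y)
    (fun y _ ↦ by
      rw [hB y]
      exact m13_isUMat hc y)
    (fun y hy ↦ m13_dec hc hy) M0 hM0 hM0d (fun w hw l ↦
      norm_Phi13_central k13 E hE u hu hw l) (fun w n ↦ ghostG 13 κ.nu (729 ^ κ.nu * (1 + w) - 1) n)
    (fun n ↦ n + 1) zero13 (fun n l ↦ multG 13 n (2 * κ.nu + 12 * l)) norm_zero13
    (fun w hw n ↦ norm_ghostG13 hc hw n) (deg13_convex hc)
    (fun n ↦ by
      obtain ⟨b, hb, hb1, hb2⟩ := deg13_strict hc n
      exact ⟨b, hb, Or.inr hb2⟩) (fun y hy ↦ hcen κ.nu hc y hy) κ hκ rfl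
  refine ⟨h.1, ?_⟩
  rw [h.2]
  congr 1
  funext n
  congr 1
  rw [w_base κ, pow_mul]
  norm_num

/-- **The ghost conjecture for `p = 13`, tame level one**, from the theorem on the central
disc. -/
theorem ghost13_of_central (hcen : CentralTheorem13) : GhostConjectureU 13 :=
  fun κ hκ ↦ ghost13_component hcen κ hκ

theorem decay_thirteen (κ : Weight 13) (hκ : κ.IsEven) :
    ∃ R : ℝ, 1 < R ∧ ∃ c : ℝ, 0 < c ∧
      (∀ i j : ℕ, 1 ≤ j → j ≤ 13 * i → ‖κ.uMatrixU i j‖ ≤ c * R⁻¹ ^ (13 * i - j)) ∧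
      (∀ i j : ℕ, 1 ≤ j → 13 * i < j → κ.uMatrixU i j = 0) := by
  have hc : κ.nu ≤ 5 := by
    have h1 := (Weight.nu_spec κ hκ).1
    omega
  obtain ⟨E, hE⟩ := exists_eisFamP (p := 13) m13_ne_two
  obtain ⟨u, hu⟩ := m13_exists_ord
  obtain ⟨D, hD0, hD1, hD2, hD3⟩ := exists_frame13 k13 hc
  have hDe : ((Weight.incl 13) ^ (2 * κ.nu) : Weight 13).eis = cpl D := by
    by_cases h0 : κ.nu = 0
    · rw [hD3 h0, h0, mul_zero, pow_zero, Weight.eis_one]
      unfold cpl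
      rw [map_one]
    · rw [hD2 (by omega), eis_incl_pow m13_ne_two (even_two_mul _) (by omega)]
  obtain ⟨M0, hM0, hM0d⟩ := m13_exists_M0 hc
  rw [← hD1] at hM0
  exact decay_of_central (p := 13) m13_ne_two E hE κ.nu D hD0 hDe (23 / 20) (101 / 100)
    ((7 / 6 : ℝ) ^ 14) (by norm_num) (by norm_num) M0 hM0 hM0d (fun w hw l ↦
      norm_Phi13_central k13 E hE u hu hw l) κ hκ rfl

theorem compactU_thirteen (κ : Weight 13) (hκ : κ.IsEven) :
    ∃ R : ℝ, 1 < R ∧ ∀ r : ℝ, 1 < r → r < R →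
    (∀ F : PowerSeries (PadicComplex 13), κ.IsCuspFormU r F →
      κ.IsCuspFormU (r ^ 13) (U 13 F)) ∧
    (∀ F : PowerSeries (PadicComplex 13), κ.IsCuspFormU r F → ∀ i : ℕ,
      fcoeff 13 (κ.frame⁻¹ * U 13 F) i =
        ∑ j ∈ Finset.range (13 * i + 1), κ.uMatrixU i j * fcoeff 13 (κ.frame⁻¹ * F) j) ∧
    (∃ ε : ℕ → ℝ, Tendsto ε atTop (𝓝 0) ∧
      ∀ i j : ℕ, 1 ≤ j → ‖κ.uMatrixU i j‖ * r ^ i ≤ ε i * r ^ j) := by
  obtain ⟨R, hR, c, hc, hA, hA0⟩ := decay_thirteen κ hκ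
  exact ⟨R, hR, fun r hr hrR ↦ compactU_of_decay κ hR hc hA hA0 r hr hrR⟩

end D13

end GH
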