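import Pool.Agent.GH.D13.Fix13

/-! The forms `θf/f`, `N4` and `N6` at `q^13`. -/

open PowerSeries Filter Topology

noncomputable section

namespace GH

namespace D13

/-! ### derivatives -/

lemma d13f_thq {R : Type*} [CommRing R] (F : PowerSeries R) :
    thq13 F = X * derivative R F := by
  ext n
  rcases n with _ | n
  · simp [thq13]
  · rw [thq13, coeff_mk, coeff_succ_X_mul, coeff_derivative]
    push_cast
    ring

lemma d13f_expand {R : Type*} [CommRing R] (F : PowerSeries R) :
    X * derivative R (F.expand 13 thirteen_ne) =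
      13 * (X * derivative R F).expand 13 thirteen_ne := by
  rw [expand_apply, derivative_subst (HasSubst.X_pow thirteen_ne), derivative_pow, derivative_X,
    map_mul, expand_X, expand_apply]
  push_cast
  ring

section poly

variable {A : Type*} [CommRing A]

/-- the derivative of `p3x` -/
def d13f_p3d (x : A) : A := 5 + 26 * x

/-- the derivative of `e4x` -/
def d13f_e4d (x : A) : A := 247 + 6760 * x + 46137 * x ^ 2 + 114244 * x ^ 3

/-- the derivative of `n4x` -/
def d13f_n4d (x : A) : A := 7 + 40 * x + 57 * x ^ 2 + 4 * x ^ 3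

lemma d13f_id1 (x : A) : p3x x * e4x x - x * d13f_p3d x * e4x x -
    3 * x * p3x x * d13f_e4d x = e6x x := by
  unfold p3x e4x d13f_p3d d13f_e4d e6x
  ring

lemma d13f_id2 (x : A) : 13 * p3x x * n4x x - x * d13f_p3d x * n4x x -
    3 * x * p3x x * d13f_n4d x = 13 * n6x x := by
  unfold p3x n4x d13f_p3d d13f_n4d n6x
  ring

end poly

section der

variable {R : Type*} [CommRing R]

lemma d13f_num (n : ℕ) [n.AtLeastTwo] :
    derivative R (OfNat.ofNat n : PowerSeries R) = 0 := by
  have h : (OfNat.ofNat n : PowerSeries R) = C (OfNat.ofNat n : R) := (map_ofNat C n).symm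
  rw [h, derivative_C]

lemma d13f_Dp3 (g : PowerSeries R) :
    derivative R (p3x g) = d13f_p3d g * derivative R g := by
  have n1 : derivative R (5 : PowerSeries R) = 0 := d13f_num 5
  have n2 : derivative R (13 : PowerSeries R) = 0 := d13f_num 13
  unfold p3x d13f_p3d
  simp only [map_add, Derivation.leibniz, derivative_pow, derivative_one, smul_eq_mul, n1, n2]
  push_cast
  ring

lemma d13f_De4 (g : PowerSeries R) :
    derivative R (e4x g) = d13f_e4d g * derivative R g := by
  have n1 : derivative R (247 : PowerSeries R) = 0 := d13f_num 247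
  have n2 : derivative R (3380 : PowerSeries R) = 0 := d13f_num 3380
  have n3 : derivative R (15379 : PowerSeries R) = 0 := d13f_num 15379
  have n4 : derivative R (28561 : PowerSeries R) = 0 := d13f_num 28561
  unfold e4x d13f_e4d
  simp only [map_add, Derivation.leibniz, derivative_pow, derivative_one, smul_eq_mul, n1, n2,
    n3, n4]
  push_cast
  ring

lemma d13f_Dn4 (g : PowerSeries R) :
    derivative R (n4x g) = d13f_n4d g * derivative R g := by
  have n1 : derivative R (7 : PowerSeries R) = 0 := d13f_num 7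
  have n2 : derivative R (20 : PowerSeries R) = 0 := d13f_num 20
  have n3 : derivative R (19 : PowerSeries R) = 0 := d13f_num 19
  unfold n4x d13f_n4d
  simp only [map_add, Derivation.leibniz, derivative_pow, derivative_one, smul_eq_mul, n1, n2,
    n3]
  push_cast
  ring

lemma d13f_DA (g : PowerSeries R) : derivative R (p3x g * e4x g ^ 3) =
    e4x g ^ 2 * (d13f_p3d g * e4x g + 3 * p3x g * d13f_e4d g) * derivative R g := by
  rw [Derivation.leibniz, derivative_pow, d13f_Dp3, d13f_De4, smul_eq_mul, smul_eq_mul]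
  push_cast
  ring

lemma d13f_Dn (g : PowerSeries R) : derivative R (p3x g * n4x g ^ 3) =
    n4x g ^ 2 * (d13f_p3d g * n4x g + 3 * p3x g * d13f_n4d g) * derivative R g := by
  rw [Derivation.leibniz, derivative_pow, d13f_Dp3, d13f_Dn4, smul_eq_mul, smul_eq_mul]
  push_cast
  ring

/-- the identity before cancellation -/
lemma d13f_pre (hK : K13) : (13 * S13 R - X * derivative R (S13 R)) *
    (e4x (gs13 R) ^ 2 * e6x (gs13 R)) = 13 * (n4x (X : PowerSeries R) ^ 2 * n6x X) := by
  have h1 := gs13_mul R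
  have h2 := congrArg (derivative R) h1
  rw [Derivation.leibniz, derivative_pow, derivative_X, smul_eq_mul, smul_eq_mul] at h2
  have h3 := S13_fix hK R
  have h4 := congrArg (derivative R) h3
  rw [Derivation.leibniz, d13f_DA, d13f_Dn, derivative_X, smul_eq_mul, smul_eq_mul] at h4
  have i1 := d13f_id1 (gs13 R)
  have i2 := d13f_id2 (X : PowerSeries R)
  push_cast at h2
  have h5 : S13 R * (X * derivative R (gs13 R)) =
      gs13 R * (13 * S13 R - X * derivative R (S13 R)) := by
    linear_combination X * h2 - 13 * h1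
  rw [← i1]
  have i3 : 13 * (n4x (X : PowerSeries R) ^ 2 * n6x X) = n4x X ^ 2 * (13 * p3x X * n4x X -
      X * d13f_p3d X * n4x X - 3 * X * p3x X * d13f_n4d X) := by
    rw [i2]
    ring
  rw [i3]
  linear_combination (-X) * h4 + 13 * h3 +
    e4x (gs13 R) ^ 2 * (d13f_p3d (gs13 R) * e4x (gs13 R) +
      3 * p3x (gs13 R) * d13f_e4d (gs13 R)) * h5

end der

section

variable {K : Type*} [Field K]

lemma d13f_ne {F : PowerSeries K} (h : PowerSeries.constantCoeff F = 1) : F ≠ 0 := by
  rintro rfl
  simp at h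

lemma d13f_cg : PowerSeries.constantCoeff (gs13 K) = 0 := by
  unfold gs13
  simp

lemma d13f_c4 : PowerSeries.constantCoeff (e4x (gs13 K)) = 1 := by
  rw [map_e4x, d13f_cg]
  simp [e4x]

lemma d13f_c6 : PowerSeries.constantCoeff (e6x (gs13 K)) = 1 := by
  rw [map_e6x, d13f_cg]
  simp [e6x]

/-- `13 S - h S' = 13 U² V`. -/
lemma d13f_main (hK : K13) : 13 * S13 K - X * derivative K (S13 K) =
    13 * (U13 K ^ 2 * V13 K) := by
  have h1 := d13f_pre (R := K) hK
  rw [← U13_mul K, ← V13_mul K] at h1
  have h2 : e4x (gs13 K) ^ 2 * e6x (gs13 K) ≠ 0 :=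
    mul_ne_zero (pow_ne_zero _ (d13f_ne d13f_c4)) (d13f_ne d13f_c6)
  apply mul_right_cancel₀ h2
  rw [h1]
  ring

/-- `S P_3(g) = P_3(h) U³`. -/
lemma d13f_U (hK : K13) : S13 K * p3x (gs13 K) = p3x (X : PowerSeries K) * U13 K ^ 3 := by
  have h1 := S13_fix hK K
  rw [← U13_mul K] at h1
  apply mul_right_cancel₀ (pow_ne_zero 3 (d13f_ne d13f_c4))
  linear_combination h1

/-- `S P_2(g) = P_2(h) V²`. -/
lemma d13f_V (hK : K13) : S13 K * p2x (gs13 K) = p2x (X : PowerSeries K) * V13 K ^ 2 := by
  have h1 := S13_fix' hK K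
  rw [← V13_mul K] at h1
  apply mul_right_cancel₀ (pow_ne_zero 2 (d13f_ne d13f_c6))
  linear_combination h1

/-- substitution of the Hauptmodul -/
def d13f_sub (K : Type*) [Field K] : PowerSeries K →+* PowerSeries K :=
  (substAlgHom (fx_hasSubst (R := K) 13) : PowerSeries K →ₐ[K] PowerSeries K).toRingHom

lemma d13f_sub_eq (F : PowerSeries K) : F.subst (hauptmodul 13 K) = d13f_sub K F :=
  (congrFun (coe_substAlgHom (fx_hasSubst (R := K) 13)) F).symm

lemma d13f_sub_X : d13f_sub K X = hauptmodul 13 K := by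
  rw [← d13f_sub_eq]
  exact subst_X (fx_hasSubst 13)

lemma d13f_sub_g : d13f_sub K (gs13 K) = (hauptmodul 13 K).expand 13 thirteen_ne := by
  rw [← d13f_sub_eq]
  exact gs13_subst K

lemma d13f_cc {F : PowerSeries K} (h : PowerSeries.constantCoeff F = 1) :
    PowerSeries.constantCoeff (d13f_sub K F) = 1 := by
  have h1 := congrFun (fcoeff_subst (p := 13) F) 0
  rw [fcoeff_zero, d13f_sub_eq, coeff_zero_eq_constantCoeff_apply,
    coeff_zero_eq_constantCoeff_apply, h] at h1
  exact h1

lemma d13f_f_ne : (hauptmodul 13 K).expand 13 thirteen_ne ≠ 0 := by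
  intro h
  have h1 := congrArg (PowerSeries.coeff (13 * 1)) h
  rw [coeff_expand_mul, coeff_one_hauptmodul, map_zero] at h1
  exact one_ne_zero h1

variable [CharZero K]

lemma d13f_13 : (13 : PowerSeries K) ≠ 0 := by
  have h : (13 : PowerSeries K) = C (13 : K) := (map_ofNat C 13).symm
  rw [h]
  intro h1
  have h2 := congrArg PowerSeries.constantCoeff h1
  rw [constantCoeff_C, map_zero] at h2
  exact absurd h2 (by norm_num)

end

variable {K : Type*} [Field K] [CharZero K]

/-- `R = 1 - hS'/(13S) = U² V/S`: `θ(f(q^13))/f(q^13) = 13 (θf/f) R(f)`. -/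
theorem dlog13_expand (hK : K13) :
    (dlog13 K).expand 13 thirteen_ne * (S13 K).subst (hauptmodul 13 K) =
      dlog13 K * (U13 K ^ 2 * V13 K).subst (hauptmodul 13 K) := by
  have h1 := dlog13_mul K
  rw [d13f_thq] at h1
  have h2 := hauptmodul13_expand K
  have h3 := congrArg (derivative K) h2
  rw [Derivation.leibniz, derivative_pow, derivative_subst (fx_hasSubst 13), smul_eq_mul,
    smul_eq_mul] at h3
  have h4 := d13f_expand (hauptmodul 13 K)
  rw [← h1, map_mul] at h4
  have h5 := congrArg (d13f_sub K) (d13f_main (K := K) hK)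
  rw [map_sub, map_mul, map_mul, map_mul, map_ofNat, d13f_sub_X] at h5
  rw [d13f_sub_eq] at h2 h3 h3
  rw [d13f_sub_eq, d13f_sub_eq]
  apply mul_left_cancel₀ d13f_13
  apply mul_left_cancel₀ (d13f_f_ne (K := K))
  push_cast at h3
  linear_combination X * h3 - d13f_sub K (S13 K) * h4 +
    (13 * hauptmodul 13 K ^ 12 -
      (hauptmodul 13 K).expand 13 thirteen_ne * d13f_sub K (derivative K (S13 K))) * (-h1) -
    13 * dlog13 K * h2 + (hauptmodul 13 K).expand 13 thirteen_ne * dlog13 K * h5

/-- `N4(q^13) = N4 U(f)`. -/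
theorem N4_expand (hK : K13) : (N4 K).expand 13 thirteen_ne =
    N4 K * (U13 K).subst (hauptmodul 13 K) := by
  rw [d13f_sub_eq]
  have h1 : (N4 K).expand 13 thirteen_ne ^ 3 = (N4 K * d13f_sub K (U13 K)) ^ 3 := by
    have e3 : PowerSeries.expand 13 thirteen_ne (p3x (hauptmodul 13 K)) =
        d13f_sub K (p3x (gs13 K)) := by
      rw [map_p3x, d13f_sub_g]
      exact map_p3x (PowerSeries.expand 13 thirteen_ne :
        PowerSeries K →ₐ[K] PowerSeries K).toRingHom (hauptmodul 13 K)
    rw [← map_pow, N4_cube, map_mul, e3, ← S13_subst, d13f_sub_eq, mul_assoc, ← map_mul,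
      d13f_U hK, mul_pow, N4_cube, map_mul, map_p3x, d13f_sub_X, map_pow]
    ring
  have h2 : ((N4 K).expand 13 thirteen_ne - N4 K * d13f_sub K (U13 K)) *
      ((N4 K).expand 13 thirteen_ne ^ 2 + (N4 K).expand 13 thirteen_ne *
        (N4 K * d13f_sub K (U13 K)) + (N4 K * d13f_sub K (U13 K)) ^ 2) = 0 := by
    linear_combination h1
  rcases mul_eq_zero.1 h2 with h3 | h3
  · exact sub_eq_zero.1 h3
  · exfalso
    have h4 := congrArg PowerSeries.constantCoeff h3
    rw [map_add, map_add, map_mul, map_pow, map_pow, map_mul, constantCoeff_expand,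
      constantCoeff_N4, d13f_cc (constantCoeff_U13 K), map_zero] at h4
    norm_num at h4

/-- `N6(q^13) = N6 V(f)`. -/
theorem N6_expand (hK : K13) : (N6 K).expand 13 thirteen_ne =
    N6 K * (V13 K).subst (hauptmodul 13 K) := by
  rw [d13f_sub_eq]
  have h1 : (N6 K).expand 13 thirteen_ne ^ 2 = (N6 K * d13f_sub K (V13 K)) ^ 2 := by
    have e3 : PowerSeries.expand 13 thirteen_ne (p2x (hauptmodul 13 K)) =
        d13f_sub K (p2x (gs13 K)) := by
      rw [map_p2x, d13f_sub_g]
      exact map_p2x (PowerSeries.expand 13 thirteen_ne :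
        PowerSeries K →ₐ[K] PowerSeries K).toRingHom (hauptmodul 13 K)
    rw [← map_pow, N6_sq, map_mul, e3, ← S13_subst, d13f_sub_eq, mul_assoc, ← map_mul,
      d13f_V hK, mul_pow, N6_sq, map_mul, map_p2x, d13f_sub_X, map_pow]
    ring
  have h2 : ((N6 K).expand 13 thirteen_ne - N6 K * d13f_sub K (V13 K)) *
      ((N6 K).expand 13 thirteen_ne + N6 K * d13f_sub K (V13 K)) = 0 := by
    linear_combination h1
  rcases mul_eq_zero.1 h2 with h3 | h3
  · exact sub_eq_zero.1 h3
  · exfalso
    have h4 := congrArg PowerSeries.constantCoeff h3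
    rw [map_add, map_mul, constantCoeff_expand, constantCoeff_N6,
      d13f_cc (constantCoeff_V13 K), map_zero] at h4
    norm_num at h4

end D13

end GH
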