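import Pool.Agent.GH.D13.Base13
import Pool.Agent.GH.FExp
import Pool.Agent.GH.FamA
import Pool.Agent.GH.UMatB_a

/-! The series `S`, `g`, `U`, `V`, `N4`, `N6` and their relations. -/

open PowerSeries Filter Topology

noncomputable section

namespace GH

namespace D13

/-! ### Products and expansion -/

lemma d13d_stab (K : Type*) [CommRing K] (k n N : ℕ) (h : n < k * (N + 1)) :
    ∀ M, N ≤ M → PowerSeries.coeff n (∏ m ∈ Finset.range M,
      (1 - (X : PowerSeries K) ^ (k * (m + 1)))) =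
      PowerSeries.coeff n (∏ m ∈ Finset.range N, (1 - (X : PowerSeries K) ^ (k * (m + 1)))) := by
  intro M hM
  induction M, hM using Nat.le_induction with
  | base => rfl
  | succ M hM ih =>
    rw [Finset.prod_range_succ, mul_sub, mul_one, map_sub, ih, PowerSeries.coeff_mul_X_pow',
      if_neg, sub_zero]
    have h1 : k * (N + 1) ≤ k * (M + 1) := Nat.mul_le_mul_left _ (by omega)
    omega

lemma d13d_ceu (K : Type*) [CommRing K] (k n M : ℕ) (hk : 1 ≤ k) (hM : n ≤ M) :
    PowerSeries.coeff n (euler K k) =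
      PowerSeries.coeff n (∏ m ∈ Finset.range M, (1 - (X : PowerSeries K) ^ (k * (m + 1)))) := by
  unfold euler
  rw [PowerSeries.coeff_mk]
  refine (d13d_stab K k n n ?_ M hM).symm
  nlinarith

lemma d13d_xprod (K : Type*) [CommRing K] (k N : ℕ) : (∏ m ∈ Finset.range N,
      (1 - (X : PowerSeries K) ^ (k * (m + 1)))).expand 13 thirteen_ne =
      ∏ m ∈ Finset.range N, (1 - (X : PowerSeries K) ^ (13 * k * (m + 1))) := by
  rw [map_prod]
  refine Finset.prod_congr rfl fun m _ => ?_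
  rw [map_sub, map_one, map_pow, PowerSeries.expand_X, ← pow_mul, mul_assoc]

lemma d13d_xeuler (K : Type*) [CommRing K] (k : ℕ) (hk : 1 ≤ k) :
    (euler K k).expand 13 thirteen_ne = euler K (13 * k) := by
  ext n
  rw [PowerSeries.coeff_expand]
  split_ifs with h
  · obtain ⟨l, rfl⟩ := h
    rw [Nat.mul_div_cancel_left l (by norm_num), d13d_ceu K k l l hk le_rfl,
      d13d_ceu K (13 * k) (13 * l) (13 * l) (by omega) le_rfl,
      ← PowerSeries.coeff_expand_mul 13 thirteen_ne, d13d_xprod]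
    refine (d13d_stab K (13 * k) (13 * l) l ?_ (13 * l) (by omega)).symm
    nlinarith
  · unfold euler
    rw [PowerSeries.coeff_mk, ← d13d_xprod,
      PowerSeries.coeff_expand_of_not_dvd 13 thirteen_ne _ h]

section

variable (R : Type*) [CommRing R]

lemma d13d_mul_inv (k : ℕ) : euler R k * invOfUnit (euler R k) 1 = 1 :=
  PowerSeries.mul_invOfUnit _ _ (by rw [fx_constantCoeff_euler]; rfl)

lemma d13d_isUnit (k : ℕ) : IsUnit (euler R k) := by
  rw [PowerSeries.isUnit_iff_constantCoeff, fx_constantCoeff_euler]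
  exact isUnit_one

lemma d13d_phi_mul : phi13 R * euler R 13 ^ 2 = euler R 1 ^ 26 := by
  unfold phi13
  calc euler R 1 ^ 26 * invOfUnit (euler R 13) 1 ^ 2 * euler R 13 ^ 2
      = euler R 1 ^ 26 * (euler R 13 * invOfUnit (euler R 13) 1) ^ 2 := by ring
    _ = euler R 1 ^ 26 := by rw [d13d_mul_inv, one_pow, mul_one]

theorem constantCoeff_phi13 : PowerSeries.constantCoeff (phi13 R) = 1 := by
  unfold phi13
  rw [map_mul, map_pow, map_pow, fx_constantCoeff_euler, PowerSeries.constantCoeff_invOfUnit]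
  simp

lemma d13d_phi_isUnit : IsUnit (phi13 R) := by
  rw [PowerSeries.isUnit_iff_constantCoeff, constantCoeff_phi13]
  exact isUnit_one

lemma d13d_cc_thq (F : PowerSeries R) : PowerSeries.constantCoeff (thq13 F) = 0 := by
  rw [← PowerSeries.coeff_zero_eq_constantCoeff_apply]
  unfold thq13
  rw [PowerSeries.coeff_mk]
  simp

theorem constantCoeff_dlog13 : PowerSeries.constantCoeff (dlog13 R) = 1 := by
  unfold dlog13
  rw [map_add, map_mul, d13d_cc_thq, zero_mul, add_zero, map_one]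

/-- The quotient `φ(q^13)²/φ(q)²`. -/
def d13d_Q : PowerSeries R := (phi13 R).expand 13 thirteen_ne * invOfUnit (phi13 R) 1

lemma d13d_S13 : S13 R = PowerSeries.mk (fcoeff 13 (d13d_Q R)) := rfl

lemma d13d_Q_mul : d13d_Q R * phi13 R = (phi13 R).expand 13 thirteen_ne := by
  have h : phi13 R * invOfUnit (phi13 R) 1 = 1 :=
    PowerSeries.mul_invOfUnit _ _ (by rw [constantCoeff_phi13]; rfl)
  unfold d13d_Q
  calc (phi13 R).expand 13 thirteen_ne * invOfUnit (phi13 R) 1 * phi13 R
      = (phi13 R).expand 13 thirteen_ne * (phi13 R * invOfUnit (phi13 R) 1) := by ring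
    _ = (phi13 R).expand 13 thirteen_ne := by rw [h, mul_one]

lemma d13d_Q_cc : PowerSeries.constantCoeff (d13d_Q R) = 1 := by
  have h := congrArg PowerSeries.constantCoeff (d13d_Q_mul R)
  rw [map_mul, PowerSeries.constantCoeff_expand, constantCoeff_phi13, mul_one] at h
  exact h

theorem constantCoeff_S13 : PowerSeries.constantCoeff (S13 R) = 1 := by
  rw [d13d_S13, ← PowerSeries.coeff_zero_eq_constantCoeff_apply, PowerSeries.coeff_mk,
    fcoeff_zero, PowerSeries.coeff_zero_eq_constantCoeff_apply, d13d_Q_cc]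

lemma d13d_cc_gs : PowerSeries.constantCoeff (gs13 R) = 0 := by
  unfold gs13
  simp

lemma d13d_e4x_zero : e4x (0 : R) = 1 := by
  unfold e4x
  ring

lemma d13d_e6x_zero : e6x (0 : R) = 1 := by
  unfold e6x
  ring

lemma d13d_n4x_zero : n4x (0 : R) = 1 := by
  unfold n4x
  ring

lemma d13d_n6x_zero : n6x (0 : R) = 1 := by
  unfold n6x
  ring

lemma d13d_p3x_zero : p3x (0 : R) = 1 := by
  unfold p3x
  ring

lemma d13d_p2x_zero : p2x (0 : R) = 1 := by
  unfold p2x
  ring

lemma d13d_cc_e4 : PowerSeries.constantCoeff (e4x (gs13 R)) = 1 := by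
  rw [map_e4x, d13d_cc_gs, d13d_e4x_zero]

lemma d13d_cc_e6 : PowerSeries.constantCoeff (e6x (gs13 R)) = 1 := by
  rw [map_e6x, d13d_cc_gs, d13d_e6x_zero]

lemma d13d_cc_n4 : PowerSeries.constantCoeff (n4x (X : PowerSeries R)) = 1 := by
  rw [map_n4x, PowerSeries.constantCoeff_X, d13d_n4x_zero]

lemma d13d_cc_n6 : PowerSeries.constantCoeff (n6x (X : PowerSeries R)) = 1 := by
  rw [map_n6x, PowerSeries.constantCoeff_X, d13d_n6x_zero]

lemma d13d_e4_isUnit : IsUnit (e4x (gs13 R)) := by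
  rw [PowerSeries.isUnit_iff_constantCoeff, d13d_cc_e4]
  exact isUnit_one

lemma d13d_e6_isUnit : IsUnit (e6x (gs13 R)) := by
  rw [PowerSeries.isUnit_iff_constantCoeff, d13d_cc_e6]
  exact isUnit_one

/-- `U e4(g) = n4(h)`. -/
theorem U13_mul : U13 R * e4x (gs13 R) = n4x X := by
  have h : e4x (gs13 R) * invOfUnit (e4x (gs13 R)) 1 = 1 :=
    PowerSeries.mul_invOfUnit _ _ (by rw [d13d_cc_e4]; rfl)
  unfold U13
  calc n4x (X : PowerSeries R) * invOfUnit (e4x (gs13 R)) 1 * e4x (gs13 R)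
      = n4x X * (e4x (gs13 R) * invOfUnit (e4x (gs13 R)) 1) := by ring
    _ = n4x X := by rw [h, mul_one]

/-- `V e6(g) = n6(h)`. -/
theorem V13_mul : V13 R * e6x (gs13 R) = n6x X := by
  have h : e6x (gs13 R) * invOfUnit (e6x (gs13 R)) 1 = 1 :=
    PowerSeries.mul_invOfUnit _ _ (by rw [d13d_cc_e6]; rfl)
  unfold V13
  calc n6x (X : PowerSeries R) * invOfUnit (e6x (gs13 R)) 1 * e6x (gs13 R)
      = n6x X * (e6x (gs13 R) * invOfUnit (e6x (gs13 R)) 1) := by ring
    _ = n6x X := by rw [h, mul_one]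

theorem constantCoeff_U13 : PowerSeries.constantCoeff (U13 R) = 1 := by
  have h := congrArg PowerSeries.constantCoeff (U13_mul R)
  rw [map_mul, d13d_cc_e4, mul_one, d13d_cc_n4] at h
  exact h

theorem constantCoeff_V13 : PowerSeries.constantCoeff (V13 R) = 1 := by
  have h := congrArg PowerSeries.constantCoeff (V13_mul R)
  rw [map_mul, d13d_cc_e6, mul_one, d13d_cc_n6] at h
  exact h

theorem map_phi13 {S : Type*} [CommRing S] (φ : R →+* S) :
    PowerSeries.map φ (phi13 R) = phi13 S := by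
  have h1 := congrArg (PowerSeries.map φ) (d13d_phi_mul R)
  rw [map_mul, map_pow, map_pow, fx_map_euler, fx_map_euler, ← d13d_phi_mul S] at h1
  exact ((d13d_isUnit S 13).pow 2).mul_right_cancel h1

/-- The series `u = (E(q^13)/E(q))^2`. -/
def d13d_u : PowerSeries R := (euler R 13 * invOfUnit (euler R 1) 1) ^ 2

lemma d13d_u_mul : d13d_u R * euler R 1 ^ 2 = euler R 13 ^ 2 := by
  unfold d13d_u
  rw [← mul_pow]
  have h : euler R 13 * invOfUnit (euler R 1) 1 * euler R 1 = euler R 13 := by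
    calc euler R 13 * invOfUnit (euler R 1) 1 * euler R 1
        = euler R 13 * (euler R 1 * invOfUnit (euler R 1) 1) := by ring
      _ = euler R 13 := by rw [d13d_mul_inv, mul_one]
  rw [h]

lemma d13d_u_cc : PowerSeries.constantCoeff (d13d_u R) = 1 := by
  have h := congrArg PowerSeries.constantCoeff (d13d_u_mul R)
  rw [map_mul, map_pow, map_pow, fx_constantCoeff_euler, fx_constantCoeff_euler, one_pow,
    mul_one] at h
  exact h

lemma d13d_u_inv : d13d_u R * invOfUnit (d13d_u R) 1 = 1 :=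
  PowerSeries.mul_invOfUnit _ _ (by rw [d13d_u_cc]; rfl)

lemma d13d_u_isUnit : IsUnit (d13d_u R) := by
  rw [PowerSeries.isUnit_iff_constantCoeff, d13d_u_cc]
  exact isUnit_one

lemma d13d_u_map {S : Type*} [CommRing S] (φ : R →+* S) :
    PowerSeries.map φ (d13d_u R) = d13d_u S := by
  have h1 := congrArg (PowerSeries.map φ) (d13d_u_mul R)
  rw [map_mul, map_pow, map_pow, fx_map_euler, fx_map_euler, ← d13d_u_mul S] at h1
  exact ((d13d_isUnit S 1).pow 2).mul_right_cancel h1

lemma d13d_thq_map {S : Type*} [CommRing S] (φ : R →+* S) (F : PowerSeries R) :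
    PowerSeries.map φ (thq13 F) = thq13 (PowerSeries.map φ F) := by
  ext n
  unfold thq13
  rw [PowerSeries.coeff_map, PowerSeries.coeff_mk, PowerSeries.coeff_mk, PowerSeries.coeff_map,
    map_mul, map_natCast]

lemma d13d_dlog_mul : (dlog13 R - 1) * d13d_u R = thq13 (d13d_u R) := by
  have h : dlog13 R = 1 + thq13 (d13d_u R) * invOfUnit (d13d_u R) 1 := rfl
  rw [h]
  calc (1 + thq13 (d13d_u R) * invOfUnit (d13d_u R) 1 - 1) * d13d_u R
      = thq13 (d13d_u R) * (d13d_u R * invOfUnit (d13d_u R) 1) := by ring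
    _ = thq13 (d13d_u R) := by rw [d13d_u_inv, mul_one]

theorem map_dlog13 {S : Type*} [CommRing S] (φ : R →+* S) :
    PowerSeries.map φ (dlog13 R) = dlog13 S := by
  have h1 := congrArg (PowerSeries.map φ) (d13d_dlog_mul R)
  rw [map_mul, map_sub, map_one, d13d_thq_map, d13d_u_map, ← d13d_dlog_mul S] at h1
  have h2 := (d13d_u_isUnit S).mul_right_cancel h1
  exact sub_left_inj.1 h2

lemma d13d_Q_map {S : Type*} [CommRing S] (φ : R →+* S) :
    PowerSeries.map φ (d13d_Q R) = d13d_Q S := by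
  have h1 := congrArg (PowerSeries.map φ) (d13d_Q_mul R)
  rw [map_mul, PowerSeries.map_expand, map_phi13, ← d13d_Q_mul S] at h1
  exact (d13d_phi_isUnit S).mul_right_cancel h1

theorem map_S13 {S : Type*} [CommRing S] (φ : R →+* S) :
    PowerSeries.map φ (S13 R) = S13 S := by
  ext n
  rw [d13d_S13, d13d_S13, PowerSeries.coeff_map, PowerSeries.coeff_mk, PowerSeries.coeff_mk,
    ← fcoeff_map, d13d_Q_map]

lemma d13d_S_isUnit : IsUnit (S13 R) := by
  rw [PowerSeries.isUnit_iff_constantCoeff, constantCoeff_S13]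
  exact isUnit_one

/-- `g S = h^13`. -/
theorem gs13_mul : gs13 R * S13 R = X ^ 13 := by
  have h : S13 R * invOfUnit (S13 R) 1 = 1 :=
    PowerSeries.mul_invOfUnit _ _ (by rw [constantCoeff_S13]; rfl)
  unfold gs13
  calc X ^ 13 * invOfUnit (S13 R) 1 * S13 R
      = X ^ 13 * (S13 R * invOfUnit (S13 R) 1) := by ring
    _ = X ^ 13 := by rw [h, mul_one]

theorem map_gs13 {S : Type*} [CommRing S] (φ : R →+* S) :
    PowerSeries.map φ (gs13 R) = gs13 S := by
  have h1 := congrArg (PowerSeries.map φ) (gs13_mul R)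
  rw [map_mul, map_S13, map_pow, PowerSeries.map_X, ← gs13_mul S] at h1
  exact (d13d_S_isUnit S).mul_right_cancel h1

theorem map_U13 {S : Type*} [CommRing S] (φ : R →+* S) :
    PowerSeries.map φ (U13 R) = U13 S := by
  have h1 := congrArg (PowerSeries.map φ) (U13_mul R)
  rw [map_mul, map_e4x, map_n4x, map_gs13, PowerSeries.map_X, ← U13_mul S] at h1
  exact (d13d_e4_isUnit S).mul_right_cancel h1

theorem map_V13 {S : Type*} [CommRing S] (φ : R →+* S) :
    PowerSeries.map φ (V13 R) = V13 S := by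
  have h1 := congrArg (PowerSeries.map φ) (V13_mul R)
  rw [map_mul, map_e6x, map_n6x, map_gs13, PowerSeries.map_X, ← V13_mul S] at h1
  exact (d13d_e6_isUnit S).mul_right_cancel h1

lemma d13d_haupt_u : hauptmodul 13 R = X * d13d_u R := rfl

lemma d13d_thq_X (F : PowerSeries R) : thq13 (X * F) = X * F + X * thq13 F := by
  ext n
  rw [map_add]
  unfold thq13
  rw [PowerSeries.coeff_mk]
  cases n with
  | zero => simp
  | succ n =>
    rw [PowerSeries.coeff_succ_X_mul, PowerSeries.coeff_succ_X_mul, PowerSeries.coeff_mk]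
    push_cast
    ring

/-- `(θf/f) f = θf`. -/
theorem dlog13_mul : dlog13 R * hauptmodul 13 R = thq13 (hauptmodul 13 R) := by
  rw [d13d_haupt_u, d13d_thq_X, ← d13d_dlog_mul]
  ring

lemma d13d_haupt : hauptmodul 13 R * euler R 1 ^ 2 = X * euler R 13 ^ 2 := by
  rw [d13d_haupt_u, mul_assoc, d13d_u_mul]

lemma d13d_subst_S : (S13 R).subst (hauptmodul 13 R) = d13d_Q R := by
  rw [d13d_S13, subst_fcoeff]

/-- `φ² S(f) = φ(q^13)²`. -/
theorem S13_subst : phi13 R * (S13 R).subst (hauptmodul 13 R) =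
    (phi13 R).expand 13 thirteen_ne := by
  rw [d13d_subst_S, mul_comm, d13d_Q_mul]

/-- `f φ² = Δ = q ∏ (1-q^n)^24`. -/
theorem hauptmodul13_mul_phi : hauptmodul 13 R * phi13 R = X * euler R 1 ^ 24 := by
  have hb : IsUnit (euler R 13 ^ 2) := (d13d_isUnit R 13).pow 2
  apply hb.mul_right_cancel
  calc hauptmodul 13 R * phi13 R * euler R 13 ^ 2
      = hauptmodul 13 R * (phi13 R * euler R 13 ^ 2) := by ring
    _ = hauptmodul 13 R * euler R 1 ^ 2 * euler R 1 ^ 24 := by
        rw [d13d_phi_mul]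
        ring
    _ = X * euler R 1 ^ 24 * euler R 13 ^ 2 := by
        rw [d13d_haupt]
        ring

/-- `f(q^13) S(f) = f^13`. -/
theorem hauptmodul13_expand : (hauptmodul 13 R).expand 13 thirteen_ne *
    (S13 R).subst (hauptmodul 13 R) = hauptmodul 13 R ^ 13 := by
  apply (d13d_phi_isUnit R).mul_right_cancel
  have h1 := congrArg (PowerSeries.expand 13 thirteen_ne) (hauptmodul13_mul_phi R)
  rw [map_mul, map_mul, map_pow, d13d_xeuler R 1 le_rfl, PowerSeries.expand_X] at h1
  have h2 := d13d_Q_mul R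
  rw [d13d_subst_S]
  calc (hauptmodul 13 R).expand 13 thirteen_ne * d13d_Q R * phi13 R
      = (hauptmodul 13 R).expand 13 thirteen_ne * (d13d_Q R * phi13 R) := by ring
    _ = (hauptmodul 13 R).expand 13 thirteen_ne * (phi13 R).expand 13 thirteen_ne := by
        rw [h2]
    _ = X ^ 13 * euler R 13 ^ 24 := h1
    _ = (X * euler R 13 ^ 2) ^ 12 * X := by ring
    _ = hauptmodul 13 R ^ 12 * (X * euler R 1 ^ 24) := by
        rw [← d13d_haupt]
        ring
    _ = hauptmodul 13 R ^ 13 * phi13 R := by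
        rw [← hauptmodul13_mul_phi]
        ring

lemma d13d_Q_isUnit : IsUnit (d13d_Q R) := by
  rw [PowerSeries.isUnit_iff_constantCoeff, d13d_Q_cc]
  exact isUnit_one

/-- `g(f) = f(q^13)`. -/
theorem gs13_subst :
    (gs13 R).subst (hauptmodul 13 R) = (hauptmodul 13 R).expand 13 thirteen_ne := by
  apply (d13d_Q_isUnit R).mul_right_cancel
  have h1 := hauptmodul13_expand R
  rw [d13d_subst_S] at h1
  rw [h1, ← d13d_subst_S, ← PowerSeries.subst_mul (fx_hasSubst 13), gs13_mul]
  have h2 := map_pow (substAlgHom (R := R) (fx_hasSubst (R := R) 13)) X 13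
  rw [substAlgHom_X, coe_substAlgHom] at h2
  exact h2

lemma d13d_cc_haupt : PowerSeries.constantCoeff (hauptmodul 13 R) = 0 := by
  rw [d13d_haupt_u]
  simp

lemma d13d_cc_phi_p3 : PowerSeries.constantCoeff (phi13 R * p3x (hauptmodul 13 R)) = 1 := by
  rw [map_mul, constantCoeff_phi13, map_p3x, d13d_cc_haupt, d13d_p3x_zero, one_mul]

lemma d13d_cc_phi_p2 : PowerSeries.constantCoeff (phi13 R * p2x (hauptmodul 13 R)) = 1 := by
  rw [map_mul, constantCoeff_phi13, map_p2x, d13d_cc_haupt, d13d_p2x_zero, one_mul]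

end

section

variable (K : Type*) [Field K] [CharZero K]

lemma d13d_root {u : PowerSeries K} (hu : PowerSeries.constantCoeff u = 1) (s : K) (n : ℕ) :
    ppow u s ^ n = ppow u (n * s) := by
  induction n with
  | zero => rw [pow_zero, Nat.cast_zero, zero_mul, ub_ppow_zero hu]
  | succ n ih => rw [pow_succ, ih, ← ub_ppow_add hu, Nat.cast_succ, add_mul, one_mul]

theorem N4_cube : N4 K ^ 3 = phi13 K * p3x (hauptmodul 13 K) := by
  have hu := d13d_cc_phi_p3 K
  unfold N4
  rw [d13d_root K hu (1 / 3) 3]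
  have h : ((3 : ℕ) : K) * (1 / 3) = 1 := by
    push_cast
    norm_num
  rw [h, ub_ppow_one hu]

theorem N6_sq : N6 K ^ 2 = phi13 K * p2x (hauptmodul 13 K) := by
  have hu := d13d_cc_phi_p2 K
  unfold N6
  rw [d13d_root K hu (1 / 2) 2]
  have h : ((2 : ℕ) : K) * (1 / 2) = 1 := by
    push_cast
    norm_num
  rw [h, ub_ppow_one hu]

end

theorem constantCoeff_N4 (K : Type*) [Field K] : PowerSeries.constantCoeff (N4 K) = 1 :=
  fa_constantCoeff_ppow (d13d_cc_phi_p3 K) _

theorem constantCoeff_N6 (K : Type*) [Field K] : PowerSeries.constantCoeff (N6 K) = 1 :=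
  fa_constantCoeff_ppow (d13d_cc_phi_p2 K) _

/-- The conclusions of `K13`. -/
structure K13 : Prop where
  k1 : eisQ 4 ^ 3 = phi13 ℚ * (p3x (hauptmodul 13 ℚ) * e4x (hauptmodul 13 ℚ) ^ 3)
  k2 : (eisQ 4).expand 13 thirteen_ne ^ 3 = phi13 ℚ *
    (p3x (hauptmodul 13 ℚ) * n4x (hauptmodul 13 ℚ) ^ 3)

end D13

end GH
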