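import Pool.Agent.GH.D13.Eta13

/-! A form of weight `k` for `Γ_0(13)` with a zero of order `m > 14k/12` at infinity is zero:
the product `N(z) = F(z) ∏_{b < 13} (F|S)(z + b)` is a form of weight `14k` of level one. -/

open Filter Topology

noncomputable section

namespace GH

namespace D13

open scoped MatrixGroups Manifold
open ModularForm UpperHalfPlane CongruenceSubgroup SlashInvariantForm

/-- `F|S`. -/
def d13b_G (k : ℕ) (F : ℂ → ℂ) (z : ℂ) : ℂ := F (-1 / z) / z ^ k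

/-- The fourteen factors of the norm. -/
def d13b_fam (k : ℕ) (F : ℂ → ℂ) (i : ℕ) (z : ℂ) : ℂ :=
  if i = 13 then F z else d13b_G k F (z + i)

/-- The norm. -/
def d13b_N (k : ℕ) (F : ℂ → ℂ) (z : ℂ) : ℂ := ∏ i ∈ Finset.range 14, d13b_fam k F i z

theorem d13b_N_eq (k : ℕ) (F : ℂ → ℂ) (z : ℂ) : d13b_N k F z =
    d13b_G k F z * d13b_G k F (z + 1) * d13b_G k F (z + 2) * d13b_G k F (z + 3) *
      d13b_G k F (z + 4) * d13b_G k F (z + 5) * d13b_G k F (z + 6) * d13b_G k F (z + 7) *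
      d13b_G k F (z + 8) * d13b_G k F (z + 9) * d13b_G k F (z + 10) * d13b_G k F (z + 11) *
      d13b_G k F (z + 12) * F z := by
  simp [d13b_N, d13b_fam, Finset.prod_range_succ]

theorem d13b_im_inv {z : ℂ} (hz : 0 < z.im) : 0 < (-1 / z).im := by
  have h0 : z ≠ 0 := fun h ↦ by simp [h] at hz
  have h1 : (-1 / z).im = z.im / Complex.normSq z := by
    rw [neg_div, one_div, Complex.neg_im, Complex.inv_im]
    ring
  rw [h1]
  exact div_pos hz (Complex.normSq_pos.mpr h0)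

theorem d13b_ne {z : ℂ} (hz : 0 < z.im) : z ≠ 0 := fun h ↦ by simp [h] at hz

theorem d13b_pair {k : ℕ} (hk : Even k) {F : ℂ → ℂ} {z b b' u w e : ℂ} (hz : z ≠ 0)
    (hzb : z + b' ≠ 0) (hb : b * z - 1 ≠ 0) (hF : F u = e ^ k * F w) (hu : u = -1 / (-1 / z + b))
    (hw : w = -1 / (z + b')) (he : e ^ 2 * (z + b') ^ 2 = (b * z - 1) ^ 2) :
    d13b_G k F (-1 / z + b) = z ^ k * d13b_G k F (z + b') := by
  obtain ⟨j, rfl⟩ := hk
  have h1 : -1 / z + b = (b * z - 1) / z := by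
    field_simp
    ring
  have h2 : e ^ (j + j) * (z + b') ^ (j + j) = (b * z - 1) ^ (j + j) := by
    rw [← two_mul, pow_mul, pow_mul, pow_mul, ← mul_pow, he]
  have h3 : (b * z - 1) ^ (j + j) ≠ 0 := pow_ne_zero _ hb
  have h4 : (z + b') ^ (j + j) ≠ 0 := pow_ne_zero _ hzb
  have h5 : z ^ (j + j) ≠ 0 := pow_ne_zero _ hz
  have h6 : d13b_G (j + j) F (-1 / z + b) = F u / (-1 / z + b) ^ (j + j) := by
    rw [d13b_G, ← hu]
  have h7 : d13b_G (j + j) F (z + b') = F w / (z + b') ^ (j + j) := by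
    rw [d13b_G, ← hw]
  rw [h6, h7, hF, h1, div_pow, div_div_eq_mul_div, mul_div_assoc', div_eq_div_iff h3 h4, ← h2]
  ring

section

variable {k : ℕ} {F : ℂ → ℂ}

theorem d13b_lin_ne {z : ℂ} (hz : 0 < z.im) {c d : ℝ} (h : c ≠ 0 ∨ d ≠ 0) :
    (c : ℂ) * z + d ≠ 0 := by
  intro h1
  have h2 := congrArg Complex.im h1
  have h3 := congrArg Complex.re h1
  simp at h2 h3
  rcases h2 with h2 | h2
  · rw [h2, zero_mul, zero_add] at h3
    rcases h with h | h
    · exact h h2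
    · exact h h3
  · exact hz.ne' h2

theorem d13b_im {a b c d : ℝ} (h : a * d - b * c = 1) {z : ℂ} (hz : 0 < z.im) :
    0 < (((a : ℂ) * z + b) / ((c : ℂ) * z + d)).im := by
  have hne : (c : ℂ) * z + d ≠ 0 := d13b_lin_ne hz (by
    by_contra h1
    rw [not_or, not_not, not_not] at h1
    rw [h1.1, h1.2] at h
    norm_num at h)
  have h1 : (((a : ℂ) * z + b) / ((c : ℂ) * z + d)).im =
      z.im / Complex.normSq ((c : ℂ) * z + d) := by
    rw [Complex.div_im, ← sub_div]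
    congr 1
    simp
    linear_combination z.im * h
  rw [h1]
  exact div_pos hz (Complex.normSq_pos.mpr hne)

/-- `F` is invariant of weight `k` under `(a b; c d)`. -/
def d13b_MI (k : ℕ) (F : ℂ → ℂ) (a b c d : ℝ) : Prop :=
  ∀ z : ℂ, 0 < z.im → F (((a : ℂ) * z + b) / ((c : ℂ) * z + d)) = ((c : ℂ) * z + d) ^ k * F z

theorem d13b_MI_neg (hk : Even k) {a b c d : ℝ} (h : d13b_MI k F a b c d) :
    d13b_MI k F (-a) (-b) (-c) (-d) := by
  intro z hz
  have h1 := h z hz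
  have h2 : ((-a : ℝ) : ℂ) * z + ((-b : ℝ) : ℂ) = -((a : ℂ) * z + b) := by
    push_cast
    ring
  have h3 : ((-c : ℝ) : ℂ) * z + ((-d : ℝ) : ℂ) = -((c : ℂ) * z + d) := by
    push_cast
    ring
  rw [h2, h3, neg_div_neg_eq, h1, hk.neg_pow]

theorem d13b_MI_mul {a b c d a' b' c' d' : ℝ} (h : d13b_MI k F a b c d)
    (h' : d13b_MI k F a' b' c' d') (hdet' : a' * d' - b' * c' = 1) :
    d13b_MI k F (a * a' + b * c') (a * b' + b * d') (c * a' + d * c') (c * b' + d * d') := by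
  intro z hz
  have hne' : (c' : ℂ) * z + d' ≠ 0 := d13b_lin_ne hz (by
    by_contra h1
    rw [not_or, not_not, not_not] at h1
    rw [h1.1, h1.2] at hdet'
    norm_num at hdet')
  set v := ((a' : ℂ) * z + b') / ((c' : ℂ) * z + d') with hv
  have hvi : 0 < v.im := d13b_im hdet' hz
  have h1 := h v hvi
  have h2 := h' z hz
  rw [← hv] at h2
  have h3 : (((c * a' + d * c' : ℝ) : ℂ) * z + ((c * b' + d * d' : ℝ) : ℂ)) =
      ((c : ℂ) * v + d) * ((c' : ℂ) * z + d') := by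
    rw [hv, add_mul, mul_assoc, div_mul_cancel₀ _ hne']
    push_cast
    ring
  have h4 : (((a * a' + b * c' : ℝ) : ℂ) * z + ((a * b' + b * d' : ℝ) : ℂ)) =
      ((a : ℂ) * v + b) * ((c' : ℂ) * z + d') := by
    rw [hv, add_mul, mul_assoc, div_mul_cancel₀ _ hne']
    push_cast
    ring
  rw [h3, h4, mul_div_mul_right _ _ hne', h1, h2, mul_pow]
  ring

theorem d13b_MI_inv (hk : Even k) {a b c d : ℝ} (h : d13b_MI k F a b c d)
    (hdet : a * d - b * c = 1) : d13b_MI k F (-d) b c (-a) := by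
  intro w hw
  have hdet2 : (-d) * (-a) - b * c = 1 := by linarith
  have hne : (c : ℂ) * w + ((-a : ℝ) : ℂ) ≠ 0 := d13b_lin_ne hw (by
    by_contra h1
    rw [not_or, not_not, not_not] at h1
    rw [h1.1, h1.2] at hdet2
    norm_num at hdet2)
  set v := (((-d : ℝ) : ℂ) * w + b) / ((c : ℂ) * w + ((-a : ℝ) : ℂ)) with hv
  have hvi : 0 < v.im := d13b_im hdet2 hw
  have h1 := h v hvi
  have hdc : (a : ℂ) * d - b * c = 1 := by exact_mod_cast hdet
  have h2 : (c : ℂ) * v + d = -1 / ((c : ℂ) * w + ((-a : ℝ) : ℂ)) := by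
    rw [eq_div_iff hne, hv, add_mul, mul_assoc, div_mul_cancel₀ _ hne]
    push_cast
    linear_combination -hdc
  have h3 : (a : ℂ) * v + b = -w / ((c : ℂ) * w + ((-a : ℝ) : ℂ)) := by
    rw [eq_div_iff hne, hv, add_mul, mul_assoc, div_mul_cancel₀ _ hne]
    push_cast
    linear_combination -w * hdc
  have h4 : (-w / ((c : ℂ) * w + ((-a : ℝ) : ℂ))) / (-1 / ((c : ℂ) * w + ((-a : ℝ) : ℂ))) = w := by
    rw [div_div_div_cancel_right₀ hne, div_neg, div_one, neg_neg]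
  rw [h2, h3, h4, div_pow, hk.neg_one_pow] at h1
  rw [h1, ← mul_assoc, mul_one_div, div_self (pow_ne_zero _ hne), one_mul]

theorem d13b_S {b b' : ℝ} (hk : Even k) (hM : d13b_MI k F (-b') (-1) (b * b' + 1) b)
    (hb : b ≠ 0) {z : ℂ} (hz : 0 < z.im) :
    d13b_G k F (-1 / z + b) = z ^ k * d13b_G k F (z + b') := by
  have hz0 := d13b_ne hz
  have hw : 0 < (z + (b' : ℂ)).im := by simpa using hz
  have hw0 := d13b_ne hw
  have hb0 : (b : ℂ) * z - 1 ≠ 0 := by
    have := d13b_lin_ne hz (c := b) (d := -1) (Or.inl hb)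
    push_cast at this
    rwa [← sub_eq_add_neg] at this
  have h1 := hM (-1 / (z + b')) (d13b_im_inv hw)
  have h2 : (((b * b' + 1 : ℝ) : ℂ)) * (-1 / (z + b')) + b = ((b : ℂ) * z - 1) / (z + b') := by
    rw [eq_div_iff hw0, add_mul, mul_assoc, div_mul_cancel₀ _ hw0]
    push_cast
    ring
  have h3 : ((-b' : ℝ) : ℂ) * (-1 / (z + b')) + ((-1 : ℝ) : ℂ) = -z / (z + b') := by
    rw [eq_div_iff hw0, add_mul, mul_assoc, div_mul_cancel₀ _ hw0]
    push_cast
    ring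
  have h4 : (-z / (z + b')) / (((b : ℂ) * z - 1) / (z + b')) = -1 / (-1 / z + b) := by
    have h5 : -1 / z + (b : ℂ) = ((b : ℂ) * z - 1) / z := by
      field_simp
      ring
    rw [h5, div_div_div_cancel_right₀ hw0, div_div_eq_mul_div, neg_one_mul]
  rw [h2, h3, h4] at h1
  refine d13b_pair hk hz0 hw0 hb0 h1 rfl rfl ?_
  rw [div_pow, div_mul_cancel₀ _ (pow_ne_zero _ hw0)]

theorem d13b_per (hI : Inv13 k F) {z : ℂ} (hz : 0 < z.im) :
    d13b_G k F (z + 13) = d13b_G k F z := by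
  have h7 : 0 < (z + 13).im := by simpa using hz
  have hz0 := d13b_ne hz
  have h70 := d13b_ne h7
  have h1 := hI.V (-1 / (z + 13)) (d13b_im_inv h7)
  have h2 : 13 * (-1 / (z + 13)) + 1 = z / (z + 13) := by
    field_simp
    ring
  have h3 : -1 / (z + 13) / (z / (z + 13)) = -1 / z := by
    field_simp
  rw [h2, h3] at h1
  rw [d13b_G, d13b_G, h1, div_pow]
  have h4 : z ^ k ≠ 0 := pow_ne_zero _ hz0
  have h5 : (z + 13) ^ k ≠ 0 := pow_ne_zero _ h70
  field_simp

theorem d13b_per' (hI : Inv13 k F) {z w : ℂ} (hz : 0 < z.im) (h : w = z + 13) :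
    d13b_G k F w = d13b_G k F z := by
  rw [h, d13b_per hI hz]

/-- The relation between `G(-1/z + n)` and `G(z + n')` modulo `13`. -/
theorem d13b_Sn {b b' : ℝ} (hk : Even k) (hI : Inv13 k F)
    (hM : d13b_MI k F (-b') (-1) (b * b' + 1) b) (hb : b ≠ 0) {n n' : ℂ}
    (hn : n = b ∨ n = b + 13) (hn' : n' = b' ∨ n' = b' + 13) {z : ℂ} (hz : 0 < z.im) :
    d13b_G k F (-1 / z + n) = z ^ k * d13b_G k F (z + n') := by
  have h1 : d13b_G k F (-1 / z + n) = d13b_G k F (-1 / z + b) := by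
    rcases hn with rfl | rfl
    · rfl
    · refine d13b_per' hI ?_ (by ring)
      have := d13b_im_inv hz
      simpa using this
  have h2 : d13b_G k F (z + n') = d13b_G k F (z + b') := by
    rcases hn' with rfl | rfl
    · rfl
    · refine d13b_per' hI ?_ (by ring)
      simpa using hz
  rw [h1, h2, d13b_S hk hM hb hz]

theorem d13b_S0 (hk : Even k) {z : ℂ} (hz : 0 < z.im) :
    d13b_G k F (-1 / z) = z ^ k * F z := by
  have hz0 := d13b_ne hz
  have h1 : -1 / (-1 / z) = z := by field_simp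
  rw [d13b_G, h1, div_pow, hk.neg_one_pow]
  have h4 : z ^ k ≠ 0 := pow_ne_zero _ hz0
  field_simp

theorem d13b_MI_T (hI : Inv13 k F) : d13b_MI k F 1 (-1) 0 1 := by
  intro z _
  have h1 := hI.T (z - 1)
  rw [sub_add_cancel] at h1
  have h2 : ((1 : ℝ) : ℂ) * z + ((-1 : ℝ) : ℂ) = z - 1 := by
    push_cast
    ring
  have h3 : ((0 : ℝ) : ℂ) * z + ((1 : ℝ) : ℂ) = 1 := by
    push_cast
    ring
  rw [h2, h3, div_one, one_pow, one_mul, h1]

theorem d13b_MI_T' (hI : Inv13 k F) : d13b_MI k F 1 1 0 1 := by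
  intro z _
  have h1 := hI.T z
  have h2 : ((1 : ℝ) : ℂ) * z + ((1 : ℝ) : ℂ) = z + 1 := by
    push_cast
    ring
  have h3 : ((0 : ℝ) : ℂ) * z + ((1 : ℝ) : ℂ) = 1 := by
    push_cast
    ring
  rw [h2, h3, div_one, one_pow, one_mul, h1]

theorem d13b_MI_a1 (hI : Inv13 k F) : d13b_MI k F (-4) (-1) 13 3 := by
  intro z hz
  have h1 := hI.a1 z hz
  push_cast
  rw [← sub_eq_add_neg]
  exact h1

theorem d13b_MI_a2 (hI : Inv13 k F) : d13b_MI k F 4 (-1) 13 (-3) := by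
  intro z hz
  have h1 := hI.a2 z hz
  push_cast
  rw [← sub_eq_add_neg, ← sub_eq_add_neg]
  exact h1

theorem d13b_MI_b1 (hI : Inv13 k F) : d13b_MI k F (-5) (-1) 26 5 := by
  intro z hz
  have h1 := hI.b1 z hz
  push_cast
  rw [← sub_eq_add_neg]
  exact h1

theorem d13b_MI_b2 (hI : Inv13 k F) : d13b_MI k F 5 (-1) 26 (-5) := by
  intro z hz
  have h1 := hI.b2 z hz
  push_cast
  rw [← sub_eq_add_neg, ← sub_eq_add_neg]
  exact h1

theorem d13b_cast {a b c d a' b' c' d' : ℝ} (h : d13b_MI k F a b c d) (ha : a = a')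
    (hb : b = b') (hc : c = c') (hd : d = d') : d13b_MI k F a' b' c' d' := by
  subst ha hb hc hd
  exact h

theorem d13b_MI_c1 (hI : Inv13 k F) : d13b_MI k F (-6) (-1) 13 2 :=
  d13b_cast (d13b_MI_mul (d13b_MI_a1 hI) (d13b_MI_b1 hI) (by norm_num)) (by norm_num)
    (by norm_num) (by norm_num) (by norm_num)

theorem d13b_MI_c2 (hk : Even k) (hI : Inv13 k F) : d13b_MI k F 6 (-1) 13 (-2) :=
  d13b_cast (d13b_MI_neg hk (d13b_MI_mul (d13b_MI_a2 hI) (d13b_MI_b2 hI) (by norm_num)))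
    (by norm_num) (by norm_num) (by norm_num) (by norm_num)

theorem d13b_S1 (hk : Even k) (hI : Inv13 k F) {z : ℂ} (hz : 0 < z.im) :
    d13b_G k F (-1 / z + 1) = z ^ k * d13b_G k F (z + 12) :=
  d13b_Sn (b := 1) (b' := -1) hk hI (d13b_cast (d13b_MI_T hI) (by norm_num) (by norm_num)
    (by norm_num) (by norm_num)) (by norm_num) (Or.inl (by norm_num)) (Or.inr (by norm_num)) hz

theorem d13b_S12 (hk : Even k) (hI : Inv13 k F) {z : ℂ} (hz : 0 < z.im) :
    d13b_G k F (-1 / z + 12) = z ^ k * d13b_G k F (z + 1) :=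
  d13b_Sn (b := -1) (b' := 1) hk hI (d13b_cast (d13b_MI_neg hk (d13b_MI_T' hI)) (by norm_num)
    (by norm_num) (by norm_num) (by norm_num)) (by norm_num) (Or.inr (by norm_num))
    (Or.inl (by norm_num)) hz

theorem d13b_S2 (hk : Even k) (hI : Inv13 k F) {z : ℂ} (hz : 0 < z.im) :
    d13b_G k F (-1 / z + 2) = z ^ k * d13b_G k F (z + 6) :=
  d13b_Sn (b := 2) (b' := 6) hk hI (d13b_cast (d13b_MI_c1 hI) (by norm_num) (by norm_num)
    (by norm_num) (by norm_num)) (by norm_num) (Or.inl (by norm_num)) (Or.inl (by norm_num)) hz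

theorem d13b_S6 (hk : Even k) (hI : Inv13 k F) {z : ℂ} (hz : 0 < z.im) :
    d13b_G k F (-1 / z + 6) = z ^ k * d13b_G k F (z + 2) :=
  d13b_Sn (b := 6) (b' := 2) hk hI (d13b_cast (d13b_MI_inv hk (d13b_MI_c1 hI) (by norm_num))
    (by norm_num) (by norm_num) (by norm_num) (by norm_num)) (by norm_num)
    (Or.inl (by norm_num)) (Or.inl (by norm_num)) hz

theorem d13b_S11 (hk : Even k) (hI : Inv13 k F) {z : ℂ} (hz : 0 < z.im) :
    d13b_G k F (-1 / z + 11) = z ^ k * d13b_G k F (z + 7) :=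
  d13b_Sn (b := -2) (b' := -6) hk hI (d13b_cast (d13b_MI_c2 hk hI) (by norm_num) (by norm_num)
    (by norm_num) (by norm_num)) (by norm_num) (Or.inr (by norm_num)) (Or.inr (by norm_num)) hz

theorem d13b_S7 (hk : Even k) (hI : Inv13 k F) {z : ℂ} (hz : 0 < z.im) :
    d13b_G k F (-1 / z + 7) = z ^ k * d13b_G k F (z + 11) :=
  d13b_Sn (b := -6) (b' := -2) hk hI (d13b_cast (d13b_MI_inv hk (d13b_MI_c2 hk hI) (by norm_num))
    (by norm_num) (by norm_num) (by norm_num) (by norm_num)) (by norm_num)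
    (Or.inr (by norm_num)) (Or.inr (by norm_num)) hz

theorem d13b_S3 (hk : Even k) (hI : Inv13 k F) {z : ℂ} (hz : 0 < z.im) :
    d13b_G k F (-1 / z + 3) = z ^ k * d13b_G k F (z + 4) :=
  d13b_Sn (b := 3) (b' := 4) hk hI (d13b_cast (d13b_MI_a1 hI) (by norm_num) (by norm_num)
    (by norm_num) (by norm_num)) (by norm_num) (Or.inl (by norm_num)) (Or.inl (by norm_num)) hz

theorem d13b_S4 (hk : Even k) (hI : Inv13 k F) {z : ℂ} (hz : 0 < z.im) :
    d13b_G k F (-1 / z + 4) = z ^ k * d13b_G k F (z + 3) :=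
  d13b_Sn (b := 4) (b' := 3) hk hI (d13b_cast (d13b_MI_inv hk (d13b_MI_a1 hI) (by norm_num))
    (by norm_num) (by norm_num) (by norm_num) (by norm_num)) (by norm_num)
    (Or.inl (by norm_num)) (Or.inl (by norm_num)) hz

theorem d13b_S10 (hk : Even k) (hI : Inv13 k F) {z : ℂ} (hz : 0 < z.im) :
    d13b_G k F (-1 / z + 10) = z ^ k * d13b_G k F (z + 9) :=
  d13b_Sn (b := -3) (b' := -4) hk hI (d13b_cast (d13b_MI_a2 hI) (by norm_num) (by norm_num)
    (by norm_num) (by norm_num)) (by norm_num) (Or.inr (by norm_num)) (Or.inr (by norm_num)) hz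

theorem d13b_S9 (hk : Even k) (hI : Inv13 k F) {z : ℂ} (hz : 0 < z.im) :
    d13b_G k F (-1 / z + 9) = z ^ k * d13b_G k F (z + 10) :=
  d13b_Sn (b := -4) (b' := -3) hk hI (d13b_cast (d13b_MI_inv hk (d13b_MI_a2 hI) (by norm_num))
    (by norm_num) (by norm_num) (by norm_num) (by norm_num)) (by norm_num)
    (Or.inr (by norm_num)) (Or.inr (by norm_num)) hz

theorem d13b_S5 (hk : Even k) (hI : Inv13 k F) {z : ℂ} (hz : 0 < z.im) :
    d13b_G k F (-1 / z + 5) = z ^ k * d13b_G k F (z + 5) :=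
  d13b_Sn (b := 5) (b' := 5) hk hI (d13b_cast (d13b_MI_b1 hI) (by norm_num) (by norm_num)
    (by norm_num) (by norm_num)) (by norm_num) (Or.inl (by norm_num)) (Or.inl (by norm_num)) hz

theorem d13b_S8 (hk : Even k) (hI : Inv13 k F) {z : ℂ} (hz : 0 < z.im) :
    d13b_G k F (-1 / z + 8) = z ^ k * d13b_G k F (z + 8) :=
  d13b_Sn (b := -5) (b' := -5) hk hI (d13b_cast (d13b_MI_b2 hI) (by norm_num) (by norm_num)
    (by norm_num) (by norm_num)) (by norm_num) (Or.inr (by norm_num)) (Or.inr (by norm_num)) hz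

theorem d13b_N_add_one (hI : Inv13 k F) {z : ℂ} (hz : 0 < z.im) :
    d13b_N k F (z + 1) = d13b_N k F z := by
  have e1 : z + 1 + 1 = z + 2 := by ring
  have e2 : z + 1 + 2 = z + 3 := by ring
  have e3 : z + 1 + 3 = z + 4 := by ring
  have e4 : z + 1 + 4 = z + 5 := by ring
  have e5 : z + 1 + 5 = z + 6 := by ring
  have e6 : z + 1 + 6 = z + 7 := by ring
  have e7 : z + 1 + 7 = z + 8 := by ring
  have e8 : z + 1 + 8 = z + 9 := by ring
  have e9 : z + 1 + 9 = z + 10 := by ring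
  have e10 : z + 1 + 10 = z + 11 := by ring
  have e11 : z + 1 + 11 = z + 12 := by ring
  have e12 : z + 1 + 12 = z + 13 := by ring
  rw [d13b_N_eq, d13b_N_eq, e1, e2, e3, e4, e5, e6, e7, e8, e9, e10, e11, e12, hI.T,
    d13b_per hI hz]
  ring

theorem d13b_N_S (hk : Even k) (hI : Inv13 k F) {z : ℂ} (hz : 0 < z.im) :
    d13b_N k F (-1 / z) = z ^ (14 * k) * d13b_N k F z := by
  have hz0 := d13b_ne hz
  have h0 : F (-1 / z) = z ^ k * d13b_G k F z := by
    rw [d13b_G]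
    have h4 : z ^ k ≠ 0 := pow_ne_zero _ hz0
    field_simp
  rw [d13b_N_eq, d13b_N_eq, d13b_S0 hk hz, d13b_S1 hk hI hz, d13b_S2 hk hI hz,
    d13b_S3 hk hI hz, d13b_S4 hk hI hz, d13b_S5 hk hI hz, d13b_S6 hk hI hz, d13b_S7 hk hI hz,
    d13b_S8 hk hI hz, d13b_S9 hk hI hz, d13b_S10 hk hI hz, d13b_S11 hk hI hz,
    d13b_S12 hk hI hz, h0]
  have h8 : z ^ (14 * k) = (z ^ k) ^ 14 := by rw [← pow_mul, mul_comm]
  rw [h8]
  ring

theorem d13b_G_diff (hd : ∀ z : ℂ, 0 < z.im → DifferentiableAt ℂ F z) {z : ℂ} (hz : 0 < z.im) :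
    DifferentiableAt ℂ (d13b_G k F) z := by
  have hz0 := d13b_ne hz
  have h1 : DifferentiableAt ℂ (fun z : ℂ ↦ -1 / z) z :=
    (differentiableAt_const _).div differentiableAt_id hz0
  have h2 : DifferentiableAt ℂ (fun z : ℂ ↦ F (-1 / z)) z :=
    DifferentiableAt.comp z (hd (-1 / z) (d13b_im_inv hz)) h1
  exact h2.div (differentiableAt_id.pow k) (pow_ne_zero _ hz0)

theorem d13b_fam_diff (hd : ∀ z : ℂ, 0 < z.im → DifferentiableAt ℂ F z) (i : ℕ) {z : ℂ}
    (hz : 0 < z.im) : DifferentiableAt ℂ (d13b_fam k F i) z := by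
  unfold d13b_fam
  by_cases hi : i = 13
  · simp only [hi, if_true]
    exact hd z hz
  · simp only [hi, if_false]
    have h2 : 0 < (z + i).im := by simpa using hz
    exact DifferentiableAt.comp z (d13b_G_diff hd h2) (differentiableAt_id.add_const _)

theorem d13b_N_diff (hd : ∀ z : ℂ, 0 < z.im → DifferentiableAt ℂ F z) {z : ℂ}
    (hz : 0 < z.im) : DifferentiableAt ℂ (d13b_N k F) z := by
  have h : d13b_N k F = ∏ i ∈ Finset.range 14, d13b_fam k F i := by
    funext z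
    simp [d13b_N]
  rw [h]
  exact DifferentiableAt.finsetProd fun i _ ↦ d13b_fam_diff hd i hz

/-- `N` on the upper half plane. -/
def d13b_Nh (k : ℕ) (F : ℂ → ℂ) (τ : ℍ) : ℂ := d13b_N k F τ

theorem d13b_Nh_T (hI : Inv13 k F) :
    (d13b_Nh k F ∣[((14 * k : ℕ) : ℤ)] ModularGroup.T) = d13b_Nh k F := by
  ext z
  rw [SL_slash_apply, denom, modular_T_smul, ModularGroup.T]
  have : d13b_Nh k F ((1 : ℝ) +ᵥ z) = d13b_Nh k F z := by
    rw [d13b_Nh, d13b_Nh, UpperHalfPlane.coe_vadd, ← d13b_N_add_one hI z.2]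
    congr 1
    push_cast
    ring
  simp [this]

theorem d13b_Nh_S (hk : Even k) (hI : Inv13 k F) :
    (d13b_Nh k F ∣[((14 * k : ℕ) : ℤ)] ModularGroup.S) = d13b_Nh k F := by
  ext z
  have hz : (z : ℂ) ≠ 0 := ne_zero z
  have h := d13b_N_S hk hI z.2
  have h0 : (z : ℂ) = z.1 := rfl
  rw [← h0] at h
  have h1 : -(z : ℂ)⁻¹ = -1 / z := by rw [neg_div, one_div]
  have h4 : ((z : ℂ) ^ (14 * k)) ≠ 0 := pow_ne_zero _ hz
  have h5 : d13b_N k F (-(z : ℂ)⁻¹) * ((z : ℂ) ^ (14 * k))⁻¹ = d13b_N k F z := by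
    rw [h1, h]
    field_simp
  rw [SL_slash_apply, UpperHalfPlane.modular_S_smul, zpow_neg, zpow_natCast]
  simpa [denom, ModularGroup.S, d13b_Nh] using h5

theorem d13b_bound {m : ℕ}
    (hinf : ∃ c : ℝ, ∀ z : ℂ, 1 ≤ z.im → ‖F z‖ ≤ c * Real.exp (-2 * Real.pi * m * z.im))
    (hS : ∃ c : ℝ, ∀ z : ℂ, 1 ≤ z.im → ‖F (-1 / z) / z ^ k‖ ≤ c) :
    ∃ c : ℝ, 0 ≤ c ∧ ∀ z : ℂ, 1 ≤ z.im →
      ‖d13b_N k F z‖ ≤ c * Real.exp (-2 * Real.pi * m * z.im) := by
  obtain ⟨c₁, h1⟩ := hinf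
  obtain ⟨c₂, h2⟩ := hS
  have hG : ∀ z : ℂ, 1 ≤ z.im → ‖d13b_G k F z‖ ≤ |c₂| := fun z hz ↦
    (h2 z hz).trans (le_abs_self _)
  refine ⟨|c₂| ^ 13 * |c₁|, by positivity, fun z hz ↦ ?_⟩
  have hi : ∀ b : ℝ, 1 ≤ (z + (b : ℂ)).im := fun b ↦ by simpa using hz
  have g0 := hG z hz
  have g1 := hG (z + 1) (by simpa using hi 1)
  have g2 := hG (z + 2) (by simpa using hi 2)
  have g3 := hG (z + 3) (by simpa using hi 3)
  have g4 := hG (z + 4) (by simpa using hi 4)
  have g5 := hG (z + 5) (by simpa using hi 5)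
  have g6 := hG (z + 6) (by simpa using hi 6)
  have g7 := hG (z + 7) (by simpa using hi 7)
  have g8 := hG (z + 8) (by simpa using hi 8)
  have g9 := hG (z + 9) (by simpa using hi 9)
  have g10 := hG (z + 10) (by simpa using hi 10)
  have g11 := hG (z + 11) (by simpa using hi 11)
  have g12 := hG (z + 12) (by simpa using hi 12)
  have g13 : ‖F z‖ ≤ |c₁| * Real.exp (-2 * Real.pi * m * z.im) :=
    (h1 z hz).trans (mul_le_mul_of_nonneg_right (le_abs_self _) (Real.exp_pos _).le)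
  rw [d13b_N_eq]
  simp only [norm_mul]
  calc _ ≤ |c₂| * |c₂| * |c₂| * |c₂| * |c₂| * |c₂| * |c₂| * |c₂| * |c₂| * |c₂| * |c₂| * |c₂| *
        |c₂| * (|c₁| * Real.exp (-2 * Real.pi * m * z.im)) := by gcongr
    _ = _ := by ring

theorem d13b_Nh_bounded {c : ℝ} {m : ℕ} (hc : 0 ≤ c)
    (hN : ∀ z : ℂ, 1 ≤ z.im → ‖d13b_N k F z‖ ≤ c * Real.exp (-2 * Real.pi * m * z.im)) :
    IsBoundedAtImInfty (d13b_Nh k F) := by
  rw [isBoundedAtImInfty_iff]
  refine ⟨c, 1, fun z hz ↦ (hN z hz).trans ?_⟩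
  have h1 : Real.exp (-2 * Real.pi * m * (z : ℂ).im) ≤ 1 := by
    rw [Real.exp_le_one_iff]
    have h2 : 0 < (z : ℂ).im := z.2
    have h3 := Real.pi_pos
    have h4 : 0 ≤ Real.pi * m * (z : ℂ).im := by positivity
    linarith
  calc c * Real.exp (-2 * Real.pi * m * (z : ℂ).im) ≤ c * 1 :=
        mul_le_mul_of_nonneg_left h1 hc
    _ = c := mul_one c

/-- The norm as a form of level one. -/
def d13b_form (hk : Even k) (hd : ∀ z : ℂ, 0 < z.im → DifferentiableAt ℂ F z) (hI : Inv13 k F)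
    (hb : IsBoundedAtImInfty (d13b_Nh k F)) : ModularForm 𝒮ℒ ((14 * k : ℕ) : ℤ) where
  toFun := d13b_Nh k F
  slash_action_eq' A hA := by
    obtain ⟨A, rfl⟩ := hA
    exact slash_action_generators_SL2Z (d13b_Nh_S hk hI) (d13b_Nh_T hI) A
  holo' := by
    rw [UpperHalfPlane.mdifferentiable_iff]
    refine DifferentiableOn.congr (f := d13b_N k F) (fun z hz ↦
      (d13b_N_diff hd hz).differentiableWithinAt) fun z hz ↦ ?_
    simp [d13b_Nh, ofComplex_apply_of_im_pos hz]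
  bdd_at_cusps' hc := by
    rw [Subgroup.IsArithmetic.isCusp_iff_isCusp_SL2Z] at hc
    rw [OnePoint.isBoundedAt_iff_forall_SL2Z hc]
    intro γ _
    rw [slash_action_generators_SL2Z (d13b_Nh_S hk hI) (d13b_Nh_T hI)]
    exact hb

theorem d13b_coeff (f : ModularForm 𝒮ℒ ((14 * k : ℕ) : ℤ)) {c : ℝ} {m : ℕ} (hc : 0 ≤ c)
    (hN : ∀ τ : ℍ, 1 ≤ τ.im → ‖f τ‖ ≤ c * Real.exp (-2 * Real.pi * m * τ.im)) {n : ℕ}
    (hn : n < m) : (qExpansion 1 f).coeff n = 0 := by
  have key : ∀ t : ℝ, 1 ≤ t → ‖(qExpansion 1 f).coeff n‖ ≤ c * Real.exp (-t) := by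
    intro t ht
    have ht0 : 0 < t := by linarith
    rw [ModularFormClass.qExpansion_coeff_eq_intervalIntegral one_pos one_mem_strictPeriods_SL
      (f := f) n ht0]
    have h1 : ‖∫ u in (0 : ℝ)..1, 1 / Function.Periodic.qParam 1 (u + t * Complex.I) ^ n *
        f ⟨u + t * Complex.I, by simpa using ht0⟩‖ ≤ c * Real.exp (-t) * |1 - 0| := by
      refine intervalIntegral.norm_integral_le_of_norm_le_const fun u _ ↦ ?_
      have h2 := hN ⟨u + t * Complex.I, by simpa using ht0⟩ (by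
        show 1 ≤ (u + t * Complex.I).im
        simpa using ht)
      have h3 : (⟨u + t * Complex.I, by simpa using ht0⟩ : ℍ).im = t := by
        show (u + t * Complex.I).im = t
        simp
      rw [h3] at h2
      have h4 : ‖Function.Periodic.qParam 1 ((u : ℂ) + t * Complex.I)‖ =
          Real.exp (-2 * Real.pi * t / 1) := by
        rw [Function.Periodic.norm_qParam]
        simp
      rw [norm_mul, norm_div, norm_one, norm_pow, h4]
      have h5 : (1 : ℝ) / Real.exp (-2 * Real.pi * t / 1) ^ n = Real.exp (2 * Real.pi * n * t) := by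
        rw [← Real.exp_nat_mul, one_div, ← Real.exp_neg]
        congr 1
        ring
      rw [h5]
      calc Real.exp (2 * Real.pi * n * t) * ‖f ⟨u + t * Complex.I, _⟩‖ ≤
            Real.exp (2 * Real.pi * n * t) * (c * Real.exp (-2 * Real.pi * m * t)) :=
            mul_le_mul_of_nonneg_left h2 (Real.exp_pos _).le
        _ = c * Real.exp (-(2 * Real.pi * (m - n) * t)) := by
            rw [mul_left_comm, ← Real.exp_add]
            congr 2
            ring
        _ ≤ c * Real.exp (-t) := by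
            refine mul_le_mul_of_nonneg_left (Real.exp_le_exp.mpr (neg_le_neg ?_)) hc
            have h6 : (1 : ℝ) ≤ m - n := by
              have : (n : ℝ) + 1 ≤ m := by exact_mod_cast hn
              linarith
            have h7 : (1 : ℝ) ≤ 2 * Real.pi := by
              have := Real.pi_gt_three
              linarith
            calc t = 1 * 1 * t := by ring
              _ ≤ 2 * Real.pi * (m - n) * t := by gcongr
    simpa using h1
  have h2 : Tendsto (fun t : ℝ ↦ c * Real.exp (-t)) atTop (𝓝 0) := by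
    have := (Real.tendsto_exp_neg_atTop_nhds_zero).const_mul c
    rwa [mul_zero] at this
  have h3 : ‖(qExpansion 1 f).coeff n‖ ≤ 0 :=
    ge_of_tendsto h2 ((eventually_ge_atTop 1).mono key)
  exact norm_le_zero_iff.mp h3

end

theorem sturm13 {k m : ℕ} (hk : Even k) {F : ℂ → ℂ}
    (hd : ∀ z : ℂ, 0 < z.im → DifferentiableAt ℂ F z) (hI : Inv13 k F)
    (hinf : ∃ c : ℝ, ∀ z : ℂ, 1 ≤ z.im → ‖F z‖ ≤ c * Real.exp (-2 * Real.pi * m * z.im))
    (hS : ∃ c : ℝ, ∀ z : ℂ, 1 ≤ z.im → ‖F (-1 / z) / z ^ k‖ ≤ c)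
    (hm : 14 * k < 12 * m) : ∀ z : ℂ, 0 < z.im → F z = 0 := by
  obtain ⟨c, hc, hN⟩ := d13b_bound hinf hS
  have hb := d13b_Nh_bounded hc hN
  have hf : d13b_form hk hd hI hb = 0 := by
    refine ModularForm.sturm_bound_levelOne_nat ?_
    have h1 : (14 * k / 12 : ℕ) < m := by omega
    have h2 : (m : ℕ∞) ≤ (qExpansion 1 (d13b_form hk hd hI hb)).order := by
      refine PowerSeries.nat_le_order _ _ fun n hn ↦ ?_
      exact d13b_coeff (d13b_form hk hd hI hb) hc (fun τ hτ ↦ hN τ hτ) hn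
    exact lt_of_lt_of_le (by exact_mod_cast h1) h2
  have hz : ∏ i ∈ Finset.range 14, (fun τ : ℍ ↦ d13b_fam k F i τ) = 0 := by
    funext τ
    have h1 : d13b_Nh k F τ = 0 := by
      have := DFunLike.congr_fun hf τ
      exact this
    simpa [d13b_Nh, d13b_N] using h1
  rw [prod_eq_zero_iff] at hz
  · obtain ⟨i, -, hi⟩ := hz
    have hi' : ∀ z : ℂ, 0 < z.im → d13b_fam k F i z = 0 := fun z hz ↦ congrFun hi ⟨z, hz⟩
    by_cases h7 : i = 13
    · intro z hz
      have := hi' z hz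
      rwa [d13b_fam, if_pos h7] at this
    · intro z hz
      have h1 : 0 < (-1 / z - i).im := by
        have := d13b_im_inv hz
        simpa using this
      have h2 := hi' (-1 / z - i) h1
      have hz0 := d13b_ne hz
      rw [d13b_fam, if_neg h7, sub_add_cancel, d13b_S0 hk hz] at h2
      exact (mul_eq_zero.mp h2).resolve_left (pow_ne_zero _ hz0)
  · intro i _
    rw [UpperHalfPlane.mdifferentiable_iff]
    refine DifferentiableOn.congr (f := d13b_fam k F i) (fun z hz ↦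
      (d13b_fam_diff hd i hz).differentiableWithinAt) fun z hz ↦ ?_
    simp [ofComplex_apply_of_im_pos hz]

end D13

end GH
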