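import Pool.Agent.GH.D13.Rel13

/-! The operator `U_13` on series in `f`. -/

open PowerSeries Filter Topology

noncomputable section

namespace GH

namespace D13

variable {K : Type*} [Field K] [CharZero K]

/-! ### Helper lemmas -/

omit [CharZero K] in
theorem d13g_subst_C (a : K) : (C a : PowerSeries K).subst (hauptmodul 13 K) = C a :=
  PowerSeries.subst_C a

omit [CharZero K] in
theorem d13g_subst_one : (1 : PowerSeries K).subst (hauptmodul 13 K) = 1 := by
  have h := d13g_subst_C (1 : K)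
  rwa [map_one] at h

/-- `q/f`. -/
def d13g_w (K : Type*) [Field K] : PowerSeries K := (euler K 1 * invOfUnit (euler K 13) 1) ^ 2

/-- `f/q`. -/
def d13g_u (K : Type*) [Field K] : PowerSeries K := (euler K 13 * invOfUnit (euler K 1) 1) ^ 2

omit [CharZero K] in
theorem d13g_wu : d13g_w K * d13g_u K = 1 := by
  have h1 : euler K 1 * invOfUnit (euler K 1) 1 = 1 := fx_mul_inv K
  have h7 : euler K 13 * invOfUnit (euler K 13) 1 = 1 :=
    PowerSeries.mul_invOfUnit _ _ (by rw [fx_constantCoeff_euler]; rfl)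
  unfold d13g_w d13g_u
  rw [← mul_pow]
  have e : euler K 1 * invOfUnit (euler K 13) 1 * (euler K 13 * invOfUnit (euler K 1) 1) =
      (euler K 1 * invOfUnit (euler K 1) 1) * (euler K 13 * invOfUnit (euler K 13) 1) := by ring
  rw [e, h1, h7, one_mul, one_pow]

omit [CharZero K] in
theorem d13g_f : hauptmodul 13 K = X * d13g_u K := rfl

omit [CharZero K] in
theorem d13g_fw : hauptmodul 13 K * d13g_w K = X := by
  have h := d13g_wu (K := K)
  rw [d13g_f]
  linear_combination X * h

omit [CharZero K] in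
theorem d13g_u0 : PowerSeries.constantCoeff (d13g_u K) = 1 := fx_constantCoeff_U 13 K

omit [CharZero K] in
theorem d13g_inv_u : invOfUnit (d13g_u K) 1 = d13g_w K := by
  have h1 : d13g_u K * invOfUnit (d13g_u K) 1 = 1 :=
    PowerSeries.mul_invOfUnit _ _ (by rw [d13g_u0]; rfl)
  have h2 := d13g_wu (K := K)
  linear_combination (-(invOfUnit (d13g_u K) 1)) * h2 + d13g_w K * h1

omit [CharZero K] in
theorem d13g_dlog : dlog13 K = 1 + thq13 (d13g_u K) * d13g_w K := by
  rw [← d13g_inv_u]
  rfl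

omit [CharZero K] in
theorem d13g_thq_eq (F : PowerSeries K) : thq13 F = X * derivative K F := by
  ext n
  rcases n with _ | n
  · simp [thq13]
  · rw [thq13, coeff_mk, coeff_succ_X_mul, coeff_derivative]
    push_cast
    ring

omit [CharZero K] in
theorem d13g_thq_mul (F G : PowerSeries K) : thq13 (F * G) = thq13 F * G + F * thq13 G := by
  rw [d13g_thq_eq, d13g_thq_eq, d13g_thq_eq, Derivation.leibniz, smul_eq_mul, smul_eq_mul]
  ring

omit [CharZero K] in
theorem d13g_thq_one : thq13 (1 : PowerSeries K) = 0 := by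
  rw [d13g_thq_eq, Derivation.map_one_eq_zero, mul_zero]

omit [CharZero K] in
theorem d13g_thq_w : thq13 (d13g_w K) * d13g_u K = -(d13g_w K * thq13 (d13g_u K)) := by
  have h := congrArg thq13 (d13g_wu (K := K))
  rw [d13g_thq_mul, d13g_thq_one] at h
  linear_combination h

omit [CharZero K] in
/-- `θ (w^N) = - N w^N (θ u) w`. -/
theorem d13g_thq_pow (N : ℕ) : thq13 (d13g_w K ^ N) =
    -((N : PowerSeries K) * (d13g_w K ^ N * (thq13 (d13g_u K) * d13g_w K))) := by
  induction N with
  | zero => rw [pow_zero, d13g_thq_one]; simp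
  | succ N ih =>
      have h1 := d13g_thq_w (K := K)
      have h2 := d13g_wu (K := K)
      have h3 : thq13 (d13g_w K) = -(d13g_w K * (thq13 (d13g_u K) * d13g_w K)) := by
        linear_combination d13g_w K * h1 - thq13 (d13g_w K) * h2
      rw [pow_succ, d13g_thq_mul, ih, h3]
      push_cast
      ring

theorem d13g_coeff_pos {N : ℕ} (hN : N ≠ 0) :
    PowerSeries.coeff N (d13g_w K ^ N * dlog13 K) = 0 := by
  have h1 : (N : PowerSeries K) * (d13g_w K ^ N * dlog13 K) =
      (N : PowerSeries K) * d13g_w K ^ N - thq13 (d13g_w K ^ N) := by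
    rw [d13g_thq_pow, d13g_dlog]
    ring
  have h2 := congrArg (PowerSeries.coeff N) h1
  have hc : (N : PowerSeries K) = C (N : K) := by
    rw [map_natCast]
  rw [hc, map_sub, coeff_C_mul, coeff_C_mul, thq13, coeff_mk, sub_self] at h2
  rcases mul_eq_zero.mp h2 with h3 | h3
  · exact absurd (Nat.cast_eq_zero.mp h3) hN
  · exact h3

/-- The formula for a power of `f`. -/
theorem d13g_coeff_pow (m n : ℕ) : PowerSeries.coeff n (hauptmodul 13 K ^ m *
    (d13g_w K ^ n * dlog13 K)) = if n = m then 1 else 0 := by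
  rcases lt_trichotomy n m with h | h | h
  · rw [if_neg (by omega), d13g_f, mul_pow, mul_assoc, PowerSeries.coeff_X_pow_mul',
      if_neg (by omega)]
  · subst h
    have e : hauptmodul 13 K ^ n * (d13g_w K ^ n * dlog13 K) = X ^ n * dlog13 K := by
      rw [← mul_assoc, ← mul_pow, d13g_fw]
    rw [if_pos rfl, e, PowerSeries.coeff_X_pow_mul', if_pos le_rfl, Nat.sub_self,
      PowerSeries.coeff_zero_eq_constantCoeff_apply, constantCoeff_dlog13]
  · obtain ⟨N, rfl⟩ : ∃ N, n = m + N := ⟨n - m, by omega⟩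
    have e : hauptmodul 13 K ^ m * (d13g_w K ^ (m + N) * dlog13 K) =
        X ^ m * (d13g_w K ^ N * dlog13 K) := by
      rw [pow_add, ← d13g_fw (K := K), mul_pow]
      ring
    rw [if_neg (by omega), e, PowerSeries.coeff_X_pow_mul', if_pos (by omega),
      Nat.add_sub_cancel_left]
    exact d13g_coeff_pos (by omega)

/-- Lagrange's formula: `[T^n] G = [q^n] G(f) (q/f)^n θf/f`. -/
theorem lagrange13 (G : PowerSeries K) (n : ℕ) : PowerSeries.coeff n G =
    PowerSeries.coeff n (G.subst (hauptmodul 13 K) *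
      ((euler K 1 * invOfUnit (euler K 13) 1) ^ 2) ^ n * dlog13 K) := by
  have hs : HasSubst (hauptmodul 13 K) := fx_hasSubst 13
  change PowerSeries.coeff n G = PowerSeries.coeff n (G.subst (hauptmodul 13 K) *
    d13g_w K ^ n * dlog13 K)
  have h1 : ∀ k < n + 1, PowerSeries.coeff k (G -
      ∑ m ∈ Finset.range (n + 1), C (PowerSeries.coeff m G) * X ^ m) = 0 := by
    intro k hk
    rw [map_sub, map_sum, Finset.sum_eq_single k]
    · rw [coeff_C_mul, coeff_X_pow_self, mul_one, sub_self]
    · intro m _ hm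
      rw [coeff_C_mul, coeff_X_pow, if_neg (fun h ↦ hm h.symm), mul_zero]
    · intro h
      exact absurd (Finset.mem_range.mpr hk) h
  obtain ⟨H, hH⟩ := PowerSeries.X_pow_dvd_iff.mpr h1
  have h2 : G = ∑ m ∈ Finset.range (n + 1), C (PowerSeries.coeff m G) * X ^ m +
      X ^ (n + 1) * H := by
    rw [← hH]
    ring
  have h3 : G.subst (hauptmodul 13 K) = ∑ m ∈ Finset.range (n + 1),
      C (PowerSeries.coeff m G) * hauptmodul 13 K ^ m +
      hauptmodul 13 K ^ (n + 1) * H.subst (hauptmodul 13 K) := by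
    conv_lhs => rw [h2]
    rw [subst_add hs, subst_mul hs, subst_pow hs, subst_X hs]
    congr 1
    have e : ∀ F : PowerSeries K, F.subst (hauptmodul 13 K) = substAlgHom hs F := fun F ↦ by
      rw [coe_substAlgHom hs]
    rw [e, map_sum]
    refine Finset.sum_congr rfl fun m _ ↦ ?_
    rw [← e, subst_mul hs, subst_pow hs, subst_X hs, d13g_subst_C]
  rw [h3, mul_assoc, add_mul, map_add, Finset.sum_mul, map_sum]
  have h4 : PowerSeries.coeff n (hauptmodul 13 K ^ (n + 1) * H.subst (hauptmodul 13 K) *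
      (d13g_w K ^ n * dlog13 K)) = 0 := by
    rw [d13g_f, mul_pow, mul_assoc, mul_assoc, PowerSeries.coeff_X_pow_mul', if_neg (by omega)]
  rw [h4, add_zero, Finset.sum_eq_single n]
  · rw [mul_assoc, coeff_C_mul, d13g_coeff_pow, if_pos rfl, mul_one]
  · intro m _ hm
    rw [mul_assoc, coeff_C_mul, d13g_coeff_pow, if_neg (fun h ↦ hm h.symm), mul_zero]
  · intro h
    exact absurd (Finset.mem_range.mpr (Nat.lt_succ_self n)) h

omit [CharZero K] in
theorem d13g_U_expand_mul (F G : PowerSeries K) :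
    U 13 (F.expand 13 thirteen_ne * G) = F * U 13 G := by
  ext n
  simp only [U, coeff_mk]
  rw [coeff_mul, coeff_mul]
  symm
  refine Finset.sum_of_injOn (fun p ↦ (13 * p.1, 13 * p.2)) ?_ ?_ ?_ ?_
  · intro a _ b _ hab
    simp only [Prod.mk.injEq] at hab
    exact Prod.ext (by omega) (by omega)
  · intro a ha
    simp only [Finset.mem_coe, Finset.HasAntidiagonal.mem_antidiagonal] at ha ⊢
    omega
  · intro a ha hna
    rw [Finset.HasAntidiagonal.mem_antidiagonal] at ha
    by_cases h : 13 ∣ a.1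
    · exfalso
      apply hna
      obtain ⟨m, hm⟩ := h
      refine ⟨(m, n - m), ?_, ?_⟩
      · simp only [Finset.mem_coe, Finset.HasAntidiagonal.mem_antidiagonal]
        omega
      · exact Prod.ext (by simp [hm]) (by simp; omega)
    · rw [coeff_expand_of_not_dvd _ _ _ h, zero_mul]
  · intro a _
    simp only [coeff_mk]
    rw [coeff_expand_mul]

omit [CharZero K] in
/-- `q^13/f(q^13) = (q/f)^13 S(f)`. -/
theorem d13g_expand_w : (d13g_w K).expand 13 thirteen_ne =
    d13g_w K ^ 13 * (S13 K).subst (hauptmodul 13 K) := by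
  have h1 := congrArg (PowerSeries.expand 13 thirteen_ne) (d13g_fw (K := K))
  rw [map_mul, expand_X] at h1
  have h2 := hauptmodul13_expand K
  have h3 := d13g_fw (K := K)
  have h4 : (X : PowerSeries K) ^ 13 ≠ 0 := pow_ne_zero 13 X_ne_zero
  have h5 : (hauptmodul 13 K) ^ 13 ≠ 0 := by
    intro h
    apply h4
    rw [← h3, mul_pow, h, zero_mul]
  have h6 : hauptmodul 13 K ^ 13 * (d13g_w K).expand 13 thirteen_ne =
      hauptmodul 13 K ^ 13 * (d13g_w K ^ 13 * (S13 K).subst (hauptmodul 13 K)) := by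
    have h7 : hauptmodul 13 K ^ 13 * d13g_w K ^ 13 = X ^ 13 := by rw [← mul_pow, h3]
    linear_combination (-((d13g_w K).expand 13 thirteen_ne)) * h2 +
      (S13 K).subst (hauptmodul 13 K) * h1 - (S13 K).subst (hauptmodul 13 K) * h7
  exact mul_left_cancel₀ h5 h6

/-- `U_13 (G(f)) = ∑ b_i f^i`, `b_i = [h^{13i}] U² V S^{i-1} G(h)`. -/
theorem U_subst13 (hK : K13) (G : PowerSeries K) :
    U 13 (G.subst (hauptmodul 13 K)) =
      (PowerSeries.mk fun i ↦ PowerSeries.coeff (13 * i)
        (U13 K ^ 2 * V13 K * S13 K ^ i * (S13 K)⁻¹ * G)).subst (hauptmodul 13 K) := by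
  have hs : HasSubst (hauptmodul 13 K) := fx_hasSubst 13
  have hS : PowerSeries.constantCoeff (S13 K) ≠ 0 := by
    rw [constantCoeff_S13]
    exact one_ne_zero
  have hB : U 13 (G.subst (hauptmodul 13 K)) =
      (PowerSeries.mk (fcoeff 13 (U 13 (G.subst (hauptmodul 13 K))))).subst (hauptmodul 13 K) :=
    (subst_fcoeff 13 _).symm
  set B : PowerSeries K := PowerSeries.mk (fcoeff 13 (U 13 (G.subst (hauptmodul 13 K)))) with hBd
  clear_value B
  rw [hB]
  congr 1
  ext i
  rw [coeff_mk, lagrange13 B i, ← hB]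
  change PowerSeries.coeff i (U 13 (G.subst (hauptmodul 13 K)) * d13g_w K ^ i * dlog13 K) = _
  have h1 : U 13 (G.subst (hauptmodul 13 K)) * d13g_w K ^ i * dlog13 K =
      U 13 ((d13g_w K ^ i * dlog13 K).expand 13 thirteen_ne * G.subst (hauptmodul 13 K)) := by
    rw [d13g_U_expand_mul]
    ring
  have hSS : (S13 K).subst (hauptmodul 13 K) * ((S13 K)⁻¹).subst (hauptmodul 13 K) = 1 := by
    rw [← subst_mul hs, PowerSeries.mul_inv_cancel _ hS, d13g_subst_one]
  have hd := dlog13_expand (K := K) hK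
  have hd2 : (dlog13 K).expand 13 thirteen_ne = dlog13 K * (U13 K ^ 2 * V13 K).subst (hauptmodul 13 K) *
      ((S13 K)⁻¹).subst (hauptmodul 13 K) := by
    linear_combination ((S13 K)⁻¹).subst (hauptmodul 13 K) * hd -
      (dlog13 K).expand 13 thirteen_ne * hSS
  have h2 : (d13g_w K ^ i * dlog13 K).expand 13 thirteen_ne * G.subst (hauptmodul 13 K) =
      (U13 K ^ 2 * V13 K * S13 K ^ i * (S13 K)⁻¹ * G).subst (hauptmodul 13 K) *
        d13g_w K ^ (13 * i) * dlog13 K := by
    rw [map_mul, map_pow, d13g_expand_w, hd2, subst_mul hs _ G, subst_mul hs _ ((S13 K)⁻¹),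
      subst_mul hs _ (S13 K ^ i), subst_pow hs (S13 K) i, mul_pow, ← pow_mul]
    ring
  rw [h1, h2, U, coeff_mk]
  exact (lagrange13 _ (13 * i)).symm

end D13

end GH
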