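import Pool.Agent.GH.D13.UMat13A
import Pool.Agent.GH.UMatB_b
import Pool.Agent.GH.FExp

/-! The matrices of `U_13`. -/

open PowerSeries Filter Topology

noncomputable section

namespace GH

namespace D13

variable {K : Type*} [Field K] [CharZero K]

/-! ### Helper lemmas -/

theorem d13h_ppow_expand {u : PowerSeries K} (hu : PowerSeries.constantCoeff u = 1) (s : K) :
    (ppow u s).expand 13 thirteen_ne = ppow (u.expand 13 thirteen_ne) s := by
  unfold ppow
  have h := expand_subst 13 thirteen_ne (ub_hs hu) (binS s)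
  have h1 : (u - 1).expand 13 thirteen_ne = u.expand 13 thirteen_ne - 1 := by
    rw [map_sub, map_one]
  rw [← h1]
  exact h

omit [CharZero K] in
theorem d13h_U_expand_mul (F G : PowerSeries K) :
    U 13 (F.expand 13 thirteen_ne * G) = F * U 13 G := by
  ext n
  simp only [U, coeff_mk]
  rw [coeff_mul, coeff_mul]
  symm
  refine Finset.sum_of_injOn (fun p ↦ (13 * p.1, 13 * p.2)) ?_ ?_ ?_ ?_
  · intro a _ b _ hab
    simp only [Prod.mk.injEq] at hab
    exact Prod.ext (by omega) (by omega)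
  · intro a ha
    simp only [Finset.mem_coe, Finset.HasAntidiagonal.mem_antidiagonal] at ha ⊢
    omega
  · intro a ha hna
    rw [Finset.HasAntidiagonal.mem_antidiagonal] at ha
    by_cases h : 13 ∣ a.1
    · exfalso
      apply hna
      obtain ⟨m, hm⟩ := h
      refine ⟨(m, n - m), ?_, ?_⟩
      · simp only [Finset.mem_coe, Finset.HasAntidiagonal.mem_antidiagonal]
        omega
      · exact Prod.ext (by simp [hm]) (by simp; omega)
    · rw [coeff_expand_of_not_dvd _ _ _ h, zero_mul]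
  · intro a _
    simp only [coeff_mk]
    rw [coeff_expand_mul]

omit [CharZero K] in
theorem d13h_hs_f : HasSubst (hauptmodul 13 K) := fx_hasSubst 13

omit [CharZero K] in
theorem d13h_const_f : PowerSeries.constantCoeff (hauptmodul 13 K) = 0 := by
  rw [← PowerSeries.coeff_zero_eq_constantCoeff_apply]
  exact coeff_zero_hauptmodul 13

/-- `S^s` -/
def d13hR (s : K) : PowerSeries K := ppow (S13 K) s

theorem d13hR_add (s t : K) : d13hR (s + t) = d13hR s * d13hR t :=
  ub_ppow_add (constantCoeff_S13 K) s t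

theorem d13hR_zero : d13hR (0 : K) = 1 := ub_ppow_zero (constantCoeff_S13 K)

theorem d13hR_one : d13hR (1 : K) = S13 K := ub_ppow_one (constantCoeff_S13 K)

theorem d13hR_nat (n : ℕ) : d13hR (n : K) = S13 K ^ n := ub_ppow_nat (constantCoeff_S13 K) n

theorem d13hR_const (s : K) : PowerSeries.constantCoeff (d13hR s) = 1 :=
  ub_const_ppow (constantCoeff_S13 K) s

theorem d13hR_neg_one : d13hR (-1 : K) = (S13 K)⁻¹ := by
  have h1 : d13hR (-1 : K) * S13 K = 1 := by
    rw [← d13hR_one, ← d13hR_add]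
    have : (-1 : K) + 1 = 0 := by ring
    rw [this, d13hR_zero]
  have h2 : PowerSeries.constantCoeff (S13 K) ≠ 0 := by
    rw [constantCoeff_S13]
    exact one_ne_zero
  rw [PowerSeries.eq_inv_iff_mul_eq_one h2]
  exact h1

theorem d13h_const_Sf :
    PowerSeries.constantCoeff ((S13 K).subst (hauptmodul 13 K) : PowerSeries K) = 1 := by
  rw [ub_const_subst d13h_const_f, constantCoeff_S13]

theorem d13h_R_subst (s : K) :
    ((d13hR s).subst (hauptmodul 13 K) : PowerSeries K) =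
      ppow ((S13 K).subst (hauptmodul 13 K) : PowerSeries K) s := by
  unfold d13hR ppow
  rw [subst_comp_subst_apply (ub_hs (constantCoeff_S13 K)) d13h_hs_f]
  congr 1
  rw [subst_sub d13h_hs_f, ub_subst_one d13h_hs_f]

theorem d13h_phi_expand (x : K) :
    phiPow13 x = (phiPow13 x).expand 13 thirteen_ne *
      (d13hR (-x)).subst (hauptmodul 13 K) := by
  have h1 : (phiPow13 x).expand 13 thirteen_ne = phiPow13 x *
      ppow ((S13 K).subst (hauptmodul 13 K) : PowerSeries K) x := by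
    unfold phiPow13
    rw [d13h_ppow_expand (constantCoeff_phi13 K), ← S13_subst K,
      ub_ppow_mul (constantCoeff_phi13 K) d13h_const_Sf]
  rw [h1, d13h_R_subst, mul_assoc, ← ub_ppow_add d13h_const_Sf, add_neg_cancel,
    ub_ppow_zero d13h_const_Sf, mul_one]

/-- `C_c = 1, S/(U²V), 1/U, 1/V, 1/U², 1/(UV)`. -/
def d13hC (K : Type*) [Field K] : ℕ → PowerSeries K
  | 0 => 1
  | 1 => S13 K * ((U13 K)⁻¹) ^ 2 * (V13 K)⁻¹
  | 2 => (U13 K)⁻¹
  | 3 => (V13 K)⁻¹
  | 4 => ((U13 K)⁻¹) ^ 2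
  | 5 => (U13 K)⁻¹ * (V13 K)⁻¹
  | _ => 1

omit [CharZero K] in
theorem d13h_Uinv : U13 K * (U13 K)⁻¹ = 1 :=
  PowerSeries.mul_inv_cancel _ (by
    rw [constantCoeff_U13]
    exact one_ne_zero)

omit [CharZero K] in
theorem d13h_Vinv : V13 K * (V13 K)⁻¹ = 1 :=
  PowerSeries.mul_inv_cancel _ (by
    rw [constantCoeff_V13]
    exact one_ne_zero)

theorem d13h_Uinv_subst :
    ((U13 K).subst (hauptmodul 13 K) : PowerSeries K) *
      ((U13 K)⁻¹).subst (hauptmodul 13 K) = 1 := by
  rw [← subst_mul d13h_hs_f, d13h_Uinv, ub_subst_one d13h_hs_f]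

theorem d13h_Vinv_subst :
    ((V13 K).subst (hauptmodul 13 K) : PowerSeries K) *
      ((V13 K)⁻¹).subst (hauptmodul 13 K) = 1 := by
  rw [← subst_mul d13h_hs_f, d13h_Vinv, ub_subst_one d13h_hs_f]

theorem d13h_D_expand (hK : K13) {c : ℕ} (hc : c ≤ 5) :
    dser13 K c = (dser13 K c).expand 13 thirteen_ne *
      (d13hC K c).subst (hauptmodul 13 K) := by
  have hu := d13h_Uinv_subst (K := K)
  have hv := d13h_Vinv_subst (K := K)
  interval_cases c
  · show (1 : PowerSeries K) = (1 : PowerSeries K).expand 13 thirteen_ne *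
      (1 : PowerSeries K).subst (hauptmodul 13 K)
    rw [map_one, ub_subst_one d13h_hs_f, mul_one]
  · show dlog13 K = (dlog13 K).expand 13 thirteen_ne *
      (S13 K * ((U13 K)⁻¹) ^ 2 * (V13 K)⁻¹).subst (hauptmodul 13 K)
    rw [subst_mul d13h_hs_f, subst_mul d13h_hs_f, subst_pow d13h_hs_f, ← mul_assoc,
      ← mul_assoc, dlog13_expand hK, subst_mul d13h_hs_f, subst_pow d13h_hs_f]
    calc dlog13 K = dlog13 K * (((U13 K).subst (hauptmodul 13 K) : PowerSeries K) *
          ((U13 K)⁻¹).subst (hauptmodul 13 K)) ^ 2 *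
          (((V13 K).subst (hauptmodul 13 K) : PowerSeries K) *
          ((V13 K)⁻¹).subst (hauptmodul 13 K)) := by rw [hu, hv, one_pow, mul_one, mul_one]
      _ = _ := by ring
  · show N4 K = (N4 K).expand 13 thirteen_ne * ((U13 K)⁻¹).subst (hauptmodul 13 K)
    rw [N4_expand hK, mul_assoc, hu, mul_one]
  · show N6 K = (N6 K).expand 13 thirteen_ne * ((V13 K)⁻¹).subst (hauptmodul 13 K)
    rw [N6_expand hK, mul_assoc, hv, mul_one]
  · show N4 K ^ 2 = (N4 K ^ 2).expand 13 thirteen_ne *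
      (((U13 K)⁻¹) ^ 2).subst (hauptmodul 13 K)
    rw [map_pow, N4_expand hK, subst_pow d13h_hs_f]
    calc N4 K ^ 2 = N4 K ^ 2 * (((U13 K).subst (hauptmodul 13 K) : PowerSeries K) *
          ((U13 K)⁻¹).subst (hauptmodul 13 K)) ^ 2 := by rw [hu, one_pow, mul_one]
      _ = _ := by ring
  · show N4 K * N6 K = (N4 K * N6 K).expand 13 thirteen_ne *
      ((U13 K)⁻¹ * (V13 K)⁻¹).subst (hauptmodul 13 K)
    rw [map_mul, N4_expand hK, N6_expand hK, subst_mul d13h_hs_f]
    calc N4 K * N6 K = N4 K * N6 K * (((U13 K).subst (hauptmodul 13 K) : PowerSeries K) *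
          ((U13 K)⁻¹).subst (hauptmodul 13 K)) *
          (((V13 K).subst (hauptmodul 13 K) : PowerSeries K) *
          ((V13 K)⁻¹).subst (hauptmodul 13 K)) := by rw [hu, hv, mul_one, mul_one]
      _ = _ := by ring

/-- The product `U² V S^{i-1} S^{-x} C_c`. -/
theorem d13h_coef {c : ℕ} (hc : c ≤ 5) (x : K) (i : ℕ) :
    U13 K ^ 2 * V13 K * S13 K ^ i * (S13 K)⁻¹ * (d13hR (-x) * d13hC K c) =
      ppow (S13 K) ((i : K) - x - sh13 c) * U13 K ^ eu13 c * V13 K ^ ev13 c := by
  have hu := d13h_Uinv (K := K)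
  have hv := d13h_Vinv (K := K)
  have h1 : S13 K ^ i = d13hR (i : K) := (d13hR_nat _).symm
  have h2 : ppow (S13 K) ((i : K) - x - ((1 : ℕ) : K)) =
      d13hR (i : K) * d13hR (-1) * d13hR (-x) := by
    have e : (i : K) - x - ((1 : ℕ) : K) = (i : K) + (-1) + (-x) := by
      push_cast
      ring
    rw [e]
    change d13hR _ = _
    rw [d13hR_add, d13hR_add]
  have h3 : ppow (S13 K) ((i : K) - x - ((0 : ℕ) : K)) =
      d13hR (i : K) * d13hR (-1) * d13hR (-x) * S13 K := by
    have e : (i : K) - x - ((0 : ℕ) : K) = (i : K) + (-1) + (-x) + 1 := by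
      push_cast
      ring
    rw [e]
    change d13hR _ = _
    rw [d13hR_add, d13hR_add, d13hR_add, d13hR_one]
  rw [h1, ← d13hR_neg_one]
  have key : ∀ C : PowerSeries K, U13 K ^ 2 * V13 K * d13hR (i : K) * d13hR (-1) *
      (d13hR (-x) * C) =
      (d13hR (i : K) * d13hR (-1) * d13hR (-x)) * (U13 K ^ 2 * V13 K * C) := by
    intro C
    ring
  rw [key]
  interval_cases c
  · show _ * (U13 K ^ 2 * V13 K * (1 : PowerSeries K)) =
      ppow (S13 K) ((i : K) - x - ((1 : ℕ) : K)) * U13 K ^ 2 * V13 K ^ 1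
    rw [h2]
    ring
  · show _ * (U13 K ^ 2 * V13 K * (S13 K * ((U13 K)⁻¹) ^ 2 * (V13 K)⁻¹)) =
      ppow (S13 K) ((i : K) - x - ((0 : ℕ) : K)) * U13 K ^ 0 * V13 K ^ 0
    rw [h3]
    calc _ = (d13hR (i : K) * d13hR (-1) * d13hR (-x)) * S13 K *
          ((U13 K * (U13 K)⁻¹) ^ 2 * (V13 K * (V13 K)⁻¹)) := by ring
      _ = _ := by rw [hu, hv]; ring
  · show _ * (U13 K ^ 2 * V13 K * (U13 K)⁻¹) =
      ppow (S13 K) ((i : K) - x - ((1 : ℕ) : K)) * U13 K ^ 1 * V13 K ^ 1
    rw [h2]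
    calc _ = (d13hR (i : K) * d13hR (-1) * d13hR (-x)) *
          (U13 K * V13 K * (U13 K * (U13 K)⁻¹)) := by ring
      _ = _ := by rw [hu]; ring
  · show _ * (U13 K ^ 2 * V13 K * (V13 K)⁻¹) =
      ppow (S13 K) ((i : K) - x - ((1 : ℕ) : K)) * U13 K ^ 2 * V13 K ^ 0
    rw [h2]
    calc _ = (d13hR (i : K) * d13hR (-1) * d13hR (-x)) *
          (U13 K ^ 2 * (V13 K * (V13 K)⁻¹)) := by ring
      _ = _ := by rw [hv]; ring
  · show _ * (U13 K ^ 2 * V13 K * ((U13 K)⁻¹) ^ 2) =
      ppow (S13 K) ((i : K) - x - ((1 : ℕ) : K)) * U13 K ^ 0 * V13 K ^ 1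
    rw [h2]
    calc _ = (d13hR (i : K) * d13hR (-1) * d13hR (-x)) *
          (V13 K * (U13 K * (U13 K)⁻¹) ^ 2) := by ring
      _ = _ := by rw [hu]; ring
  · show _ * (U13 K ^ 2 * V13 K * ((U13 K)⁻¹ * (V13 K)⁻¹)) =
      ppow (S13 K) ((i : K) - x - ((1 : ℕ) : K)) * U13 K ^ 1 * V13 K ^ 0
    rw [h2]
    calc _ = (d13hR (i : K) * d13hR (-1) * d13hR (-x)) *
          (U13 K * (U13 K * (U13 K)⁻¹) * (V13 K * (V13 K)⁻¹)) := by ring
      _ = _ := by rw [hu, hv]; ring

/-! ### The theorems -/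

/-- The matrix of `U_13` in the basis `φ^{2x} D_c f^j`. -/
theorem U_frm13_subst (hK : K13) {c : ℕ} (hc : c ≤ 5) (x : K) (u : PowerSeries K) :
    U 13 (phiPow13 x * dser13 K c * u.subst (hauptmodul 13 K)) =
      phiPow13 x * dser13 K c * (PowerSeries.mk fun i ↦
        ∑ j ∈ Finset.range (13 * i + 1), Mat13 c x i j * PowerSeries.coeff j u).subst
        (hauptmodul 13 K) := by
  have h1 : phiPow13 x * dser13 K c * (u.subst (hauptmodul 13 K) : PowerSeries K) =
      (phiPow13 x * dser13 K c).expand 13 thirteen_ne *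
        PowerSeries.subst (hauptmodul 13 K) (d13hR (-x) * d13hC K c * u) := by
    rw [map_mul, subst_mul d13h_hs_f, subst_mul d13h_hs_f]
    calc phiPow13 x * dser13 K c * (u.subst (hauptmodul 13 K) : PowerSeries K)
        = ((phiPow13 x).expand 13 thirteen_ne * (d13hR (-x)).subst (hauptmodul 13 K)) *
          ((dser13 K c).expand 13 thirteen_ne * (d13hC K c).subst (hauptmodul 13 K)) *
          (u.subst (hauptmodul 13 K) : PowerSeries K) := by
          rw [← d13h_phi_expand x, ← d13h_D_expand hK hc]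
      _ = _ := by ring
  rw [h1, d13h_U_expand_mul, U_subst13 hK]
  congr 2
  ext i
  rw [PowerSeries.coeff_mk, PowerSeries.coeff_mk]
  have h2 : U13 K ^ 2 * V13 K * S13 K ^ i * (S13 K)⁻¹ * (d13hR (-x) * d13hC K c * u) =
      ppow (S13 K) ((i : K) - x - sh13 c) * U13 K ^ eu13 c * V13 K ^ ev13 c * u := by
    rw [← d13h_coef hc x i]
    ring
  rw [h2, PowerSeries.coeff_mul,
    Finset.Nat.sum_antidiagonal_eq_sum_range_succ (fun a b =>
      PowerSeries.coeff a
        (ppow (S13 K) ((i : K) - x - sh13 c) * U13 K ^ eu13 c * V13 K ^ ev13 c) *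
        PowerSeries.coeff b u), ← Finset.sum_range_reflect]
  refine Finset.sum_congr rfl fun j hj => ?_
  rw [Finset.mem_range] at hj
  unfold Mat13
  rw [if_pos (by omega)]
  congr 3 <;> omega

theorem Mat13_zero_zero (x : K) (c : ℕ) : Mat13 c x 0 0 = 1 := by
  unfold Mat13
  rw [if_pos (by omega), mul_zero, Nat.sub_zero, PowerSeries.coeff_zero_eq_constantCoeff_apply,
    map_mul, map_mul, map_pow, map_pow, constantCoeff_U13, constantCoeff_V13, one_pow, one_pow,
    mul_one, mul_one]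
  exact d13hR_const _

theorem Mat13_of_lt (c : ℕ) (x : K) {i j : ℕ} (h : 13 * i < j) : Mat13 c x i j = 0 := by
  unfold Mat13
  rw [if_neg (by omega)]

theorem phiPow13_natCast (m : ℕ) : phiPow13 (m : K) = phi13 K ^ m :=
  ub_ppow_nat (constantCoeff_phi13 K) m

theorem phiPow13_zero : phiPow13 (0 : K) = 1 := ub_ppow_zero (constantCoeff_phi13 K)

theorem constantCoeff_phiPow13 (x : K) : PowerSeries.constantCoeff (phiPow13 x) = 1 :=
  ub_const_ppow (constantCoeff_phi13 K) x

theorem constantCoeff_dser13 (c : ℕ) : PowerSeries.constantCoeff (dser13 K c) = 1 := by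
  have h4 := constantCoeff_N4 K
  have h6 := constantCoeff_N6 K
  match c with
  | 0 => exact map_one _
  | 1 => exact constantCoeff_dlog13 K
  | 2 => exact h4
  | 3 => exact h6
  | 4 =>
    show PowerSeries.constantCoeff (N4 K ^ 2) = 1
    rw [map_pow, h4, one_pow]
  | 5 =>
    show PowerSeries.constantCoeff (N4 K * N6 K) = 1
    rw [map_mul, h4, h6, one_mul]
  | n + 6 => exact map_one _

end D13

end GH
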